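import Mathlib

set_option linter.all false

section

/-! Galois group of `S_n`: definitions and the statements of the steps. -/

set_option autoImplicit false

open Polynomial Filter
open scoped NNReal

namespace Pool.Agent.MP_9c0351_nt.Gal

/-- the polynomial `S_n` -/
noncomputable def Sp (n : ℕ) : ℚ[X] :=
  C ((n : ℚ) - 1) * (X ^ (n + 1) - 1) - C ((n : ℚ) + 1) * (X ^ n - X)

/-- the value of `S_n` -/
def Sv {K : Type} [Field K] (n : ℕ) (x : K) : K :=
  ((n : K) - 1) * (x ^ (n + 1) - 1) - ((n : K) + 1) * (x ^ n - x)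

/-- the value of the derivative of `S_n` -/
def Sd {K : Type} [Field K] (n : ℕ) (x : K) : K :=
  ((n : K) - 1) * ((n : K) + 1) * x ^ n - ((n : K) + 1) * ((n : K) * x ^ (n - 1) - 1)

/-- `R` is the set of roots of the reduced polynomial, which splits -/
def Fac {K : Type} [Field K] (n : ℕ) (R : Finset K) : Prop :=
  (1 : K) ∉ R ∧ (-1 : K) ∉ R ∧
    C ((n : K) - 1) * (X ^ (n + 1) - 1) - C ((n : K) + 1) * (X ^ n - X) =
      C ((n : K) - 1) * (X - 1) ^ 3 * (X + 1) ^ (n % 2) * ∏ x ∈ R, (X - C x)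

/-- value at `1` of the monic reduced polynomial -/
def f1 (n : ℕ) : ℚ := (n : ℚ) * (n + 1) / (6 * 2 ^ (n % 2))

/-- value at `-1` of the monic reduced polynomial -/
def fm (n : ℕ) : ℚ := if n % 2 = 1 then ((n : ℚ) + 1) / 4 else (n : ℚ) / (2 * (n - 1))

/-- discriminant of the monic trace polynomial -/
def dY (n : ℕ) : ℚ :=
  if n % 2 = 1 then
    12 * ((n : ℚ) * ((n + 1) / 2)) ^ ((n - 2) / 2) /
      (n * (((n : ℚ) + 1) / 2) ^ 2 * (((n : ℚ) - 1) / 2) ^ ((n - 2) / 2 + 1))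
  else 12 * ((n : ℚ) * (n + 1)) ^ ((n - 2) / 2) /
      ((n : ℚ) ^ 2 * (n + 1) * ((n : ℚ) - 1) ^ ((n - 2) / 2))

/-- algebraic facts on the root set -/
structure Alg {K : Type} [Field K] [CharZero K] [DecidableEq K] (n : ℕ) (R : Finset K) : Prop where
  card : R.card = 2 * ((n - 2) / 2)
  mem : ∀ x, x ∈ R ↔ Sv n x = 0 ∧ x ≠ 1 ∧ x ≠ -1
  ne0 : ∀ x ∈ R, x ≠ 0
  inv : ∀ x ∈ R, x⁻¹ ∈ R
  p0 : ∏ x ∈ R, x = 1
  p1 : ∏ x ∈ R, (x - 1) = (f1 n : K)
  pm : ∏ x ∈ R, (x + 1) = (fm n : K)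
  pa : ∏ x ∈ R, (((n : K) - 1) * x - ((n : K) + 1)) =
    ((n : K) - 1) ^ (R.card + 1 + n % 2) * (2 * (n : K)) ^ (1 - n % 2) / 4
  der : ∀ x ∈ R, (∏ x' ∈ R.erase x, (x - x')) * x * (((n : K) - 1) * x - ((n : K) + 1)) *
    (x - 1) * (x + 1) ^ (n % 2) = -((n : K) * ((n : K) + 1))

/-- a place above `q` with its inertia group -/
structure Loc {K : Type} [Field K] [CharZero K] (q : ℕ) (v : Valuation K ℝ≥0)
    (I : Subgroup (K ≃ₐ[ℚ] K)) : Prop where
  lt : v (q : K) < 1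
  iso : ∀ σ ∈ I, ∀ z, v (σ z) = v z
  res : ∀ σ ∈ I, ∀ z, v z ≤ 1 → v (σ z - z) < 1
  val : ∀ z, z ≠ 0 → (∀ σ ∈ I, σ z = z) → ∃ j : ℤ, v z = v (q : K) ^ j

open Classical in
/-- position of the roots at a prime `q` that divides `n - 1` exactly once -/
structure Geo {K : Type} [Field K] (n q : ℕ) (R : Finset K) (v : Valuation K ℝ≥0) (x0 : K) :
    Prop where
  x0R : x0 ∈ R
  x0v : v x0 < 1
  unit : ∀ x ∈ R, x ≠ x0 → x ≠ x0⁻¹ → v x = 1
  cA : (R.filter fun x => v (x - 1) < 1).card = q - 3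
  cB : (R.filter fun x => v (x + 1) < 1).card = (q - 1) * (n % 2)
  vA : ∀ x ∈ R, v (x - 1) < 1 → v (x - 1) ^ (q - 3) = v (q : K)
  vB : ∀ x ∈ R, v (x + 1) < 1 → v (x + 1) ^ (q - 1) = v (q : K)
  vW : ∀ x ∈ R, v x = 1 → v (x - 1) = 1 → v (x + 1) = 1 →
    v (x ^ ((n - 1) / q) - 1) ^ q = v (q : K)
  dA : ∀ x ∈ R, ∀ x' ∈ R, v (x - 1) < 1 → v (x' - 1) < 1 → x ≠ x' → v (x - x') = v (x - 1)
  dW : ∀ x ∈ R, ∀ x' ∈ R, v x = 1 → v (x - 1) = 1 → v (x - x') < 1 → x ≠ x' →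
    v (x - x') ^ (q - 1) = v (q : K)

/-- the element `c` -/
def Cel {K : Type} [Field K] [CharZero K] (R A : Finset K) (q : ℕ) (c : K ≃ₐ[ℚ] K) : Prop :=
  (∀ x ∈ R, x ∉ A → c x = x) ∧ (∀ x ∈ A, c x ∈ A) ∧ ∀ x ∈ A, ∀ j : ℕ,
    ((c ^ j) x = x ↔ (q - 3) / 2 ∣ j) ∧
    ((c ^ j) x = x⁻¹ ↔ Even ((q - 3) / 2) ∧ j % ((q - 3) / 2) = (q - 3) / 4)

/-- the groups `I` and `P` -/
def Wil {K : Type} [Field K] [CharZero K] (R A A' : Finset K) (q k : ℕ) (x0 : K)
    (I P : Subgroup (K ≃ₐ[ℚ] K)) : Prop :=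
  IsPGroup q P ∧ x0 ∈ R ∧ A ⊆ R ∧ A' ⊆ R ∧ A.card = q - 3 ∧ A'.card = k ∧
    (∀ x ∈ A, x⁻¹ ∈ A) ∧ (∀ x ∈ A', x⁻¹ ∈ A') ∧ x0 ∉ A ∧ x0 ∉ A' ∧ Disjoint A A' ∧
    (∀ x ∈ R, (∀ g ∈ P, g x = x) ↔ x = x0 ∨ x = x0⁻¹ ∨ x ∈ A ∨ x ∈ A') ∧
    (∀ g ∈ I, g x0 = x0) ∧ (∀ a ∈ A, ∀ a' ∈ A, ∃ g ∈ I, g a = a') ∧
    (∀ a ∈ A', ∀ a' ∈ A', ∃ g ∈ I, g a = a')

/-- local data on a set `Y` with an action of `G` -/
def LocY (G Y : Type) [Group G] [MulAction G Y] (q h k : ℕ) : Prop :=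
  ∃ (I P : Subgroup G) (c : G) (y0 : Y) (A A' : Set Y), IsPGroup q P ∧ A.ncard = h ∧
    A'.ncard = k ∧ y0 ∉ A ∧ y0 ∉ A' ∧ Disjoint A A' ∧
    (∀ y, (∀ g ∈ P, g • y = y) ↔ y = y0 ∨ y ∈ A ∨ y ∈ A') ∧ (∀ g ∈ I, g • y0 = y0) ∧
    (∀ a ∈ A, ∀ a' ∈ A, ∃ g ∈ I, g • a = a') ∧ (∀ a ∈ A', ∀ a' ∈ A', ∃ g ∈ I, g • a = a') ∧
    (∀ y, c • y ≠ y ↔ y ∈ A) ∧ (Odd h → ∀ a ∈ A, ∀ a' ∈ A, ∃ j : ℕ, c ^ j • a = a')

theorem Sv_map {K : Type} [Field K] [CharZero K] (n : ℕ) (g : K ≃ₐ[ℚ] K) (x : K) :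
    Sv n (g x) = g (Sv n x) := by simp [Sv]

/-- the roots other than `1` and `-1` -/
def RS (n : ℕ) (K : Type) [Field K] [CharZero K] : SubMulAction (K ≃ₐ[ℚ] K) K where
  carrier := {x | Sv n x = 0 ∧ x ≠ 1 ∧ x ≠ -1}
  smul_mem' := by
    rintro g x ⟨h0, h1, h2⟩
    refine ⟨?_, fun h => h1 (g.injective ?_), fun h => h2 (g.injective ?_)⟩
    · rw [AlgEquiv.smul_def, Sv_map, h0, map_zero]
    · simpa using h
    · simpa using h

/-- the traces `x + x⁻¹` of these roots -/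
def YS (n : ℕ) (K : Type) [Field K] [CharZero K] : SubMulAction (K ≃ₐ[ℚ] K) K where
  carrier := {y | ∃ x ∈ RS n K, y = x + x⁻¹}
  smul_mem' := by
    rintro g y ⟨x, hx, rfl⟩
    exact ⟨g • x, (RS n K).smul_mem g hx, by simp [AlgEquiv.smul_def]⟩

/-- an equivariant double cover -/
structure Cov (G R Y : Type) [Group G] [MulAction G R] [MulAction G Y] (ι : R → R) (t : R → Y) :
    Prop where
  ne : ∀ x, ι x ≠ x
  fib : ∀ x x', t x = t x' ↔ x' = x ∨ x' = ι x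
  sur : Function.Surjective t
  eι : ∀ (g : G) x, g • ι x = ι (g • x)
  et : ∀ (g : G) x, t (g • x) = g • t x

open Classical in
/-- some element of `G` swaps exactly the fibres over `T` -/
def Flip (G : Type) {R Y : Type} [Group G] [MulAction G R] (ι : R → R) (t : R → Y)
    (T : Finset Y) : Prop :=
  ∃ g : G, ∀ x, g • x = if t x ∈ T then ι x else x

/-- `q` divides `m` exactly once -/
def Ex (q m : ℕ) : Prop := q ∣ m ∧ ¬ q ^ 2 ∣ m

/-- most of `m` consists of primes `≥ 11` that divide it exactly once -/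
def Sq (m : ℕ) : Prop :=
  ∃ Q E : ℕ, m = Q * E ∧ 4 * E ^ 3 < m ∧ Squarefree Q ∧ ∀ q, q.Prime → q ∣ Q → 11 ≤ q ∧ Ex q m

/-- the arithmetic condition on `n` -/
structure Good (n : ℕ) : Prop where
  q1 : ∃ q, q.Prime ∧ q % 4 = 1 ∧ 13 ≤ q ∧ q ^ 2 ≤ n ∧ Ex q (n - 1)
  q3 : ∃ q, q.Prime ∧ q % 4 = 3 ∧ 11 ≤ q ∧ Ex q (n - 1)
  r0 : ∃ r, r.Prime ∧ r % 4 = 1 ∧ Ex r n
  r1 : ∃ r, r.Prime ∧ 5 ≤ r ∧ Ex r (n + 1)
  sq : Sq (n - 1)
  pr : ∀ j, n - 1 ≠ j * (j + 1)

/-! ### global algebra -/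

def BAS_st : Prop := ∀ n : ℕ, 4 ≤ n → ∃ R : Finset (Sp n).SplittingField, Fac n R ∧
  (∀ x ∈ R, ∀ x' ∈ R, ∃ g : (Sp n).SplittingField ≃ₐ[ℚ] (Sp n).SplittingField, g x = x') ∧
  ∀ g : (Sp n).SplittingField ≃ₐ[ℚ] (Sp n).SplittingField, (∀ x ∈ R, g x = x) → g = 1

def ALG_st : Prop := ∀ (K : Type) [Field K] [CharZero K] [DecidableEq K] (n : ℕ) (R : Finset K),
  4 ≤ n → Fac n R → Alg n R

def DSC_st : Prop := ∀ (K : Type) [Field K] [CharZero K] [DecidableEq K] (n : ℕ) (R : Finset K),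
  4 ≤ n → Alg n R →
    ∏ x ∈ R, ∏ x' ∈ R.erase x, (x - x') = ((dY n ^ 2 * (f1 n * fm n) : ℚ) : K) ∧
    (∏ y ∈ R.image fun x => x + x⁻¹, ∏ y' ∈ (R.image fun x => x + x⁻¹).erase y, (y - y')) ^ 2 =
      (dY n : K) ^ 2

def NSQ_st : Prop := ∀ n q r r' : ℕ, 4 ≤ n → q.Prime → r.Prime → r'.Prime → 5 ≤ q → 5 ≤ r →
  5 ≤ r' → Ex q (n - 1) → Ex r n → Ex r' (n + 1) → ∀ e : ℚ, e = 1 ∨ e = -1 →
    ¬ IsSquare (e * dY n) ∧ ¬ IsSquare (e * (f1 n * fm n)) ∧
      ¬ IsSquare (e * (dY n * (f1 n * fm n)))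

def DLT_st : Prop := ∀ (K : Type) [Field K] [CharZero K] [DecidableEq K]
  (T : SubMulAction (K ≃ₐ[ℚ] K) K) [Fintype T] [DecidableEq T] (F : Finset K),
  (∀ x, x ∈ T ↔ x ∈ F) → ∃ Δ : K,
    (∀ g : K ≃ₐ[ℚ] K,
      g Δ = ((Equiv.Perm.sign (MulAction.toPerm g : Equiv.Perm T) : ℤ) : K) * Δ) ∧
    (Δ ^ 2 = ∏ x ∈ F, ∏ x' ∈ F.erase x, (x - x') ∨ Δ ^ 2 = -∏ x ∈ F, ∏ x' ∈ F.erase x, (x - x'))

def CHR_st : Prop := ∀ (K : Type) [Field K] [NumberField K] [IsGalois ℚ K] [DecidableEq K] (n : ℕ)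
  (R : Finset K) [Fintype (RS n K)] [DecidableEq (RS n K)] [Fintype (YS n K)]
  [DecidableEq (YS n K)], 4 ≤ n → Alg n R → Good n →
    (∃ g : K ≃ₐ[ℚ] K, Equiv.Perm.sign (MulAction.toPerm g : Equiv.Perm (YS n K)) = -1) ∧
    (∃ g : K ≃ₐ[ℚ] K, Equiv.Perm.sign (MulAction.toPerm g : Equiv.Perm (RS n K)) = -1) ∧
    ∃ g : K ≃ₐ[ℚ] K, Equiv.Perm.sign (MulAction.toPerm g : Equiv.Perm (YS n K)) *
      Equiv.Perm.sign (MulAction.toPerm g : Equiv.Perm (RS n K)) = -1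

/-! ### valuations -/

def VAL_st : Prop := ∀ (K : Type) [Field K] [NumberField K] [IsGalois ℚ K] (q : ℕ), q.Prime →
  ∃ (v : Valuation K ℝ≥0) (I : Subgroup (K ≃ₐ[ℚ] K)), Loc q v I

def TAY_st : Prop := ∀ (K : Type) [Field K] (n : ℕ) (x δ : K), 1 ≤ n →
  Sv n (x + δ) = Sv n x + Sd n x * δ + ∑ i ∈ Finset.Icc 2 (n + 1),
    (((n : K) - 1) * ((n + 1).choose i : K) * x ^ (n + 1 - i) -
      ((n : K) + 1) * (n.choose i : K) * x ^ (n - i)) * δ ^ i

def NP_st : Prop := ∀ (K : Type) [Field K] (v : Valuation K ℝ≥0) (c : ℕ → K) (δ : K) (r s M : ℕ),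
  r < s → s ≤ M → δ ≠ 0 → v δ < 1 → c r ≠ 0 → (∀ i, r < i → i < s → v (c i) ≤ v (c r)) →
  v (c s) = 1 → (∀ i, s < i → i ≤ M → v (c i) ≤ 1) → ∑ i ∈ Finset.Icc r M, c i * δ ^ i = 0 →
  v δ ^ (s - r) = v (c r)

def N1_st : Prop := ∀ (K : Type) [Field K] [CharZero K] (v : Valuation K ℝ≥0) (n q : ℕ) (x : K),
  4 ≤ n → q.Prime → 5 ≤ q → v (q : K) < 1 → Ex q (n - 1) ∨ Ex q n → Sv n x = 0 → x ≠ 1 →
  v (x - 1) < 1 → v (x - 1) ^ (q - 3) = v (q : K)

def NW_st : Prop := ∀ (K : Type) [Field K] [CharZero K] (v : Valuation K ℝ≥0) (n q : ℕ)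
  (x x' : K), 4 ≤ n → q.Prime → 5 ≤ q → v (q : K) < 1 → Ex q (n - 1) → Sv n x = 0 →
  Sv n x' = 0 → v x = 1 → v (x - 1) = 1 → v (x - x') < 1 → x ≠ x' →
  v (x - x') ^ (q - 1) = v (q : K)

def WLD_st : Prop := ∀ (K : Type) [Field K] [CharZero K] (v : Valuation K ℝ≥0) (n q : ℕ) (x : K),
  4 ≤ n → q.Prime → 5 ≤ q → v (q : K) < 1 → Sv n x = 0 → v x = 1 → v (x - 1) = 1 →
  v (x + 1) = 1 → (Ex q (n - 1) → v (x ^ ((n - 1) / q) - 1) ^ q = v (q : K)) ∧
    (Ex q n → v (x ^ (n / q) - 1) ^ q = v (q : K))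

def GE1_st : Prop := ∀ (K : Type) [Field K] [CharZero K] [DecidableEq K] (v : Valuation K ℝ≥0)
  (n q : ℕ) (R : Finset K), 4 ≤ n → q.Prime → 5 ≤ q → v (q : K) < 1 → Ex q (n - 1) → Alg n R →
  ∃ x0 ∈ R, v x0 = v (q : K) ∧ ∀ x ∈ R, x ≠ x0 → x ≠ x0⁻¹ → v x = 1

def GEO_st : Prop := ∀ (K : Type) [Field K] [CharZero K] [DecidableEq K] (v : Valuation K ℝ≥0)
  (n q : ℕ) (R : Finset K), 4 ≤ n → q.Prime → 5 ≤ q → v (q : K) < 1 → Ex q (n - 1) → Alg n R →
  ∃ x0, Geo n q R v x0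

/-! ### the action of inertia -/

def ORB_st : Prop := ∀ (K : Type) [Field K] [NumberField K] (q : ℕ) (v : Valuation K ℝ≥0)
  (I : Subgroup (K ≃ₐ[ℚ] K)) (x z : K) (N : ℕ), q.Prime → Loc q v I →
  (∀ σ ∈ I, σ x = x → σ z = z) → v z ^ N = v (q : K) →
  N ∣ (MulAction.stabilizer (K ≃ₐ[ℚ] K) x).relIndex I

def SYL_st : Prop := ∀ (G Ω : Type) [Group G] [Finite G] [MulAction G Ω] (I : Subgroup G) (q : ℕ),
  q.Prime → (∃ P : Subgroup G, IsPGroup q P ∧
    (∀ x : Ω, q ∣ (MulAction.stabilizer G x).relIndex I → ∃ g ∈ P, g • x ≠ x) ∧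
    ∀ T : Finset Ω, T.card < q → (∀ g ∈ I, ∀ x ∈ T, g • x ∈ T) → ∀ g ∈ P, ∀ x ∈ T, g • x = x) ∧
  ∀ T : Finset Ω, (∀ g ∈ I, ∀ x ∈ T, g • x ∈ T) → ∀ x ∈ T,
    T.card ∣ (MulAction.stabilizer G x).relIndex I → ∀ x' ∈ T, ∃ g ∈ I, g • x = x'

def AFF_st : Prop := ∀ (K : Type) [Field K] [CharZero K] (q N : ℕ) (v : Valuation K ℝ≥0)
  (I : Subgroup (K ≃ₐ[ℚ] K)) (T : Set K), q.Prime → 0 < N → Loc q v I →
  (∀ g ∈ I, ∀ x ∈ T, g x ∈ T) → (∀ x ∈ T, ∀ x' ∈ T, x ≠ x' → v (x - x') ^ N = v (q : K)) →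
  ∀ g ∈ I, ∀ x ∈ T, (g ^ (q * N)) x = x

def MUL_st : Prop := ∀ (K : Type) [Field K] [NumberField K] (q : ℕ) (v : Valuation K ℝ≥0)
  (I : Subgroup (K ≃ₐ[ℚ] K)) (T : Finset K), Loc q v I → (1 : K) ∉ T →
  (∀ g ∈ I, ∀ x ∈ T, g x ∈ T) → (∀ x ∈ T, ∀ x' ∈ T, x ≠ x' → v (x - x') = v (x - 1)) →
  (∀ x ∈ T, ∀ x' ∈ T, ∃ g ∈ I, g x = x') →
  ∃ τ ∈ I, ∀ x ∈ T, ∀ j : ℕ, (τ ^ j) x = x ↔ T.card ∣ j

open Classical in
def LO1_st : Prop := ∀ (K : Type) [Field K] [NumberField K] [DecidableEq K] (n q : ℕ)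
  (R : Finset K) (v : Valuation K ℝ≥0) (I : Subgroup (K ≃ₐ[ℚ] K)) (x0 : K), 4 ≤ n → q.Prime →
  5 ≤ q → Alg n R → Loc q v I → Geo n q R v x0 → ∃ P,
    Wil R (R.filter fun x => v (x - 1) < 1) (R.filter fun x => v (x + 1) < 1) q
      ((q - 1) * (n % 2)) x0 I P

open Classical in
def LO2_st : Prop := ∀ (K : Type) [Field K] [NumberField K] [DecidableEq K] (n q : ℕ)
  (R : Finset K) (v : Valuation K ℝ≥0) (I : Subgroup (K ≃ₐ[ℚ] K)) (x0 : K), 4 ≤ n → q.Prime →
  5 ≤ q → Alg n R → Loc q v I → Geo n q R v x0 →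
  (∀ a ∈ R.filter fun x => v (x - 1) < 1, ∀ a' ∈ R.filter fun x => v (x - 1) < 1,
    ∃ g ∈ I, g a = a') → ∃ c, Cel R (R.filter fun x => v (x - 1) < 1) q c

def FXR_st : Prop := ∀ (K : Type) [Field K] [NumberField K] [IsGalois ℚ K] [DecidableEq K]
  (n r : ℕ) (R : Finset K), 4 ≤ n → r.Prime → 5 ≤ r → n % 2 = 1 → Ex r n → Alg n R →
  ∃ (P : Subgroup (K ≃ₐ[ℚ] K)) (A : Finset K), IsPGroup r P ∧ A ⊆ R ∧ A.card = r - 3 ∧
    ∀ x ∈ R, (∀ g ∈ P, g x = x) ↔ x ∈ A

/-! ### from roots to traces -/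

def TR0_st : Prop := ∀ (K : Type) [Field K] [CharZero K] [DecidableEq K] (n : ℕ) (R : Finset K),
  Alg n R → Finite (RS n K) ∧ Finite (YS n K) ∧ Nat.card (YS n K) = (n - 2) / 2 ∧
    (∃ (ι : RS n K → RS n K) (t : RS n K → YS n K), (∀ x, (ι x : K) = (x : K)⁻¹) ∧
      (∀ x, (t x : K) = x + (x : K)⁻¹) ∧ Cov (K ≃ₐ[ℚ] K) (RS n K) (YS n K) ι t) ∧
    ∀ (r : ℕ) (P : Subgroup (K ≃ₐ[ℚ] K)) (A : Finset K), r.Prime → 3 ≤ r → IsPGroup r P →
      A ⊆ R → (∀ x ∈ R, (∀ g ∈ P, g x = x) ↔ x ∈ A) →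
      2 * {y : YS n K | ∀ g ∈ P, g • y = y}.ncard = A.card

def TRL_st : Prop := ∀ (K : Type) [Field K] [CharZero K] [DecidableEq K] (n q k : ℕ)
  (R A A' : Finset K) (x0 : K) (I P : Subgroup (K ≃ₐ[ℚ] K)) (c : K ≃ₐ[ℚ] K), Alg n R → q.Prime →
  11 ≤ q → Wil R A A' q (2 * k) x0 I P → Cel R A q c →
  LocY (K ≃ₐ[ℚ] K) (YS n K) q ((q - 3) / 2) k

/-! ### permutation groups -/

def BLK_st : Prop := ∀ (G Y : Type) [Group G] [Finite G] [Finite Y] [MulAction G Y] (q h k s : ℕ)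
  (B : Set Y), MulAction.IsPretransitive G Y → q.Prime → q = 2 * h + 3 → k = 0 ∨ k = h + 1 →
  1 ≤ h → LocY G Y q h k → MulAction.IsBlock G B → 2 ≤ B.ncard → s * B.ncard = Nat.card Y →
    (k = 0 → (q : ℤ) ∣ (s : ℤ) - 1 ∧ (q : ℤ) ∣ 2 * (B.ncard : ℤ) + 1) ∧
    (k = h + 1 → ((q : ℤ) ∣ (s : ℤ) - 1 ∧ (q : ℤ) ∣ (B.ncard : ℤ) + 1) ∨
      ((q : ℤ) ∣ (s : ℤ) - 2 ∧ (q : ℤ) ∣ 2 * (B.ncard : ℤ) + 1))

def TWO_st : Prop := ∀ (G Y : Type) [Group G] [Finite G] [Finite Y] [MulAction G Y] (r : ℕ)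
  (P : Subgroup G) (B : Set Y), r.Prime → 3 ≤ r → IsPGroup r P → MulAction.IsBlock G B →
  2 * B.ncard = Nat.card Y → {y : Y | ∀ g ∈ P, g • y = y}.ncard < r →
  Even {y : Y | ∀ g ∈ P, g • y = y}.ncard

def ARI_st : Prop := ∀ n s β Q E : ℕ, 4 ≤ n → s * β = (n - 2) / 2 → 2 ≤ β → 2 ≤ s →
  n - 1 = Q * E → 4 * E ^ 3 < n - 1 → Squarefree Q → (∀ j, n - 1 ≠ j * (j + 1)) →
  (∀ q : ℕ, q.Prime → q ∣ Q →
    (n % 2 = 0 → (q : ℤ) ∣ (s : ℤ) - 1 ∧ (q : ℤ) ∣ 2 * (β : ℤ) + 1) ∧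
    (n % 2 = 1 → ((q : ℤ) ∣ (s : ℤ) - 1 ∧ (q : ℤ) ∣ (β : ℤ) + 1) ∨
      ((q : ℤ) ∣ (s : ℤ) - 2 ∧ (q : ℤ) ∣ 2 * (β : ℤ) + 1))) → n % 2 = 1 ∧ s = 2

def J1_st : Prop := ∀ (G Y : Type) [Group G] [Finite G] [Finite Y] [MulAction G Y] (A : Set Y)
  (a : Y), MulAction.IsMultiplyPretransitive G Y 2 → A.ncard ^ 2 < Nat.card Y → a ∈ A →
  ∃ g : G, g • a = a ∧ ∀ b ∈ A, g • b ∈ A → b = a

def JOR_st : Prop := ∀ (G Y : Type) [Group G] [Finite G] [Fintype Y] [DecidableEq Y]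
  [MulAction G Y] (c : G) (A : Set Y), MulAction.IsPreprimitive G Y → 2 ≤ A.ncard →
  A.ncard ^ 2 < Nat.card Y → (∀ y, c • y ≠ y ↔ y ∈ A) →
  (∀ a ∈ A, ∀ a' ∈ A, ∃ j : ℕ, c ^ j • a = a') →
  ∀ π : Equiv.Perm Y, Equiv.Perm.sign π = 1 → ∃ g : G, MulAction.toPerm g = π

def C1_st : Prop := ∀ (G R Y : Type) [Group G] [Fintype Y] [DecidableEq Y] [MulAction G R]
  [MulAction G Y] (ι : R → R) (t : R → Y), Cov G R Y ι t → 5 ≤ Fintype.card Y →
  (∀ π : Equiv.Perm Y, Equiv.Perm.sign π = 1 → ∃ g : G, MulAction.toPerm g = π) →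
  (∃ c : G, (∀ x : R, c • x = x ∨ c • x = ι x) ∧ (∃ x : R, c • x = x) ∧ ∃ x : R, c • x ≠ x) →
  ∀ T : Finset Y, Even T.card → Flip G ι t T

def C2_st : Prop := ∀ (G R Y : Type) [Group G] [Fintype R] [DecidableEq R] [Fintype Y]
  [DecidableEq Y] [MulAction G R] [MulAction G Y] (ι : R → R) (t : R → Y), Cov G R Y ι t →
  5 ≤ Fintype.card Y →
  (∀ π : Equiv.Perm Y, Equiv.Perm.sign π = 1 → ∃ g : G, MulAction.toPerm g = π) →
  (∃ g : G, Equiv.Perm.sign (MulAction.toPerm g : Equiv.Perm Y) = -1) →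
  (∃ g : G, Equiv.Perm.sign (MulAction.toPerm g : Equiv.Perm R) = -1) →
  (∃ g : G, Equiv.Perm.sign (MulAction.toPerm g : Equiv.Perm Y) *
    Equiv.Perm.sign (MulAction.toPerm g : Equiv.Perm R) = -1) →
  ∃ T : Finset Y, Odd T.card ∧ Flip G ι t T

def C3_st : Prop := ∀ (G R Y : Type) [Group G] [Fintype Y] [DecidableEq Y] [MulAction G R]
  [MulAction G Y] (ι : R → R) (t : R → Y), Cov G R Y ι t →
  (∀ g : G, (∀ x : R, g • x = x) → g = 1) →
  (∀ π : Equiv.Perm Y, Equiv.Perm.sign π = 1 → ∃ g : G, MulAction.toPerm g = π) →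
  (∃ g : G, Equiv.Perm.sign (MulAction.toPerm g : Equiv.Perm Y) = -1) →
  (∀ T : Finset Y, Even T.card → Flip G ι t T) → (∃ T : Finset Y, Odd T.card ∧ Flip G ι t T) →
  Nat.card G = 2 ^ Fintype.card Y * (Fintype.card Y).factorial

/-! ### density -/

def DIV_st : Prop := ∀ a : ℕ, a = 1 ∨ a = 3 →
  ¬ Summable fun q : ℕ => if q.Prime ∧ q % 4 = a then (1 : ℝ) / q else 0

open Classical in
def SIE_st : Prop := ∀ S : Set ℕ, (∀ q ∈ S, q.Prime) →
  (¬ Summable fun q : ℕ => if q ∈ S then (1 : ℝ) / q else 0) → ∀ ε : ℝ, 0 < ε →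
  ∃ F : Finset ℕ, (∀ q ∈ F, q ∈ S) ∧ ∀ᶠ N : ℕ in atTop,
    (Set.ncard {m : ℕ | m ≤ N ∧ ∀ q ∈ F, ¬ Ex q m} : ℝ) ≤ ε * N

def MRK_st : Prop := ∀ ε : ℝ, 0 < ε → ∀ᶠ N : ℕ in atTop,
  (Set.ncard {m : ℕ | m ≤ N ∧ ¬ Sq m} : ℝ) ≤ ε * N

def DEN_st : Prop := ∀ ε : ℝ, 0 < ε → ∀ᶠ N : ℕ in atTop,
  (Set.ncard {n : ℕ | n ≤ N ∧ ¬ Good n} : ℝ) ≤ ε * N

end Pool.Agent.MP_9c0351_nt.Gal

end

section

/-! The discriminants of the reduced polynomial and of the trace polynomial. -/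

set_option autoImplicit false

open Polynomial Filter
open scoped NNReal

namespace Pool.Agent.MP_9c0351_nt.Gal

theorem mul_DSC {K : Type} [Field K] {w u : K} (hw : w ≠ 0) (hu : u ≠ 0) :
    (w - u) * (w - u⁻¹) = w * (w + w⁻¹ - (u + u⁻¹)) := by
  field_simp
  ring

theorem fib_DSC {K : Type} [Field K] {w u : K} (hw : w ≠ 0) (hu : u ≠ 0) :
    w + w⁻¹ = u + u⁻¹ ↔ w = u ∨ w = u⁻¹ := by
  constructor
  · intro h
    have := mul_DSC hw hu
    rw [h, sub_self, mul_zero, mul_eq_zero, sub_eq_zero, sub_eq_zero] at this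
    exact this
  · rintro (rfl | rfl)
    · rfl
    · rw [inv_inv, add_comm]

theorem ne_DSC {K : Type} [Field K] [CharZero K] [DecidableEq K] {n : ℕ} {R : Finset K}
    (h : Alg n R) {x : K} (hx : x ∈ R) : x ≠ x⁻¹ := by
  intro e
  have h0 := h.ne0 x hx
  have h1 := (h.mem x).1 hx
  have : x * x = 1 := by
    nth_rewrite 2 [e]
    exact mul_inv_cancel₀ h0
  exact (mul_self_eq_one_iff.1 this).elim h1.2.1 h1.2.2

theorem one_DSC {K : Type} [Field K] [CharZero K] [DecidableEq K] {n : ℕ} {R : Finset K}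
    (h : Alg n R) {x : K} (hx : x ∈ R) : ∏ x' ∈ R.erase x, (x - x') = (x - x⁻¹) *
      ∏ y' ∈ (R.image fun u => u + u⁻¹).erase (x + x⁻¹), (x * (x + x⁻¹ - y')) := by
  have h0 := h.ne0 x hx
  rw [← Finset.mul_prod_erase _ _ (Finset.mem_erase.2 ⟨(ne_DSC h hx).symm, h.inv x hx⟩)]
  congr 1
  rw [← Finset.prod_fiberwise_of_maps_to (t := (R.image fun u => u + u⁻¹).erase (x + x⁻¹))
    (g := fun u => u + u⁻¹)]
  · refine Finset.prod_congr rfl fun y hy => ?_
    obtain ⟨hy1, hy2⟩ := Finset.mem_erase.1 hy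
    obtain ⟨u, hu, rfl⟩ := Finset.mem_image.1 hy2
    have u0 := h.ne0 u hu
    have e : ((R.erase x).erase x⁻¹).filter (fun w => w + w⁻¹ = u + u⁻¹) = {u, u⁻¹} := by
      ext w
      simp only [Finset.mem_filter, Finset.mem_erase, Finset.mem_insert, Finset.mem_singleton]
      constructor
      · rintro ⟨⟨-, -, hw⟩, e⟩
        exact (fib_DSC (h.ne0 w hw) u0).1 e
      · intro e
        have hw : w ∈ R := by
          rcases e with rfl | rfl
          · exact hu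
          · exact h.inv u hu
        have e' := (fib_DSC (h.ne0 w hw) u0).2 e
        refine ⟨⟨fun c => hy1 ?_, fun c => hy1 ?_, hw⟩, e'⟩
        · rw [← e']; exact (fib_DSC (h.ne0 w hw) h0).2 (Or.inr c)
        · rw [← e', c]
    rw [e, Finset.prod_pair (ne_DSC h hu), mul_DSC h0 u0]
  · intro u hu
    obtain ⟨h1, hu⟩ := Finset.mem_erase.1 hu
    obtain ⟨h2, hu⟩ := Finset.mem_erase.1 hu
    refine Finset.mem_erase.2 ⟨fun c => ?_, Finset.mem_image_of_mem _ hu⟩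
    exact ((fib_DSC (h.ne0 u hu) h0).1 c).elim h2 h1

theorem two_DSC {K : Type} [Field K] [CharZero K] [DecidableEq K] {n : ℕ} {R : Finset K}
    (h : Alg n R) : ∏ x ∈ R, ∏ x' ∈ R.erase x, (x - x') =
      (∏ y ∈ R.image fun x => x + x⁻¹, ∏ y' ∈ (R.image fun x => x + x⁻¹).erase y, (y - y')) ^ 2 *
        ((f1 n : K) * (fm n : K)) := by
  rw [Finset.prod_congr rfl fun x hx => one_DSC h hx, Finset.prod_mul_distrib]
  have e1 : ∏ x ∈ R, (x - x⁻¹) = (f1 n : K) * (fm n : K) := by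
    have e : ∏ x ∈ R, (x - x⁻¹) = ∏ x ∈ R, ((x - 1) * (x + 1) * x⁻¹) := by
      refine Finset.prod_congr rfl fun x hx => ?_
      have := h.ne0 x hx
      field_simp
      ring
    rw [e, Finset.prod_mul_distrib, Finset.prod_mul_distrib, Finset.prod_inv_distrib, h.p0, h.p1,
      h.pm, inv_one, mul_one]
  have e2 : ∏ x ∈ R, ∏ _y' ∈ (R.image fun u => u + u⁻¹).erase (x + x⁻¹), x = 1 := by
    rw [Finset.prod_congr rfl fun x hx => show ∏ _y' ∈ (R.image fun u => u + u⁻¹).erase (x + x⁻¹),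
      x = x ^ ((R.image fun u => u + u⁻¹).card - 1) by
        rw [Finset.prod_const, Finset.card_erase_of_mem (Finset.mem_image_of_mem _ hx)],
      Finset.prod_pow, h.p0, one_pow]
  simp only [Finset.prod_mul_distrib]
  rw [e1, e2, one_mul, mul_comm, ← Finset.prod_pow]
  congr 1
  rw [Finset.prod_comp (fun y => ∏ y' ∈ (R.image fun u => u + u⁻¹).erase y, (y - y'))
    (fun u => u + u⁻¹)]
  refine Finset.prod_congr rfl fun y hy => ?_
  obtain ⟨u, hu, rfl⟩ := Finset.mem_image.1 hy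
  have e : R.filter (fun w => w + w⁻¹ = u + u⁻¹) = {u, u⁻¹} := by
    ext w
    simp only [Finset.mem_filter, Finset.mem_insert, Finset.mem_singleton]
    constructor
    · rintro ⟨hw, e⟩
      exact (fib_DSC (h.ne0 w hw) (h.ne0 u hu)).1 e
    · intro e
      have hw : w ∈ R := by
        rcases e with rfl | rfl
        · exact hu
        · exact h.inv u hu
      exact ⟨hw, (fib_DSC (h.ne0 w hw) (h.ne0 u hu)).2 e⟩
  rw [e, Finset.card_pair (ne_DSC h hu)]

theorem DSC_pf : DSC_st := by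
  intro K _ _ _ n R hn h
  have n0 : (n : K) ≠ 0 := Nat.cast_ne_zero.2 (by omega)
  have na : (n : K) - 1 ≠ 0 := by
    rw [sub_ne_zero]
    exact_mod_cast (by omega : n ≠ 1)
  have nb : (n : K) + 1 ≠ 0 := by exact_mod_cast (by omega : n + 1 ≠ 0)
  have key := Finset.prod_congr rfl h.der
  simp only [Finset.prod_mul_distrib, Finset.prod_pow, Finset.prod_const] at key
  rw [h.p0, h.pa, h.p1, h.pm, h.card, pow_mul, neg_sq, ← pow_mul] at key
  have e : ∏ x ∈ R, ∏ x' ∈ R.erase x, (x - x') = ((dY n ^ 2 * (f1 n * fm n) : ℚ) : K) ∧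
      (f1 n : K) * (fm n : K) ≠ 0 := by
    generalize ∏ x ∈ R, ∏ x' ∈ R.erase x, (x - x') = D at key ⊢
    rcases Nat.mod_two_eq_zero_or_one n with h2 | h2
    · simp only [dY, f1, fm, h2, zero_ne_one, if_false] at key ⊢
      push_cast at key ⊢
      generalize (n - 2) / 2 = d at key ⊢
      generalize (n : K) - 1 = a at key na ⊢
      generalize (n : K) + 1 = b at key nb ⊢
      refine ⟨?_, by simp [n0, na, nb]⟩
      field_simp at key ⊢
      linear_combination 6 * key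
    · simp only [dY, f1, fm, h2, if_true] at key ⊢
      push_cast at key ⊢
      generalize (n - 2) / 2 = d at key ⊢
      generalize (n : K) - 1 = a at key na ⊢
      generalize (n : K) + 1 = b at key nb ⊢
      refine ⟨?_, by simp [n0, nb]⟩
      simp only [mul_pow, div_pow] at key ⊢
      field_simp at key ⊢
      linear_combination 24 * 2 ^ (d * 2) * key
  refine ⟨e.1, mul_right_cancel₀ e.2 ?_⟩
  rw [← two_DSC h, e.1]
  push_cast
  rfl

end Pool.Agent.MP_9c0351_nt.Gal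

end

section

/-! Three rational numbers that are not squares up to sign. -/

set_option autoImplicit false

open Polynomial Filter
open scoped NNReal

namespace Pool.Agent.MP_9c0351_nt.Gal

/-- `x` is nonzero and has valuation `k` at `p` -/
def V_NSQ (p : ℕ) (x : ℚ) (k : ℤ) : Prop := x ≠ 0 ∧ padicValRat p x = k

section
variable {p : ℕ} [Fact p.Prime] {x y : ℚ} {k l : ℤ}

theorem mul_NSQ (h : V_NSQ p x k) (h' : V_NSQ p y l) : V_NSQ p (x * y) (k + l) :=
  ⟨mul_ne_zero h.1 h'.1, by rw [padicValRat.mul h.1 h'.1, h.2, h'.2]⟩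

theorem div_NSQ (h : V_NSQ p x k) (h' : V_NSQ p y l) : V_NSQ p (x / y) (k - l) :=
  ⟨div_ne_zero h.1 h'.1, by rw [padicValRat.div h.1 h'.1, h.2, h'.2]⟩

theorem pow_NSQ (h : V_NSQ p x k) (m : ℕ) : V_NSQ p (x ^ m) (m * k) :=
  ⟨pow_ne_zero m h.1, by rw [padicValRat.pow, h.2]⟩

omit [Fact p.Prime] in
theorem unit_NSQ {m : ℕ} (h : ¬ p ∣ m) : V_NSQ p (m : ℚ) 0 :=
  ⟨Nat.cast_ne_zero.2 fun h0 => h (h0 ▸ dvd_zero p), by
    rw [padicValRat.of_nat, padicValNat.eq_zero_of_not_dvd h, Nat.cast_zero]⟩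

theorem ex_NSQ {m : ℕ} (h : Ex p m) : V_NSQ p (m : ℚ) 1 := by
  have h0 : m ≠ 0 := fun h0 => h.2 (h0 ▸ dvd_zero _)
  refine ⟨Nat.cast_ne_zero.2 h0, ?_⟩
  have h1 : 1 ≤ padicValNat p m := (padicValNat_dvd_iff_le h0).1 (by simpa using h.1)
  have h2 : ¬ 2 ≤ padicValNat p m := fun h2 => h.2 ((padicValNat_dvd_iff_le h0).2 h2)
  rw [padicValRat.of_nat, show padicValNat p m = 1 by omega, Nat.cast_one]

theorem even_NSQ (h : V_NSQ p x k) {e : ℚ} (he : e = 1 ∨ e = -1) (hs : IsSquare (e * x)) :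
    k % 2 = 0 := by
  obtain ⟨r, hr⟩ := hs
  have h1 : padicValRat p (e * x) = k := by
    rcases he with rfl | rfl
    · rw [one_mul, h.2]
    · rw [neg_one_mul, padicValRat.neg, h.2]
  have h2 : r ≠ 0 := by
    rintro rfl
    rcases he with rfl | rfl <;> exact h.1 (by simpa using hr)
  rw [hr, padicValRat.mul h2 h2] at h1
  omega

theorem val_NSQ (hp : 5 ≤ p) {n : ℕ} {a b c : ℤ} (ha : V_NSQ p ((n : ℚ) - 1) a)
    (hb : V_NSQ p (n : ℚ) b) (hc : V_NSQ p ((n : ℚ) + 1) c) :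
    V_NSQ p (dY n) (if n % 2 = 1 then
        ((n - 2) / 2 : ℕ) * (b + c) - (b + 2 * c + (((n - 2) / 2 : ℕ) + 1) * a)
      else ((n - 2) / 2 : ℕ) * (b + c) - (2 * b + c + ((n - 2) / 2 : ℕ) * a)) ∧
    V_NSQ p (f1 n * fm n) (if n % 2 = 1 then b + 2 * c else 2 * b + c - a) := by
  have h2 : V_NSQ p 2 0 := unit_NSQ (m := 2) fun h => by have := Nat.le_of_dvd two_pos h; omega
  have h3 : V_NSQ p 3 0 := unit_NSQ (m := 3) fun h => by have := Nat.le_of_dvd three_pos h; omega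
  have h4 : V_NSQ p 4 0 := by
    have := mul_NSQ h2 h2
    norm_num at this
    exact this
  have h6 : V_NSQ p 6 0 := by
    have := mul_NSQ h2 h3
    norm_num at this
    exact this
  have h12 : V_NSQ p 12 0 := by
    have := mul_NSQ h2 h6
    norm_num at this
    exact this
  have hf := div_NSQ (mul_NSQ hb hc) (mul_NSQ h6 (pow_NSQ h2 (n % 2)))
  have cg : ∀ {x : ℚ} {k l : ℤ}, V_NSQ p x k → k = l → V_NSQ p x l := fun h e => e ▸ h
  unfold dY fm
  generalize (n - 2) / 2 = d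
  split_ifs
  · refine ⟨cg (div_NSQ (mul_NSQ h12 (pow_NSQ (mul_NSQ hb (div_NSQ hc h2)) d))
      (mul_NSQ (mul_NSQ hb (pow_NSQ (div_NSQ hc h2) 2)) (pow_NSQ (div_NSQ ha h2) (d + 1)))) ?_,
      cg (mul_NSQ hf (div_NSQ hc h4)) ?_⟩
    · push_cast
      ring
    · ring
  · refine ⟨cg (div_NSQ (mul_NSQ h12 (pow_NSQ (mul_NSQ hb hc) d))
      (mul_NSQ (mul_NSQ (pow_NSQ hb 2) hc) (pow_NSQ ha d))) ?_,
      cg (mul_NSQ hf (div_NSQ hb (mul_NSQ h2 ha))) ?_⟩
    · push_cast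
      ring
    · ring

end

theorem nd_NSQ {p m k : ℕ} (hp : 5 ≤ p) (h : p ∣ m) (hk : k = 1 ∨ k = 2) : ¬ p ∣ m + k :=
  fun h1 => by
    have := Nat.le_of_dvd (by omega) ((Nat.dvd_add_right h).1 h1)
    omega

theorem nd'_NSQ {p m k : ℕ} (hp : 5 ≤ p) (h : p ∣ m + k) (hk : k = 1 ∨ k = 2) : ¬ p ∣ m :=
  fun h1 => nd_NSQ hp h1 hk h

theorem NSQ_pf : NSQ_st := by
  intro n q r r' hn hq hr hr' q5 r5 r5' eq er er' e he
  obtain ⟨m, rfl⟩ : ∃ m, n = m + 1 := ⟨n - 1, by omega⟩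
  have := Fact.mk hq
  have := Fact.mk hr
  have := Fact.mk hr'
  have c1 : ((m + 1 : ℕ) : ℚ) - 1 = (m : ℕ) := by simp
  have c2 : ((m + 1 : ℕ) : ℚ) + 1 = (m + 2 : ℕ) := by
    push_cast
    ring
  have eq' : Ex q m := eq
  have er'' : Ex r' (m + 2) := er'
  obtain ⟨a1, a2⟩ := val_NSQ q5 (n := m + 1) (c1 ▸ ex_NSQ eq')
    (unit_NSQ (nd_NSQ q5 eq'.1 (.inl rfl))) (c2 ▸ unit_NSQ (nd_NSQ q5 eq'.1 (.inr rfl)))
  obtain ⟨b1, b2⟩ := val_NSQ r5 (n := m + 1) (c1 ▸ unit_NSQ (nd'_NSQ r5 er.1 (.inl rfl)))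
    (ex_NSQ er) (c2 ▸ unit_NSQ (nd_NSQ r5 er.1 (.inl rfl)))
  obtain ⟨d1, d2⟩ := val_NSQ r5' (n := m + 1) (c1 ▸ unit_NSQ (nd'_NSQ r5' er''.1 (.inr rfl)))
    (unit_NSQ (nd'_NSQ r5' er'.1 (.inl rfl))) (c2 ▸ ex_NSQ er'')
  refine ⟨fun h => ?_, fun h => ?_, fun h => ?_⟩
  · have h1 := even_NSQ a1 he h
    have h2 := even_NSQ b1 he h
    have h3 := even_NSQ d1 he h
    split_ifs at h1 h2 h3 <;> omega
  · have h1 := even_NSQ a2 he h
    have h2 := even_NSQ b2 he h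
    split_ifs at h1 h2 <;> omega
  · have h1 := even_NSQ (mul_NSQ a1 a2) he h
    have h2 := even_NSQ (mul_NSQ b1 b2) he h
    have h3 := even_NSQ (mul_NSQ d1 d2) he h
    split_ifs at h1 h2 h3 <;> omega

end Pool.Agent.MP_9c0351_nt.Gal

end

section

set_option autoImplicit false

open Polynomial Filter
open scoped NNReal

namespace Pool.Agent.MP_9c0351_nt.Gal

theorem sq_DLT {K : Type} [Field K] {m : ℕ} (v : Fin m → K) :
    ∃ N : ℕ, ∏ i, ∏ j ∈ ({i}ᶜ : Finset (Fin m)), (v i - v j) =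
      (-1) ^ N * (Matrix.vandermonde v).det ^ 2 := by
  refine ⟨∑ i : Fin m, (Finset.Ioi i).card, ?_⟩
  rw [← Finset.prod_prod_Ioi_mul_eq_prod_prod_off_diag (fun j i => v i - v j),
    Matrix.det_vandermonde, ← Finset.prod_pow_eq_pow_sum, ← Finset.prod_pow,
    ← Finset.prod_mul_distrib]
  refine Finset.prod_congr rfl fun i _ => ?_
  rw [← Finset.prod_pow, ← Finset.prod_const, ← Finset.prod_mul_distrib]
  exact Finset.prod_congr rfl fun j _ => by ring

theorem prod_DLT {K : Type} [Field K] [DecidableEq K] {m : ℕ} (v : Fin m → K)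
    (hv : Function.Injective v) (F : Finset K) (hF : ∀ x, x ∈ F ↔ ∃ i, v i = x) :
    ∏ x ∈ F, ∏ x' ∈ F.erase x, (x - x') =
      ∏ i, ∏ j ∈ ({i}ᶜ : Finset (Fin m)), (v i - v j) := by
  symm
  refine Finset.prod_bij (fun i _ => v i) (fun i _ => (hF _).2 ⟨i, rfl⟩)
    (fun i _ j _ h => hv h) (fun x hx => ?_) fun i _ => ?_
  · obtain ⟨i, hi⟩ := (hF x).1 hx
    exact ⟨i, Finset.mem_univ _, hi⟩
  · refine Finset.prod_bij (fun j _ => v j) (fun j hj => ?_) (fun j _ l _ h => hv h)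
      (fun x hx => ?_) fun _ _ => rfl
    · rw [Finset.mem_compl, Finset.mem_singleton] at hj
      exact Finset.mem_erase.2 ⟨fun h => hj (hv h), (hF _).2 ⟨j, rfl⟩⟩
    · obtain ⟨h1, h2⟩ := Finset.mem_erase.1 hx
      obtain ⟨j, hj⟩ := (hF x).1 h2
      refine ⟨j, ?_, hj⟩
      rw [Finset.mem_compl, Finset.mem_singleton]
      rintro rfl
      exact h1 hj.symm

theorem DLT_pf : DLT_st := by
  intro K _ _ _ T _ _ F hF
  let e : Fin (Fintype.card T) ≃ T := (Fintype.equivFin T).symm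
  let v : Fin (Fintype.card T) → K := fun i => (e i : K)
  have hv : Function.Injective v := Subtype.val_injective.comp e.injective
  have hF' : ∀ x, x ∈ F ↔ ∃ i, v i = x := fun x => by
    rw [← hF]
    refine ⟨fun hx => ⟨e.symm ⟨x, hx⟩, ?_⟩, ?_⟩
    · simp only [v, Equiv.apply_symm_apply]
    · rintro ⟨i, rfl⟩
      exact (e i).2
  refine ⟨(Matrix.vandermonde v).det, fun g => ?_, ?_⟩
  · let π : Equiv.Perm (Fin (Fintype.card T)) :=
      e.symm.permCongr (MulAction.toPerm g : Equiv.Perm T)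
    have h1 : ∀ i, g (v i) = v (π i) := fun i => by
      simp only [v, π, Equiv.permCongr_apply, Equiv.symm_symm, Equiv.apply_symm_apply,
        MulAction.toPerm_apply]
      rfl
    have h2 : (g : K →+* K).mapMatrix (Matrix.vandermonde v) =
        (Matrix.vandermonde v).submatrix π id := by
      ext i j
      simp only [RingHom.mapMatrix_apply, Matrix.map_apply, Matrix.vandermonde_apply,
        Matrix.submatrix_apply, id, map_pow]
      rw [← h1]; rfl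
    have h3 : g (Matrix.vandermonde v).det =
        ((g : K →+* K).mapMatrix (Matrix.vandermonde v)).det := RingHom.map_det (g : K →+* K) _
    rw [h3, h2, Matrix.det_permute, Equiv.Perm.sign_permCongr]
  · obtain ⟨N, hN⟩ := sq_DLT v
    rw [prod_DLT v hv F hF', hN]
    rcases neg_one_pow_eq_or K N with h | h
    · left; rw [h, one_mul]
    · right; rw [h]; ring

end Pool.Agent.MP_9c0351_nt.Gal

end

section

set_option autoImplicit false

open Polynomial Filter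
open scoped NNReal

namespace Pool.Agent.MP_9c0351_nt.Gal

theorem pow_TAY {K : Type} [Field K] (m M : ℕ) (h : m ≤ M) (h1 : 1 ≤ M) (x δ : K) :
    (x + δ) ^ m = x ^ m + m * x ^ (m - 1) * δ +
      ∑ i ∈ Finset.Icc 2 M, (m.choose i : K) * x ^ (m - i) * δ ^ i := by
  have e : (x + δ) ^ m = ∑ i ∈ Finset.range (M + 1), (m.choose i : K) * x ^ (m - i) * δ ^ i := by
    rw [add_comm x, add_pow]
    refine (Finset.sum_congr rfl fun i _ => by ring).trans
      (Finset.sum_subset (Finset.range_mono (by omega)) fun i _ hi => ?_)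
    rw [Nat.choose_eq_zero_of_lt (by simpa using hi)]
    simp
  rw [e, Finset.range_eq_Ico, Finset.sum_eq_sum_Ico_succ_bot (by omega),
    Finset.sum_eq_sum_Ico_succ_bot (by omega), ← Finset.Ico_add_one_right_eq_Icc]
  simp [add_assoc]

theorem TAY_pf : TAY_st := by
  intro K _ n x δ hn
  simp only [Sv, Sd, sub_mul, mul_assoc, Finset.sum_sub_distrib, ← Finset.mul_sum]
  rw [pow_TAY (n + 1) (n + 1) le_rfl (by omega), pow_TAY n (n + 1) (by omega) (by omega)]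
  simp only [mul_assoc, Nat.add_sub_cancel, Nat.cast_add, Nat.cast_one]
  ring

end Pool.Agent.MP_9c0351_nt.Gal

end

section

/-! The wildly ramified roots. -/

set_option autoImplicit false

open Polynomial Filter
open scoped NNReal

namespace Pool.Agent.MP_9c0351_nt.Gal

section

variable {K : Type} [Field K] {v : Valuation K ℝ≥0} {q : ℕ}

theorem int_WLD (v : Valuation K ℝ≥0) (m : ℤ) : v (m : K) ≤ 1 := intCast_mem v.integer m

theorem one_WLD (hq : q.Prime) (h : v (q : K) < 1) {m : ℕ} (hm : ¬ q ∣ m) : v (m : K) = 1 := by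
  refine le_antisymm (natCast_mem v.integer m) (not_lt.1 fun hlt => ?_)
  obtain ⟨a, b, e⟩ := Nat.isCoprime_iff_coprime.2 ((Nat.Prime.coprime_iff_not_dvd hq).2 hm)
  have e' : (a : K) * q + b * m = 1 := by exact_mod_cast congrArg (Int.cast : ℤ → K) e
  have h1 : v ((a : K) * q + b * m) < 1 := by
    refine v.map_add_lt ?_ ?_ <;> rw [map_mul]
    · exact (mul_le_of_le_one_left zero_le (int_WLD v a)).trans_lt h
    · exact (mul_le_of_le_one_left zero_le (int_WLD v b)).trans_lt hlt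
  rw [e', map_one] at h1
  exact lt_irrefl _ h1

theorem ex_WLD (hq : q.Prime) (h : v (q : K) < 1) {m : ℕ} (hm : Ex q m) :
    v (m : K) = v (q : K) := by
  obtain ⟨⟨k, rfl⟩, h2⟩ := hm
  rw [Nat.cast_mul, map_mul, one_WLD hq h (m := k) fun hk => h2 ?_, mul_one]
  rw [sq]
  exact Nat.mul_dvd_mul_left q hk

theorem root_WLD [CharZero K] (hq : q.Prime) (h : v (q : K) < 1) {Z : K} (hZ : v Z = 1)
    (hv : v (Z ^ q - 1) = v (q : K)) : v (Z - 1) ^ q = v (q : K) := by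
  have h1 : v (Z - 1) ≤ 1 := v.map_sub_le hZ.le (map_one v).le
  obtain ⟨r, hr⟩ := exists_add_pow_prime_eq hq (⟨Z - 1, h1⟩ : v.integer) 1
  have e : (Z - 1 + 1) ^ q = (Z - 1) ^ q + 1 ^ q + q * (Z - 1) * 1 * r := by
    simpa using congrArg v.integer.subtype hr
  have e' : (Z - 1) ^ q = Z ^ q - 1 - q * ((Z - 1) * r) := by
    rw [sub_add_cancel, one_pow] at e
    linear_combination -e
  have hr1 : v (r : K) ≤ 1 := r.2
  have hq0 : 0 < v (q : K) := (v.pos_iff).2 (Nat.cast_ne_zero.2 hq.ne_zero)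
  have h2 : v ((Z - 1) * r) ≤ v (Z - 1) := by
    rw [map_mul]
    exact mul_le_of_le_one_right zero_le hr1
  have h3 : v (Z - 1) < 1 := by
    refine pow_lt_one_iff_of_nonneg zero_le hq.ne_zero |>.1 ?_
    rw [← map_pow, e']
    refine (v.map_sub_le hv.le ?_).trans_lt h
    rw [map_mul]
    exact mul_le_of_le_one_right zero_le (h2.trans h1)
  rw [← map_pow, e', v.map_sub_eq_of_lt_left, hv]
  rw [hv, map_mul]
  exact mul_lt_of_lt_one_right hq0 (h2.trans_lt h3)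

end

theorem WLD_pf : WLD_st := by
  intro K _ _ v n q x hn hq h5 h hS hx h1 h2
  have hv2 : v (2 : K) = 1 := by
    have := one_WLD hq h (m := 2) fun hd => by have := Nat.le_of_dvd two_pos hd; omega
    simpa using this
  have hZ : ∀ k : ℕ, v (x ^ k) = 1 := fun k => by rw [map_pow, hx, one_pow]
  refine ⟨fun hE => root_WLD hq h (hZ _) ?_, fun hE => root_WLD hq h (hZ _) ?_⟩
  · obtain ⟨m, rfl⟩ : ∃ m, n = m + 1 := ⟨n - 1, by omega⟩
    rw [Nat.add_sub_cancel] at hE ⊢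
    have ha := ex_WLD hq h hE
    rw [← pow_mul, Nat.div_mul_cancel hE.1]
    have e : (x ^ m - 1) * (x * (2 - m * (x - 1))) = m * ((x - 1) * (x + 1)) := by
      rw [Sv] at hS
      push_cast at hS
      linear_combination -hS
    have h3 : v (2 - m * (x - 1)) = 1 := by
      rw [v.map_sub_eq_of_lt_left, hv2]
      rwa [hv2, map_mul, h1, mul_one, ha]
    have h4 := congrArg v e
    rwa [map_mul, map_mul, map_mul, map_mul, hx, h3, h1, h2, ha, mul_one, mul_one, mul_one] at h4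
  · have ha := ex_WLD hq h hE
    rw [← pow_mul, Nat.div_mul_cancel hE.1]
    have e : (x ^ n - 1) * (x + 1 - n * (x - 1)) = 2 * (n * (x - 1)) := by
      rw [Sv] at hS
      linear_combination -hS
    have h3 : v (x + 1 - n * (x - 1)) = 1 := by
      rw [v.map_sub_eq_of_lt_left, h2]
      rwa [h2, map_mul, h1, mul_one, ha]
    have h4 := congrArg v e
    rwa [map_mul, map_mul, map_mul, h3, h1, hv2, ha, mul_one, mul_one, one_mul] at h4

end Pool.Agent.MP_9c0351_nt.Gal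

end

section

/-! Orbit lengths under inertia. -/

set_option autoImplicit false

open Polynomial Filter
open scoped NNReal

namespace Pool.Agent.MP_9c0351_nt.Gal

theorem ORB_pf : ORB_st := by
  intro K _ _ q v I x z N hq hL hz hN
  classical
  set H : Subgroup I := (MulAction.stabilizer (K ≃ₐ[ℚ] K) x).subgroupOf I with hH
  have hq0 : v (q : K) ≠ 0 := by
    rw [Valuation.ne_zero_iff]
    exact_mod_cast hq.ne_zero
  have hN0 : N ≠ 0 := by
    rintro rfl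
    rw [pow_zero] at hN
    exact hL.lt.ne hN.symm
  have hz0 : v z ≠ 0 := by
    intro h
    rw [h, zero_pow hN0] at hN
    exact hq0 hN.symm
  have hz1 : v z < 1 := by
    by_contra h
    have := one_le_pow₀ (n := N) (not_lt.1 h)
    rw [hN] at this
    exact absurd hL.lt (not_lt.2 this)
  let φ : I ⧸ H → K := fun c => Quotient.liftOn' c (fun σ : I => (σ : K ≃ₐ[ℚ] K) z) (by
    intro σ τ h
    rw [QuotientGroup.leftRel_apply, hH, Subgroup.mem_subgroupOf, MulAction.mem_stabilizer_iff]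
      at h
    have h1 := hz _ (σ⁻¹ * τ).2 h
    have h2 := congrArg (σ : K ≃ₐ[ℚ] K) h1
    simpa using h2.symm)
  have hφ : ∀ (σ : I) (c : I ⧸ H), (σ : K ≃ₐ[ℚ] K) (φ c) = φ (σ • c) := by
    intro σ c
    induction c using QuotientGroup.induction_on with
    | H τ => rfl
  have hv : ∀ c : I ⧸ H, v (φ c) = v z := by
    intro c
    induction c using QuotientGroup.induction_on with
    | H τ => exact hL.iso _ τ.2 z
  have := Fintype.ofFinite (I ⧸ H)
  have hw : v (∏ c, φ c) = v z ^ H.index := by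
    rw [map_prod, Finset.prod_congr rfl fun c _ => hv c, Finset.prod_const, Finset.card_univ,
      Subgroup.index, Nat.card_eq_fintype_card]
  obtain ⟨j, hj⟩ := hL.val (∏ c, φ c) (by
    rw [← v.ne_zero_iff, hw]
    exact pow_ne_zero _ hz0) (by
    intro σ hσ
    rw [map_prod, Finset.prod_congr rfl fun c _ => hφ ⟨σ, hσ⟩ c]
    exact Equiv.prod_comp (MulAction.toPerm (⟨σ, hσ⟩ : I)) φ)
  rw [hw, ← hN, ← zpow_natCast, ← zpow_natCast, ← zpow_mul] at hj
  have h3 := zpow_right_injective₀ (pos_iff_ne_zero.2 hz0) hz1.ne hj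
  exact Int.natCast_dvd_natCast.1 ⟨j, h3⟩

end Pool.Agent.MP_9c0351_nt.Gal

end

section

/-! Sylow subgroup of the inertia group: moved points, fixed small sets, and transitivity. -/

set_option autoImplicit false

open Polynomial Filter
open scoped NNReal

namespace Pool.Agent.MP_9c0351_nt.Gal

theorem orbit_sub_SYL {G Ω : Type} [Group G] [MulAction G Ω] (I H : Subgroup G) (hH : H ≤ I)
    (T : Finset Ω) (hT : ∀ g ∈ I, ∀ x ∈ T, g • x ∈ T) (x : Ω) (hx : x ∈ T) :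
    MulAction.orbit H x ⊆ (T : Set Ω) := by
  rintro _ ⟨g, rfl⟩
  exact hT g (hH g.2) x hx

theorem idx_SYL {G Ω : Type} [Group G] [MulAction G Ω] (I : Subgroup G) (x : Ω) :
    (MulAction.stabilizer G x).relIndex I = (MulAction.orbit I x).ncard := by
  rw [← MulAction.index_stabilizer]
  rfl

theorem SYL_pf : SYL_st := by
  intro G Ω _ _ _ I q hq
  have hF : Fact q.Prime := ⟨hq⟩
  refine ⟨?_, ?_⟩
  · obtain ⟨S⟩ : Nonempty (Sylow q I) := inferInstance
    have hP : IsPGroup q ((S : Subgroup I).map I.subtype) := S.isPGroup'.map I.subtype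
    have hle : (S : Subgroup I).map I.subtype ≤ I := Subgroup.map_subtype_le _
    refine ⟨(S : Subgroup I).map I.subtype, hP, fun x hx => ?_, fun T hT hI g hg x hx => ?_⟩
    · by_contra h
      have h' : ∀ g ∈ (S : Subgroup I).map I.subtype, g • x = x := by
        intro g hg
        by_contra hne
        exact h ⟨g, hg, hne⟩
      have hsub : (S : Subgroup I) ≤ (MulAction.stabilizer G x).subgroupOf I := by
        intro g hg
        exact h' g ⟨g, hg, rfl⟩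
      exact S.not_dvd_index (hx.trans (Subgroup.index_dvd_of_le hsub))
    · have hsub := orbit_sub_SYL I _ hle T hI x hx
      have hfin : (MulAction.orbit ((S : Subgroup I).map I.subtype) x).Finite :=
        T.finite_toSet.subset hsub
      have hfin' : Finite (MulAction.orbit ((S : Subgroup I).map I.subtype) x) := hfin
      obtain ⟨n, hn⟩ := hP.card_orbit x
      have hc : (MulAction.orbit ((S : Subgroup I).map I.subtype) x).ncard ≤ T.card := by
        have := Set.ncard_le_ncard hsub T.finite_toSet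
        rwa [Set.ncard_coe_finset] at this
      have hn' : (MulAction.orbit ((S : Subgroup I).map I.subtype) x).ncard = q ^ n := hn
      have h0 : n = 0 := by
        by_contra h0
        have : q ≤ q ^ n := Nat.le_self_pow h0 q
        omega
      rw [h0, pow_zero] at hn'
      have h1 := (Set.ncard_le_one_iff hfin).mp hn'.le
        (MulAction.mem_orbit x (⟨g, hg⟩ : (S : Subgroup I).map I.subtype))
        (MulAction.mem_orbit_self x)
      exact h1
  · intro T hI x hx hd x' hx'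
    have hsub := orbit_sub_SYL I I le_rfl T hI x hx
    have hfin : (MulAction.orbit I x).Finite := T.finite_toSet.subset hsub
    rw [idx_SYL] at hd
    have hpos : 0 < (MulAction.orbit I x).ncard :=
      (Set.ncard_pos hfin).mpr ⟨x, MulAction.mem_orbit_self x⟩
    have hle : (T : Set Ω).ncard ≤ (MulAction.orbit I x).ncard := by
      rw [Set.ncard_coe_finset]
      exact Nat.le_of_dvd hpos hd
    have heq := Set.eq_of_subset_of_ncard_le hsub hle T.finite_toSet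
    have hmem : x' ∈ MulAction.orbit I x := by
      rw [heq]
      exact hx'
    obtain ⟨g, hg⟩ := hmem
    exact ⟨g, g.2, hg⟩

end Pool.Agent.MP_9c0351_nt.Gal

end

section

set_option autoImplicit false

open Polynomial Filter
open scoped NNReal

namespace Pool.Agent.MP_9c0351_nt.Gal

theorem mul_lt_AFF {K : Type} [Field K] (v : Valuation K ℝ≥0) {a b : K} (ha : v a < 1)
    (hb : v b ≤ 1) : v (a * b) < 1 := by
  rw [map_mul]
  exact (mul_le_of_le_one_right zero_le hb).trans_lt ha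

theorem geo_le_AFF {K : Type} [Field K] (v : Valuation K ℝ≥0) {θ : K} (h : v θ = 1) (l : ℕ) :
    v (∑ i ∈ Finset.range l, θ ^ i) ≤ 1 :=
  v.map_sum_le fun i _ => by rw [map_pow, h, one_pow]

theorem geo_lt_AFF {K : Type} [Field K] (v : Valuation K ℝ≥0) {θ : K} (h : v θ = 1) {N : ℕ}
    (hN : v (θ ^ N - 1) < 1) (i : ℕ) :
    v (∑ l ∈ Finset.range (i * N), θ ^ l - (i : K) * ∑ l ∈ Finset.range N, θ ^ l) < 1 := by
  induction i with
  | zero => simp
  | succ i ih =>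
    have e : ∑ l ∈ Finset.range ((i + 1) * N), θ ^ l -
        ((i + 1 : ℕ) : K) * ∑ l ∈ Finset.range N, θ ^ l =
        (θ ^ N - 1) * ∑ l ∈ Finset.range (i * N), θ ^ l +
        (∑ l ∈ Finset.range (i * N), θ ^ l - (i : K) * ∑ l ∈ Finset.range N, θ ^ l) := by
      rw [show (i + 1) * N = N + i * N by ring, Finset.sum_range_add]
      simp only [pow_add, ← Finset.mul_sum]
      push_cast
      ring
    rw [e]
    exact v.map_add_lt (mul_lt_AFF v hN (geo_le_AFF v h _)) ih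

theorem AFF_pf : AFF_st := by
  intro K _ _ q N v I T hq hN L hT hd g hg x hx
  by_cases h0 : g x = x
  · generalize q * N = M
    induction M with
    | zero => simp
    | succ M ih => rw [pow_succ, AlgEquiv.mul_apply, h0, ih]
  by_contra hne
  have hq0 : (q : K) ≠ 0 := Nat.cast_ne_zero.2 hq.ne_zero
  have hvq : v (q : K) ≠ 0 := (map_ne_zero v).2 hq0
  obtain ⟨w, hw⟩ : ∃ w, w = g x - x := ⟨_, rfl⟩
  have hw0 : w ≠ 0 := hw ▸ sub_ne_zero.2 h0
  have hvw : v w ≠ 0 := (map_ne_zero v).2 hw0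
  have hwN : v w ^ N = v (q : K) := hw ▸ hd _ (hT g hg x hx) x hx h0
  obtain ⟨θ, hθ⟩ : ∃ θ, θ = g w / w := ⟨_, rfl⟩
  have hgw : g w = θ * w := by rw [hθ, div_mul_cancel₀ _ hw0]
  have hvθ : v θ = 1 := by rw [hθ, map_div₀, L.iso g hg, div_self hvw]
  have hθN : v (θ ^ N - 1) < 1 := by
    have hu : v (w ^ N / q) = 1 := by rw [map_div₀, map_pow, hwN, div_self hvq]
    have h1 := L.res g hg _ hu.le
    have e : g (w ^ N / q) - w ^ N / q = (θ ^ N - 1) * (w ^ N / q) := by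
      rw [map_div₀, map_pow, map_natCast, hgw, mul_pow]
      ring
    rwa [e, map_mul, hu, mul_one] at h1
  have ha : ∀ l : ℕ, v (((g ^ l) x - x) / w - ∑ i ∈ Finset.range l, θ ^ i) < 1 := by
    intro l
    induction l with
    | zero => simp
    | succ l ih =>
      have hle : v (((g ^ l) x - x) / w) ≤ 1 := by
        have := v.map_add_le ih.le (geo_le_AFF v hvθ l)
        rwa [sub_add_cancel] at this
      have hθ0 : θ ≠ 0 := fun h => by rw [h, map_zero] at hvθ; exact zero_ne_one hvθ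
      have e : ((g ^ (l + 1)) x - x) / w - ∑ i ∈ Finset.range (l + 1), θ ^ i =
          (g (((g ^ l) x - x) / w) - ((g ^ l) x - x) / w) * θ +
          (((g ^ l) x - x) / w - ∑ i ∈ Finset.range l, θ ^ i) * θ := by
        have e1 : g x = w + x := by rw [hw]; ring
        rw [pow_succ', AlgEquiv.mul_apply, map_div₀, map_sub, hgw, geom_sum_succ, e1]
        field_simp
        ring
      rw [e]
      exact v.map_add_lt (mul_lt_AFF v (L.res g hg _ hle) hvθ.le) (mul_lt_AFF v ih hvθ.le)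
  have h1 : v (((g ^ (q * N)) x - x) / w) < 1 := by
    have := v.map_add_lt (v.map_add_lt (ha (q * N)) (geo_lt_AFF v hvθ hθN q))
      (mul_lt_AFF v L.lt (geo_le_AFF v hvθ N))
    rwa [sub_add_sub_cancel, sub_add_cancel] at this
  have h2 := hd _ (hT _ (I.pow_mem hg (q * N)) x hx) x hx hne
  rw [← hwN] at h2
  rw [map_div₀, (pow_left_inj₀ zero_le zero_le hN.ne').1 h2, div_self hvw] at h1
  exact lt_irrefl _ h1

end Pool.Agent.MP_9c0351_nt.Gal

end

section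

set_option autoImplicit false

open Polynomial Filter
open scoped NNReal

namespace Pool.Agent.MP_9c0351_nt.Gal

theorem res_MUL {K : Type} [Field K] (v : Valuation K ℝ≥0) (x y : v.valuationSubring) :
    IsLocalRing.residue v.valuationSubring x = IsLocalRing.residue v.valuationSubring y ↔
      v ((x : K) - y) < 1 := by
  rw [← sub_eq_zero, ← map_sub, IsLocalRing.residue_eq_zero_iff, Valuation.mem_maximalIdeal_iff]
  rfl

theorem hom_MUL {K : Type} [Field K] [CharZero K] {q : ℕ} {v : Valuation K ℝ≥0}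
    {I : Subgroup (K ≃ₐ[ℚ] K)} (h : Loc q v I) {a : K} (ha : a ≠ 0) :
    ∃ θ : I →* IsLocalRing.ResidueField v.valuationSubring,
      ∀ g : I, θ g = 1 ↔ v (g.1 a - a) < v a := by
  have va : v a ≠ 0 := (Valuation.ne_zero_iff v).2 ha
  have h1 : ∀ g : I, v (g.1 a / a) = 1 := fun g => by
    rw [map_div₀, h.iso g.1 g.2, div_self va]
  have h2 : ∀ g : I, g.1 a / a ∈ v.valuationSubring := fun g => (h1 g).le
  refine ⟨⟨⟨fun g => IsLocalRing.residue v.valuationSubring ⟨g.1 a / a, h2 g⟩, ?_⟩, ?_⟩, ?_⟩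
  · rw [← map_one (IsLocalRing.residue v.valuationSubring), res_MUL]
    simp [div_self ha]
  · intro g g'
    simp only
    rw [← map_mul, res_MUL]
    have e : ((g * g' : I).1 a / a : K) - g.1 a / a * (g'.1 a / a) =
        (g.1 (g'.1 a / a) - g'.1 a / a) * (g.1 a / a) := by
      have : g.1 a ≠ 0 := by simpa using ha
      rw [map_div₀, Subgroup.coe_mul, AlgEquiv.mul_apply]
      field_simp
    refine lt_of_eq_of_lt (congrArg v e) ?_
    rw [map_mul, h1, mul_one]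
    exact h.res g.1 g.2 _ (h1 g').le
  · intro g
    simp only [MonoidHom.coe_mk, OneHom.coe_mk]
    rw [← map_one (IsLocalRing.residue v.valuationSubring), res_MUL]
    have e : (g.1 a / a : K) - 1 = (g.1 a - a) / a := by field_simp
    refine Iff.trans (Iff.of_eq (congrArg (fun z => v z < 1) e)) ?_
    rw [map_div₀, div_lt_one₀ (zero_lt_iff.2 va)]

theorem MUL_pf : MUL_st := by
  intro K _ _ q v I T hL h1 hT hv htr
  rcases T.eq_empty_or_nonempty with rfl | ⟨x1, hx1⟩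
  · exact ⟨1, I.one_mem, by simp⟩
  have ha : x1 - 1 ≠ 0 := sub_ne_zero.2 fun e => h1 (e ▸ hx1)
  obtain ⟨θ0, hθ0⟩ := hom_MUL hL ha
  let θ := θ0.toHomUnits
  have k1 : ∀ g : I, θ g = 1 ↔ g.1 x1 = x1 := fun g => by
    have e : θ g = 1 ↔ θ0 g = 1 := by rw [Units.ext_iff]; rfl
    have e2 : g.1 (x1 - 1) - (x1 - 1) = g.1 x1 - x1 := by rw [map_sub, map_one]; ring
    rw [e, hθ0, e2]
    constructor
    · intro hlt
      by_contra hne
      have := hv x1 hx1 _ (hT g.1 g.2 x1 hx1) (Ne.symm hne)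
      rw [Valuation.map_sub_swap, this] at hlt
      exact lt_irrefl _ hlt
    · intro e3
      rw [e3, sub_self, map_zero]
      exact zero_lt_iff.2 ((Valuation.ne_zero_iff v).2 ha)
  have k2 : ∀ g : I, ∀ x ∈ T, θ g = 1 ↔ g.1 x = x := fun g x hx => by
    obtain ⟨u, hu, rfl⟩ := htr x1 hx1 x hx
    have e : θ ((⟨u, hu⟩ : I)⁻¹ * g * ⟨u, hu⟩) = θ g := by
      rw [map_mul, map_mul, map_inv, mul_comm, ← mul_assoc, mul_inv_cancel, one_mul]
    rw [← e, k1]
    show u.symm (g.1 (u x1)) = x1 ↔ _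
    rw [AlgEquiv.symm_apply_eq]
  have k3 : Nat.card θ.range = T.card := by
    have e : θ.ker = MulAction.stabilizer I x1 := by
      ext g
      rw [MonoidHom.mem_ker, k1, MulAction.mem_stabilizer_iff]
      rfl
    have e2 : MulAction.orbit I x1 = (T : Set K) := by
      ext x
      constructor
      · rintro ⟨g, rfl⟩
        exact hT g.1 g.2 x1 hx1
      · intro hx
        obtain ⟨u, hu, rfl⟩ := htr x1 hx1 x hx
        exact ⟨⟨u, hu⟩, rfl⟩
    rw [← Subgroup.index_ker, e, MulAction.index_stabilizer, e2, Set.ncard_coe_finset]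
  have : Finite θ.range := Finite.of_surjective _ θ.rangeRestrict_surjective
  obtain ⟨ζ, hζ⟩ := IsCyclic.exists_ofOrder_eq_natCard (α := θ.range)
  obtain ⟨τ, hτ⟩ := ζ.2
  refine ⟨τ.1, τ.2, fun x hx j => ?_⟩
  rw [← Subgroup.coe_pow, ← k2 _ x hx, map_pow, hτ, ← k3, ← hζ, orderOf_dvd_iff_pow_eq_one,
    Subtype.ext_iff]
  rfl

end Pool.Agent.MP_9c0351_nt.Gal

end

section

/-! The inertia group and its wild part acting on the roots. -/

set_option autoImplicit false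

open Polynomial Filter
open scoped NNReal

namespace Pool.Agent.MP_9c0351_nt.Gal

theorem nat_LO1 {K : Type} [Field K] (v : Valuation K ℝ≥0) (m : ℕ) : v (m : K) ≤ 1 := by
  induction m with
  | zero => simp
  | succ m ih =>
    rw [Nat.cast_succ]
    exact v.map_add_le ih v.map_one.le

theorem two_LO1 {K : Type} [Field K] (v : Valuation K ℝ≥0) {q : ℕ} (hq : q.Prime) (h5 : 5 ≤ q)
    (h : v (q : K) < 1) : ¬ v (2 : K) < 1 := by
  intro h2
  obtain ⟨k, hk⟩ := hq.odd_of_ne_two (by omega)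
  have h3 : v ((2 : K) * k) < 1 := by
    rw [map_mul]
    exact mul_lt_one_of_nonneg_of_lt_one_left zero_le h2 (nat_LO1 v k)
  have h4 := v.map_sub_lt h h3
  have e : (q : K) - 2 * k = 1 := by
    rw [hk]
    push_cast
    ring
  rw [e, map_one] at h4
  exact lt_irrefl _ h4

theorem unit_LO1 {K : Type} [Field K] (v : Valuation K ℝ≥0) {x e : K} (he : v e = 1)
    (h : v (x + e) < 1) : v x = 1 := by
  have h1 : v (x + e) < v (-e) := by rwa [v.map_neg, he]
  have h2 := v.map_add_eq_of_lt_right h1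
  rwa [add_neg_cancel_right, v.map_neg, he] at h2

theorem LO1_pf (hORB : ORB_st) (hSYL : SYL_st) : LO1_st := by
  intro K _ _ _ n q R v I x0 _ hq h5 hA hL hG
  obtain ⟨⟨P, hP, hP1, hP2⟩, hT⟩ := hSYL (K ≃ₐ[ℚ] K) K I q hq
  have hR : ∀ (g : K ≃ₐ[ℚ] K), ∀ x ∈ R, g x ∈ R := fun g x hx =>
    (hA.mem _).2 ((RS n K).smul_mem g ((hA.mem x).1 hx))
  have h0 : x0 ≠ 0 := hA.ne0 _ hG.x0R
  have hm : v (-1 : K) = 1 := by rw [v.map_neg, map_one]
  have hI0 : ∀ g ∈ I, g x0 = x0 := fun g hg => by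
    have h1 : v (g x0) < 1 := (hL.iso g hg x0).trans_lt hG.x0v
    by_contra h2
    by_cases h3 : g x0 = x0⁻¹
    · rw [h3, map_inv₀] at h1
      have h4 := one_lt_inv₀ (zero_lt_iff.2 ((map_ne_zero v).2 h0)) |>.2 hG.x0v
      exact lt_asymm h1 h4
    · exact h1.ne (hG.unit _ (hR g _ hG.x0R) h2 h3)
  have hIA : ∀ g ∈ I, ∀ x ∈ R.filter fun x => v (x - 1) < 1,
      g • x ∈ R.filter fun x => v (x - 1) < 1 := fun g hg x hx => by
    rw [Finset.mem_filter] at hx ⊢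
    refine ⟨hR g x hx.1, ?_⟩
    have := hL.iso g hg (x - 1)
    rw [map_sub, map_one] at this
    exact this.trans_lt hx.2
  have hIB : ∀ g ∈ I, ∀ x ∈ R.filter fun x => v (x + 1) < 1,
      g • x ∈ R.filter fun x => v (x + 1) < 1 := fun g hg x hx => by
    rw [Finset.mem_filter] at hx ⊢
    refine ⟨hR g x hx.1, ?_⟩
    have := hL.iso g hg (x + 1)
    rw [map_add, map_one] at this
    exact this.trans_lt hx.2
  have hP0 : ∀ g ∈ P, g x0 = x0 := fun g hg =>
    hP2 {x0} (by rw [Finset.card_singleton]; omega)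
      (fun g hg x hx => by
        rw [Finset.mem_singleton] at hx ⊢
        rw [hx]
        exact hI0 g hg) g hg x0 (Finset.mem_singleton_self _)
  refine ⟨P, hP, hG.x0R, Finset.filter_subset _ _, Finset.filter_subset _ _, hG.cA, hG.cB,
    fun x hx => ?_, fun x hx => ?_, fun h => ?_, fun h => ?_, ?_, fun x hx => ⟨fun h => ?_, ?_⟩,
    hI0, fun a ha => hT _ hIA a ha ?_, fun a ha => hT _ hIB a ha ?_⟩
  · rw [Finset.mem_filter] at hx ⊢
    refine ⟨hA.inv x hx.1, ?_⟩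
    have h1 : v x = 1 := unit_LO1 v hm (by rw [← sub_eq_add_neg]; exact hx.2)
    have e : x⁻¹ - 1 = -((x - 1) * x⁻¹) := by
      have := hA.ne0 x hx.1
      field_simp
      ring
    rw [e, v.map_neg, map_mul, map_inv₀, h1, inv_one, mul_one]
    exact hx.2
  · rw [Finset.mem_filter] at hx ⊢
    refine ⟨hA.inv x hx.1, ?_⟩
    have h1 : v x = 1 := unit_LO1 v (map_one v) hx.2
    have e : x⁻¹ + 1 = (x + 1) * x⁻¹ := by
      have := hA.ne0 x hx.1
      field_simp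
      ring
    rw [e, map_mul, map_inv₀, h1, inv_one, mul_one]
    exact hx.2
  · exact hG.x0v.ne (unit_LO1 v hm (by rw [← sub_eq_add_neg]; exact (Finset.mem_filter.1 h).2))
  · exact hG.x0v.ne (unit_LO1 v (map_one v) (Finset.mem_filter.1 h).2)
  · refine Finset.disjoint_left.2 fun x h1 h2 => two_LO1 v hq h5 hL.lt ?_
    have := v.map_sub_lt (Finset.mem_filter.1 h2).2 (Finset.mem_filter.1 h1).2
    rwa [show x + 1 - (x - 1) = (2 : K) by ring] at this
  · by_contra hc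
    simp only [not_or, Finset.mem_filter, not_and, not_lt] at hc
    obtain ⟨h1, h2, h3, h4⟩ := hc
    have h6 := hG.unit x hx h1 h2
    have h7 : v (x - 1) = 1 := le_antisymm (v.map_sub_le h6.le v.map_one.le) (h3 hx)
    have h8 : v (x + 1) = 1 := le_antisymm (v.map_add_le h6.le v.map_one.le) (h4 hx)
    obtain ⟨g, hg, hgx⟩ := hP1 x (hORB K q v I x _ q hq hL
      (fun σ _ hσ => by rw [map_sub, map_pow, map_one, hσ]) (hG.vW x hx h6 h7 h8))
    exact hgx (h g hg)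
  · rintro (rfl | rfl | h | h) g hg
    · exact hP0 g hg
    · rw [map_inv₀, hP0 g hg]
    · exact hP2 _ (by rw [hG.cA]; omega) hIA g hg x h
    · refine hP2 _ ?_ hIB g hg x h
      rw [hG.cB]
      rcases Nat.mod_two_eq_zero_or_one n with e | e <;> rw [e] <;> omega
  · rw [hG.cA]
    rw [Finset.mem_filter] at ha
    exact hORB K q v I a (a - 1) _ hq hL (fun σ _ hσ => by rw [map_sub, map_one, hσ])
      (hG.vA a ha.1 ha.2)
  · have hc := hG.cB
    rcases Nat.mod_two_eq_zero_or_one n with e | e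
    · rw [e, mul_zero, Finset.card_eq_zero] at hc
      rw [hc] at ha
      exact absurd ha (Finset.notMem_empty _)
    · rw [hc, e, mul_one]
      rw [Finset.mem_filter] at ha
      exact hORB K q v I a (a + 1) _ hq hL (fun σ _ hσ => by rw [map_add, map_one, hσ])
        (hG.vB a ha.1 ha.2)

end Pool.Agent.MP_9c0351_nt.Gal

end

section

set_option autoImplicit false

open Polynomial Filter
open scoped NNReal

namespace Pool.Agent.MP_9c0351_nt.Gal

theorem three_JOR {Y : Type} [Fintype Y] [DecidableEq Y] (σ τ : Equiv.Perm Y) (a : Y)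
    (h1 : σ a ≠ a) (h2 : τ a ≠ a) (h3 : ∀ y, σ y ≠ y → τ y ≠ y → y = a) :
    (σ * τ * σ⁻¹ * τ⁻¹).IsThreeCycle := by
  have h4 : τ (σ a) = σ a := by
    by_contra h
    exact h1 (h3 (σ a) (fun e => h1 (σ.injective e)) h)
  have h5 : σ a ≠ τ a := fun e => h1 (τ.injective (by rw [h4]; exact e))
  have hd : Equiv.Perm.Disjoint (Equiv.swap (σ a) a * σ) τ := fun y => by
    by_cases hy : τ y = y
    · exact Or.inr hy
    · left
      rw [Equiv.Perm.mul_apply]
      by_cases hya : y = a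
      · rw [hya, Equiv.swap_apply_left]
      · have h6 : σ y = y := by
          by_contra h
          exact hya (h3 y h hy)
        have h7 : y ≠ σ a := fun e => hy (by rw [e]; exact h4)
        rw [h6, Equiv.swap_apply_of_ne_of_ne h7 hya]
  have hc := hd.commute.eq
  have hs : Equiv.swap (σ a) a * Equiv.swap (σ a) a = 1 := Equiv.swap_mul_self _ _
  have h8 : τ * Equiv.swap (σ a) a * τ⁻¹ = Equiv.swap (σ a) (τ a) := by
    rw [← Equiv.swap_apply_apply, h4]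
  have e : σ * τ * σ⁻¹ * τ⁻¹ = Equiv.swap (σ a) a * Equiv.swap (σ a) (τ a) := by
    rw [← h8]
    generalize Equiv.swap (σ a) a = s at hc hs
    calc σ * τ * σ⁻¹ * τ⁻¹ = (s * s) * σ * τ * σ⁻¹ * τ⁻¹ := by rw [hs, one_mul]
      _ = s * (s * σ * τ) * σ⁻¹ * τ⁻¹ := by group
      _ = s * (τ * (s * σ)) * σ⁻¹ * τ⁻¹ := by rw [hc]
      _ = s * (τ * s * τ⁻¹) := by group
  rw [e]
  exact Equiv.Perm.isThreeCycle_swap_mul_swap_same h1 h5 h2.symm

theorem two_JOR (G Y : Type) [Group G] [Finite Y] [MulAction G Y] (c : G) (A : Set Y)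
    (hG : MulAction.IsPreprimitive G Y) (h2 : 2 ≤ A.ncard) (hl : A.ncard ^ 2 < Nat.card Y)
    (hc : ∀ y, c • y ≠ y ↔ y ∈ A) (ht : ∀ a ∈ A, ∀ a' ∈ A, ∃ j : ℕ, c ^ j • a = a') :
    MulAction.IsMultiplyPretransitive G Y 2 := by
  have h1 : A.ncard + Aᶜ.ncard = Nat.card Y := Set.ncard_add_ncard_compl A
  have h3 : A.ncard ≤ A.ncard ^ 2 := Nat.le_self_pow (by norm_num) _
  refine hG.is_two_pretransitive (s := Aᶜ) (n := Aᶜ.ncard - 1) (by omega) (by omega) ?_
  have hcm : c ∈ fixingSubgroup G Aᶜ := by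
    rw [mem_fixingSubgroup_iff]
    intro y hy
    by_contra h
    exact hy ((hc y).1 h)
  refine ⟨fun x y => ?_⟩
  have hx : (x : Y) ∈ A := not_not.1 ((SubMulAction.mem_ofFixingSubgroup_iff G).1 x.2)
  have hy : (y : Y) ∈ A := not_not.1 ((SubMulAction.mem_ofFixingSubgroup_iff G).1 y.2)
  obtain ⟨j, hj⟩ := ht x hx y hy
  exact ⟨⟨c ^ j, pow_mem hcm j⟩, Subtype.ext hj⟩

theorem JOR_pf (hJ1 : J1_st) : JOR_st := by
  intro G Y _ _ _ _ _ c A hG h2 hl hc ht π hπ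
  have h2t := two_JOR G Y c A hG h2 hl hc ht
  obtain ⟨a, ha⟩ : A.Nonempty := Set.nonempty_of_ncard_ne_zero (by omega)
  obtain ⟨g, hg1, hg2⟩ := hJ1 G Y A a h2t hl ha
  have hga : g⁻¹ • a = a := by rw [inv_smul_eq_iff, hg1]
  have hd : ∀ y : Y, (g * c * g⁻¹) • y ≠ y ↔ g⁻¹ • y ∈ A := fun y => by
    rw [← hc, mul_smul, mul_smul, ne_eq, ne_eq, smul_eq_iff_eq_inv_smul]
  have h3 := three_JOR (MulAction.toPermHom G Y c) (MulAction.toPermHom G Y (g * c * g⁻¹)) a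
    ((hc a).2 ha) ((hd a).2 (by rw [hga]; exact ha)) fun y hy hy' => by
      have h4 : y ∈ A := (hc y).1 hy
      have h5 : g⁻¹ • y ∈ A := (hd y).1 hy'
      have h6 := hg2 _ h5 (by rw [smul_inv_smul]; exact h4)
      rw [inv_smul_eq_iff, hg1] at h6
      exact h6
  let φ : G →* (MulAction.toPermHom G Y).range := (MulAction.toPermHom G Y).rangeRestrict
  let f : Y →ₑ[φ] Y := { toFun := id, map_smul' := fun _ _ => rfl }
  have hG' : MulAction.IsPreprimitive (MulAction.toPermHom G Y).range Y :=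
    MulAction.IsPreprimitive.of_surjective (f := f) Function.surjective_id
  have hm : MulAction.toPermHom G Y c * MulAction.toPermHom G Y (g * c * g⁻¹) *
      (MulAction.toPermHom G Y c)⁻¹ * (MulAction.toPermHom G Y (g * c * g⁻¹))⁻¹ ∈
      (MulAction.toPermHom G Y).range :=
    mul_mem (mul_mem (mul_mem ⟨_, rfl⟩ ⟨_, rfl⟩) (inv_mem ⟨_, rfl⟩)) (inv_mem ⟨_, rfl⟩)
  exact Equiv.Perm.alternatingGroup_le_of_isPreprimitive_of_isThreeCycle_mem hG' h3 hm
    (Equiv.Perm.mem_alternatingGroup.2 hπ)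

end Pool.Agent.MP_9c0351_nt.Gal

end

section

/-! All even sets of fibres are flipped. -/

set_option autoImplicit false

open Polynomial Filter
open scoped NNReal

namespace Pool.Agent.MP_9c0351_nt.Gal

section
variable {G R Y : Type} [Group G] [MulAction G R] [MulAction G Y] {ι : R → R} {t : R → Y}

/-- some element swaps exactly the fibres over the points with the property `S` -/
def F_C1 (G : Type) {R Y : Type} [Group G] [MulAction G R] (ι : R → R) (t : R → Y)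
    (S : Y → Prop) : Prop :=
  ∃ g : G, ∀ x, (S (t x) → g • x = ι x) ∧ (¬ S (t x) → g • x = x)

theorem inv_C1 (h : Cov G R Y ι t) (x : R) : ι (ι x) = x := by
  have h1 : t x = t (ι x) := (h.fib x (ι x)).2 (Or.inr rfl)
  rcases (h.fib (ι x) x).1 h1.symm with h2 | h2
  · exact (h.ne x h2.symm).elim
  · exact h2.symm

omit [MulAction G Y] in
theorem congr_C1 {S S' : Y → Prop} (h : F_C1 G ι t S) (e : ∀ y, S y ↔ S' y) : F_C1 G ι t S' := by
  obtain rfl : S = S' := funext fun y => propext (e y)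
  exact h

theorem xor_C1 (h : Cov G R Y ι t) {S S' : Y → Prop} (h1 : F_C1 G ι t S) (h2 : F_C1 G ι t S') :
    F_C1 G ι t fun y => ¬ (S y ↔ S' y) := by
  obtain ⟨g, hg⟩ := h1
  obtain ⟨g', hg'⟩ := h2
  refine ⟨g * g', fun x => ?_⟩
  rw [mul_smul]
  by_cases a : S (t x) <;> by_cases b : S' (t x)
  · rw [(hg' x).1 b, h.eι, (hg x).1 a, inv_C1 h]
    simp [a, b]
  · rw [(hg' x).2 b, (hg x).1 a]
    simp [a, b]
  · rw [(hg' x).1 b, h.eι, (hg x).2 a]
    simp [a, b]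
  · rw [(hg' x).2 b, (hg x).2 a]
    simp [a, b]

theorem conj_C1 (h : Cov G R Y ι t) {S : Y → Prop} (h1 : F_C1 G ι t S) (g : G) :
    F_C1 G ι t fun y => S (g • y) := by
  obtain ⟨c, hc⟩ := h1
  refine ⟨g⁻¹ * c * g, fun x => ?_⟩
  rw [mul_smul, mul_smul]
  refine ⟨fun a => ?_, fun a => ?_⟩
  · rw [(hc _).1 (by rw [h.et]; exact a), h.eι, inv_smul_smul]
  · rw [(hc _).2 (by rw [h.et]; exact a), inv_smul_smul]

end

theorem three_C1 {Y : Type} [Fintype Y] [DecidableEq Y] (h5 : 5 ≤ Fintype.card Y) (u v : Y)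
    (S : Y → Prop) : ∃ a b, a ≠ b ∧ a ≠ u ∧ a ≠ v ∧ b ≠ u ∧ b ≠ v ∧ (S a ↔ S b) := by
  have h1 : 2 < (Finset.univ \ {u, v}).card := by
    have := Finset.card_le_two (a := u) (b := v)
    rw [Finset.card_univ_sdiff]
    omega
  obtain ⟨a, ha, b, hb, c, hc, ab, ac, bc⟩ := Finset.two_lt_card.1 h1
  simp only [Finset.mem_sdiff, Finset.mem_univ, true_and, Finset.mem_insert, Finset.mem_singleton,
    not_or] at ha hb hc
  by_cases h2 : S a ↔ S b
  · exact ⟨a, b, ab, ha.1, ha.2, hb.1, hb.2, h2⟩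
  · by_cases h3 : S a ↔ S c
    · exact ⟨a, c, ac, ha.1, ha.2, hc.1, hc.2, h3⟩
    · exact ⟨b, c, bc, hb.1, hb.2, hc.1, hc.2, by tauto⟩

theorem two_C1 {Y : Type} [Fintype Y] [DecidableEq Y] (h5 : 5 ≤ Fintype.card Y) {u v u' v' : Y}
    (h : u ≠ v) (h' : u' ≠ v') :
    ∃ π : Equiv.Perm Y, Equiv.Perm.sign π = 1 ∧ π u = u' ∧ π v = v' := by
  obtain ⟨σ, h1, h2⟩ : ∃ σ : Equiv.Perm Y, σ u = u' ∧ σ v = v' := by
    refine ⟨Equiv.swap (Equiv.swap u u' v) v' * Equiv.swap u u', ?_, by simp⟩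
    rw [Equiv.Perm.mul_apply, Equiv.swap_apply_left, Equiv.swap_apply_of_ne_of_ne _ h']
    intro e
    exact h ((Equiv.swap u u').injective (by rw [Equiv.swap_apply_left, ← e]))
  rcases Int.units_eq_one_or (Equiv.Perm.sign σ) with s | s
  · exact ⟨σ, s, h1, h2⟩
  · obtain ⟨a, b, ab, au, av, bu, bv, -⟩ := three_C1 h5 u v fun _ => True
    refine ⟨σ * Equiv.swap a b, by simp [s, Equiv.Perm.sign_swap ab], ?_, ?_⟩
    · rw [Equiv.Perm.mul_apply, Equiv.swap_apply_of_ne_of_ne au.symm bu.symm, h1]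
    · rw [Equiv.Perm.mul_apply, Equiv.swap_apply_of_ne_of_ne av.symm bv.symm, h2]

theorem C1_pf : C1_st := by
  intro G R Y _ _ _ _ _ ι t h h5 hA ⟨c, hc, ⟨x2, hx2⟩, x1, hx1⟩ T hT
  let S : Y → Prop := fun y => ∃ x, t x = y ∧ c • x ≠ x
  have hS : ∀ x, S (t x) ↔ c • x ≠ x := fun x => by
    refine ⟨?_, fun h1 => ⟨x, rfl, h1⟩⟩
    rintro ⟨x', h1, h2⟩
    rcases (h.fib x x').1 h1.symm with rfl | rfl
    · exact h2
    · exact fun h3 => h2 (by rw [h.eι, h3])
  have h0 : F_C1 G ι t S :=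
    ⟨c, fun x => ⟨fun a => (hc x).resolve_left ((hS x).1 a), fun a => not_not.1 (mt (hS x).2 a)⟩⟩
  have s1 : S (t x1) := (hS x1).2 hx1
  have s2 : ¬ S (t x2) := fun a => (hS x2).1 a hx2
  generalize t x1 = y1 at s1
  generalize t x2 = y2 at s2
  have h12 : y1 ≠ y2 := fun e => s2 (e ▸ s1)
  have hp : F_C1 G ι t fun y => y = y1 ∨ y = y2 := by
    obtain ⟨a, b, ab, a1, a2, b1, b2, hab⟩ := three_C1 h5 y1 y2 S
    obtain ⟨g, hg⟩ := hA (Equiv.swap y1 y2 * Equiv.swap a b)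
      (by simp [Equiv.Perm.sign_swap ab, Equiv.Perm.sign_swap h12])
    have hg' : ∀ y, g • y = Equiv.swap y1 y2 (Equiv.swap a b y) := fun y =>
      congrArg (fun π : Equiv.Perm Y => π y) hg
    refine congr_C1 (xor_C1 h h0 (conj_C1 h h0 g)) fun y => ?_
    rw [hg']
    by_cases e1 : y = y1
    · rw [e1, Equiv.swap_apply_of_ne_of_ne a1.symm b1.symm, Equiv.swap_apply_left]
      simp [s1, s2]
    by_cases e2 : y = y2
    · rw [e2, Equiv.swap_apply_of_ne_of_ne a2.symm b2.symm, Equiv.swap_apply_right]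
      simp [s1, s2]
    by_cases e3 : y = a
    · rw [e3, Equiv.swap_apply_left, Equiv.swap_apply_of_ne_of_ne b1 b2]
      simp [hab, a1, a2]
    by_cases e4 : y = b
    · rw [e4, Equiv.swap_apply_right, Equiv.swap_apply_of_ne_of_ne a1 a2]
      simp [hab, b1, b2]
    · rw [Equiv.swap_apply_of_ne_of_ne e3 e4, Equiv.swap_apply_of_ne_of_ne e1 e2]
      simp [e1, e2]
  have hq : ∀ u v : Y, u ≠ v → F_C1 G ι t fun y => y = u ∨ y = v := fun u v huv => by
    obtain ⟨π, p0, p1, p2⟩ := two_C1 h5 huv h12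
    obtain ⟨g, hg⟩ := hA π p0
    have hg' : ∀ y, g • y = π y := fun y => congrArg (fun π : Equiv.Perm Y => π y) hg
    refine congr_C1 (conj_C1 h hp g) fun y => ?_
    rw [hg', ← p1, ← p2, π.injective.eq_iff, π.injective.eq_iff]
  have key : ∀ k : ℕ, ∀ T : Finset Y, T.card = 2 * k → F_C1 G ι t fun y => y ∈ T := by
    intro k
    induction k with
    | zero =>
      intro T hT
      rw [Finset.card_eq_zero.1 hT]
      exact ⟨1, fun x => by simp⟩
    | succ k ih =>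
      intro T hT
      obtain ⟨u, hu, v, hv, huv⟩ := Finset.one_lt_card.1 (show 1 < T.card by omega)
      have h1 : ((T.erase u).erase v).card = 2 * k := by
        rw [Finset.card_erase_of_mem (Finset.mem_erase.2 ⟨huv.symm, hv⟩),
          Finset.card_erase_of_mem hu]
        omega
      refine congr_C1 (xor_C1 h (ih _ h1) (hq u v huv)) fun y => ?_
      by_cases e1 : y = u
      · simp [e1, hu]
      by_cases e2 : y = v
      · simp [e2, hv]
      · simp [e1, e2]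
  obtain ⟨k, hk⟩ := hT
  obtain ⟨g, hg⟩ := key k T (by omega)
  refine ⟨g, fun x => ?_⟩
  split_ifs with a
  · exact (hg x).1 a
  · exact (hg x).2 a

end Pool.Agent.MP_9c0351_nt.Gal

end

section

/-! An odd flip. -/

set_option autoImplicit false

open Polynomial Filter
open scoped NNReal

namespace Pool.Agent.MP_9c0351_nt.Gal

theorem C2_pf : C2_st := by
  intro G R Y _ _ _ _ _ _ _ ι t hC _ hA _ h2 h3
  have m1 : ∀ g g' : G, (MulAction.toPerm (g * g') : Equiv.Perm Y) =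
      MulAction.toPerm g * MulAction.toPerm g' := fun g g' => (MulAction.toPermHom G Y).map_mul g g'
  have m2 : ∀ g g' : G, (MulAction.toPerm (g * g') : Equiv.Perm R) =
      MulAction.toPerm g * MulAction.toPerm g' := fun g g' => (MulAction.toPermHom G R).map_mul g g'
  obtain ⟨g, hg1, hg2⟩ : ∃ g : G, Equiv.Perm.sign (MulAction.toPerm g : Equiv.Perm Y) = 1 ∧
      Equiv.Perm.sign (MulAction.toPerm g : Equiv.Perm R) = -1 := by
    obtain ⟨g2, h2⟩ := h2
    obtain ⟨g3, h3⟩ := h3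
    rcases Int.units_eq_one_or (Equiv.Perm.sign (MulAction.toPerm g2 : Equiv.Perm Y)) with a | a
    · exact ⟨g2, a, h2⟩
    rcases Int.units_eq_one_or (Equiv.Perm.sign (MulAction.toPerm g3 : Equiv.Perm Y)) with b | b
    · rw [b, one_mul] at h3
      exact ⟨g3, b, h3⟩
    · rw [b, neg_one_mul, neg_inj] at h3
      exact ⟨g2 * g3, by rw [m1, map_mul, a, b]; simp, by rw [m2, map_mul, h2, h3, mul_one]⟩
  have hH : alternatingGroup Y ≤
      (Equiv.Perm.sign.comp (MulAction.toPermHom G R)).ker.map (MulAction.toPermHom G Y) := by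
    rw [← Equiv.Perm.closure_three_cycles_eq_alternating, Subgroup.closure_le]
    intro σ hσ
    obtain ⟨g', hg'⟩ := hA (σ ^ 2) (by rw [map_pow, Int.units_sq])
    refine ⟨g' ^ 2, ?_, ?_⟩
    · show (Equiv.Perm.sign.comp (MulAction.toPermHom G R)) (g' ^ 2) = 1
      rw [map_pow, Int.units_sq]
    · have h4 : σ ^ 3 = 1 := by rw [← Equiv.Perm.IsThreeCycle.orderOf hσ, pow_orderOf_eq_one]
      have h5 : MulAction.toPermHom G Y g' = σ ^ 2 := hg'
      rw [map_pow, h5, ← pow_mul, show 2 * 2 = 3 + 1 from rfl, pow_succ, h4, one_mul]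
  obtain ⟨g', hk, he⟩ := hH (Equiv.Perm.mem_alternatingGroup.mpr hg1)
  have hk' : Equiv.Perm.sign (MulAction.toPermHom G R g') = 1 := hk
  obtain ⟨c, hc1, hc2⟩ : ∃ c : G, (∀ y : Y, c • y = y) ∧
      Equiv.Perm.sign (MulAction.toPerm c : Equiv.Perm R) = -1 := by
    refine ⟨g * g'⁻¹, fun y => ?_, ?_⟩
    · have h6 : g' • (g'⁻¹ • y) = g • (g'⁻¹ • y) := congrArg (fun p : Equiv.Perm Y => p (g'⁻¹ • y)) he
      rw [mul_smul, ← h6, smul_inv_smul]
    · have h6 : (MulAction.toPerm g'⁻¹ : Equiv.Perm R) = (MulAction.toPermHom G R g')⁻¹ :=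
        (MulAction.toPermHom G R).map_inv g'
      rw [m2, map_mul, hg2, h6, map_inv, hk', inv_one, mul_one]
  have hι : ∀ x, ι (ι x) = x := fun x => by
    rcases (hC.fib (ι x) x).mp ((hC.fib x (ι x)).mpr (Or.inr rfl)).symm with h | h
    · exact absurd h.symm (hC.ne x)
    · exact h.symm
  have hx : ∀ x : R, c • x = x ∨ c • x = ι x := fun x =>
    (hC.fib x (c • x)).mp (by rw [hC.et, hc1])
  classical
  obtain ⟨T, hT⟩ : ∃ T : Finset Y, ∀ y, y ∈ T ↔ ∃ x, t x = y ∧ c • x ≠ x :=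
    ⟨Finset.univ.filter fun y => ∃ x, t x = y ∧ c • x ≠ x, fun y => by simp⟩
  have hin : ∀ x, t x ∈ T → c • x = ι x := fun x h => by
    obtain ⟨x', h1, h2⟩ := (hT _).mp h
    have h4 := (hx x').resolve_left h2
    rcases (hC.fib x' x).mp h1 with rfl | rfl
    · exact h4
    · rw [hC.eι, h4]
  have hout : ∀ x, t x ∉ T → c • x = x := fun x h => by
    by_contra h1
    exact h ((hT _).mpr ⟨x, rfl, h1⟩)
  refine ⟨T, ?_, c, fun x => ?_⟩
  · have hsq : (MulAction.toPerm c : Equiv.Perm R) ^ 2 = 1 := by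
      ext x
      show c • c • x = x
      rcases hx x with h | h
      · rw [h, h]
      · rw [h, hC.eι, h, hι]
    have hcard : (Finset.univ.filter fun x : R => t x ∈ T).card = 2 * T.card := by
      rw [Finset.card_eq_sum_card_fiberwise (f := t) (t := T)
        (s := Finset.univ.filter fun x : R => t x ∈ T)
        (fun x hx => (Finset.mem_filter.mp (Finset.mem_coe.mp hx)).2), mul_comm, ← smul_eq_mul,
        ← Finset.sum_const]
      refine Finset.sum_congr rfl fun y hy => ?_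
      obtain ⟨x, rfl⟩ := hC.sur y
      rw [← Finset.card_pair (hC.ne x).symm]
      congr 1
      ext x'
      simp only [Finset.mem_filter, Finset.mem_univ, true_and, Finset.mem_insert,
        Finset.mem_singleton]
      rw [← hC.fib x x']
      exact ⟨fun h => h.2.symm, fun h => ⟨h ▸ hy, h.symm⟩⟩
    have hfix : Fintype.card (Function.fixedPoints (MulAction.toPerm c : Equiv.Perm R)) =
        (Finset.univ.filter fun x : R => ¬ t x ∈ T).card := by
      refine Fintype.card_of_subtype _ fun x => ?_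
      rw [Finset.mem_filter]
      refine ⟨fun h => hout x h.2, fun h => ⟨Finset.mem_univ _, fun h1 => hC.ne x ?_⟩⟩
      rw [← hin x h1]
      exact h
    have hs := Equiv.Perm.sign_of_pow_two_eq_one hsq
    have hsum := Finset.card_filter_add_card_filter_not (s := (Finset.univ : Finset R))
      (fun x : R => t x ∈ T)
    rw [Finset.card_univ, hcard] at hsum
    rw [hc2, hfix, show (Fintype.card R - (Finset.univ.filter fun x : R => ¬ t x ∈ T).card) / 2 =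
      T.card by omega] at hs
    by_contra hodd
    rw [(Nat.not_odd_iff_even.mp hodd).neg_one_pow] at hs
    exact absurd hs (by decide)
  · by_cases h : t x ∈ T
    · rw [if_pos h, hin x h]
    · rw [if_neg h, hout x h]

end Pool.Agent.MP_9c0351_nt.Gal

end

section

/-! The order of a group that contains all flips and acts as the full symmetric group below. -/

set_option autoImplicit false

open Polynomial Filter
open scoped NNReal

namespace Pool.Agent.MP_9c0351_nt.Gal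

section
variable {G R Y : Type} [Group G] [MulAction G R] [MulAction G Y] {ι : R → R} {t : R → Y}

theorem flip_iff_C3 (T : Finset Y) : Flip G ι t T ↔
    ∃ g : G, ∀ x, (t x ∈ T → g • x = ι x) ∧ (t x ∉ T → g • x = x) := by
  refine exists_congr fun g => forall_congr' fun x => ⟨fun h => ⟨fun hx => ?_, fun hx => ?_⟩,
    fun h => ?_⟩
  · rw [h, if_pos hx]
  · rw [h, if_neg hx]
  · by_cases hx : t x ∈ T
    · rw [if_pos hx, h.1 hx]
    · rw [if_neg hx, h.2 hx]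

theorem ti_C3 (hc : Cov G R Y ι t) (x : R) : t (ι x) = t x :=
  ((hc.fib x (ι x)).2 (Or.inr rfl)).symm

theorem ii_C3 (hc : Cov G R Y ι t) (x : R) : ι (ι x) = x :=
  (((hc.fib (ι x) x).1 (ti_C3 hc x)).resolve_left (hc.ne x).symm).symm

theorem symm_C3 [DecidableEq Y] (hc : Cov G R Y ι t) {T T' : Finset Y} (h : Flip G ι t T)
    (h' : Flip G ι t T') : Flip G ι t (symmDiff T T') := by
  rw [flip_iff_C3] at h h' ⊢
  obtain ⟨g, h⟩ := h
  obtain ⟨g', h'⟩ := h'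
  refine ⟨g * g', fun x => ?_⟩
  rw [Finset.mem_symmDiff, mul_smul]
  by_cases a : t x ∈ T <;> by_cases b : t x ∈ T'
  · rw [(h' x).1 b, hc.eι, (h x).1 a, ii_C3 hc]
    exact ⟨fun e => absurd e (by tauto), fun _ => rfl⟩
  · rw [(h' x).2 b, (h x).1 a]
    exact ⟨fun _ => rfl, fun e => absurd (Or.inl ⟨a, b⟩) e⟩
  · rw [(h' x).1 b, hc.eι, (h x).2 a]
    exact ⟨fun _ => rfl, fun e => absurd (Or.inr ⟨b, a⟩) e⟩
  · rw [(h' x).2 b, (h x).2 a]
    exact ⟨fun e => absurd e (by tauto), fun _ => rfl⟩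

theorem card_symm_C3 [DecidableEq Y] (T T' : Finset Y) :
    (symmDiff T T').card + 2 * (T ∩ T').card = T.card + T'.card := by
  have h1 := Finset.card_sdiff_add_card_inter T T'
  have h2 := Finset.card_sdiff_add_card_inter T' T
  rw [Finset.inter_comm T' T] at h2
  rw [Finset.symmDiff_def, Finset.card_union_of_disjoint disjoint_sdiff_sdiff]
  omega

theorem ker_C3 [Fintype Y] (hc : Cov G R Y ι t) (hf : ∀ g : G, (∀ x : R, g • x = x) → g = 1)
    (hT : ∀ T : Finset Y, Flip G ι t T) :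
    Nat.card (MulAction.toPermHom G Y).ker = 2 ^ Fintype.card Y := by
  classical
  choose φ hφ using fun T => (flip_iff_C3 T).1 (hT T)
  have hk : ∀ T, φ T ∈ (MulAction.toPermHom G Y).ker := by
    intro T
    rw [MonoidHom.mem_ker]
    ext y
    obtain ⟨x, rfl⟩ := hc.sur y
    change φ T • t x = t x
    rw [← hc.et]
    by_cases a : t x ∈ T
    · rw [(hφ T x).1 a, ti_C3 hc]
    · rw [(hφ T x).2 a]
  have hb : Function.Bijective fun T : Finset Y =>
      (⟨φ T, hk T⟩ : (MulAction.toPermHom G Y).ker) := by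
    constructor
    · intro T T' e
      have e' : φ T = φ T' := congrArg Subtype.val e
      ext y
      obtain ⟨x, rfl⟩ := hc.sur y
      constructor
      · intro a
        by_contra b
        exact hc.ne x (by rw [← (hφ T x).1 a, e', (hφ T' x).2 b])
      · intro a
        by_contra b
        exact hc.ne x (by rw [← (hφ T' x).1 a, ← e', (hφ T x).2 b])
    · rintro ⟨c, hcK⟩
      have h1 : ∀ x : R, c • x = x ∨ c • x = ι x := by
        intro x
        refine (hc.fib x _).1 ?_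
        rw [hc.et]
        exact (congrArg (fun π : Equiv.Perm Y => π (t x)) (MonoidHom.mem_ker.1 hcK)).symm
      obtain ⟨T, hT'⟩ : ∃ T : Finset Y, ∀ y, y ∈ T ↔ ∃ x, t x = y ∧ c • x ≠ x :=
        ⟨Finset.univ.filter fun y => ∃ x, t x = y ∧ c • x ≠ x, fun y => by simp⟩
      refine ⟨T, Subtype.ext ?_⟩
      change φ T = c
      rw [← inv_mul_eq_one]
      refine hf _ fun x => ?_
      rw [mul_smul, inv_smul_eq_iff]
      by_cases a : t x ∈ T
      · rw [(hφ T x).1 a]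
        obtain ⟨x', e1, e2⟩ := (hT' _).1 a
        rcases (hc.fib x' x).1 e1 with rfl | rfl
        · exact (h1 x).resolve_left e2
        · rw [hc.eι, (h1 x').resolve_left e2]
      · rw [(hφ T x).2 a]
        by_contra e
        exact a ((hT' _).2 ⟨x, rfl, e⟩)
  rw [← Nat.card_eq_of_bijective _ hb, Nat.card_eq_fintype_card, Fintype.card_finset]

end

theorem C3_pf : C3_st := by
  intro G R Y _ _ _ _ _ ι t hc hf he ⟨g0, h0⟩ hE ⟨T0, hT0, hF0⟩
  have hT : ∀ T : Finset Y, Flip G ι t T := by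
    intro T
    rcases Nat.even_or_odd T.card with h | h
    · exact hE T h
    · have h1 : Even (symmDiff T T0).card := by
        have := card_symm_C3 T T0
        rw [Nat.odd_iff] at h hT0
        rw [Nat.even_iff]
        omega
      have := symm_C3 hc (hE _ h1) hF0
      rwa [symmDiff_symmDiff_cancel_right] at this
  have hs : Function.Surjective (MulAction.toPermHom G Y) := by
    intro π
    rcases Int.units_eq_one_or (Equiv.Perm.sign π) with h | h
    · exact he π h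
    · obtain ⟨g, hg⟩ := he (π * (MulAction.toPerm g0)⁻¹) (by
        rw [map_mul, map_inv, h, h0]
        simp)
      refine ⟨g * g0, ?_⟩
      rw [map_mul]
      change MulAction.toPerm g * MulAction.toPerm g0 = π
      rw [hg, inv_mul_cancel_right]
  rw [Subgroup.card_eq_card_quotient_mul_card_subgroup (MulAction.toPermHom G Y).ker,
    ker_C3 hc hf hT, Nat.card_congr (QuotientGroup.quotientKerEquivOfSurjective _ hs).toEquiv,
    Nat.card_eq_fintype_card, Fintype.card_perm, mul_comm]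

end Pool.Agent.MP_9c0351_nt.Gal

end

section

set_option autoImplicit false

open Polynomial Filter
open scoped NNReal

namespace Pool.Agent.MP_9c0351_nt.Gal

theorem sq_MRK {k l K : ℕ} (hl : Squarefree l) (hk : k ≤ K) (hm : 4 * (210 * K ^ 3) ^ 3 < k ^ 2 * l) :
    Sq (k ^ 2 * l) := by
  have k0 : 0 < k := by
    rcases Nat.eq_zero_or_pos k with rfl | h
    · simp at hm
    · exact h
  have h1 := Finset.prod_filter_mul_prod_filter_not l.primeFactors (fun q => 11 ≤ q ∧ ¬ q ∣ k) id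
  simp only [id] at h1
  rw [Nat.prod_primeFactors_of_squarefree hl] at h1
  have h2 : ∏ q ∈ l.primeFactors with ¬ (11 ≤ q ∧ ¬ q ∣ k), q ∣ 210 * k := by
    refine Finset.prod_primes_dvd _ (fun q hq => ?_) fun q hq => ?_
    · exact (Nat.prime_of_mem_primeFactors (Finset.mem_filter.1 hq).1).prime
    · obtain ⟨a1, a2⟩ := Finset.mem_filter.1 hq
      have a3 := Nat.prime_of_mem_primeFactors a1
      by_cases a4 : q ∣ k
      · exact a4.mul_left _
      · have a5 : q < 11 := by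
          by_contra a6
          exact a2 ⟨not_lt.1 a6, a4⟩
        refine Dvd.dvd.mul_right ?_ _
        interval_cases q <;> first | decide | exact absurd a3 (by decide)
  have h3 := Nat.le_of_dvd (by positivity) h2
  have h4 : ∏ q ∈ l.primeFactors with (11 ≤ q ∧ ¬ q ∣ k), q ∣ l := Dvd.intro _ h1
  refine ⟨∏ q ∈ l.primeFactors with (11 ≤ q ∧ ¬ q ∣ k), q,
    k ^ 2 * ∏ q ∈ l.primeFactors with ¬ (11 ≤ q ∧ ¬ q ∣ k), q, by rw [mul_left_comm, h1], ?_,
    hl.squarefree_of_dvd h4, fun q hq hd => ?_⟩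
  · refine lt_of_le_of_lt (Nat.mul_le_mul_left 4 (Nat.pow_le_pow_left ?_ 3)) hm
    calc _ ≤ k ^ 2 * (210 * k) := Nat.mul_le_mul_left _ h3
      _ = 210 * k ^ 3 := by ring
      _ ≤ 210 * K ^ 3 := Nat.mul_le_mul_left _ (Nat.pow_le_pow_left hk 3)
  · obtain ⟨p, hp, hqp⟩ := hq.prime.exists_mem_finset_dvd hd
    obtain ⟨a1, a2, a3⟩ := Finset.mem_filter.1 hp
    obtain rfl := (Nat.prime_dvd_prime_iff_eq hq (Nat.prime_of_mem_primeFactors a1)).1 hqp
    refine ⟨a2, (hd.trans h4).mul_left _, fun a4 => ?_⟩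
    have a5 := (Nat.Coprime.pow 2 2 ((Nat.Prime.coprime_iff_not_dvd hq).2 a3)).dvd_of_dvd_mul_left a4
    exact hq.one_lt.ne' (Nat.isUnit_iff.1 (hl q (by rwa [← pow_two])))

theorem sub_MRK (K N : ℕ) : {m : ℕ | m ≤ N ∧ ¬ Sq m} ⊆
    ((Finset.range (4 * (210 * K ^ 3) ^ 3 + 1) ∪ (Finset.Ioc K N).biUnion fun k =>
      (Finset.Ioc 0 N).filter fun m => k ^ 2 ∣ m : Finset ℕ) : Set ℕ) := by
  rintro m ⟨h1, h2⟩
  obtain ⟨l, k, rfl, hl⟩ := Nat.sq_mul_squarefree m
  rw [Finset.mem_coe, Finset.mem_union, Finset.mem_range, Finset.mem_biUnion]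
  by_cases h3 : 4 * (210 * K ^ 3) ^ 3 < k ^ 2 * l
  · have h4 : 0 < k ^ 2 * l := lt_of_le_of_lt (Nat.zero_le _) h3
    refine Or.inr ⟨k, Finset.mem_Ioc.2 ⟨not_le.1 fun h5 => h2 (sq_MRK hl h5 h3), ?_⟩,
      Finset.mem_filter.2 ⟨Finset.mem_Ioc.2 ⟨h4, h1⟩, Dvd.intro _ rfl⟩⟩
    exact (Nat.le_of_dvd h4 ((dvd_pow_self k two_ne_zero).mul_right _)).trans h1
  · exact Or.inl (by omega)

theorem card_MRK {K N : ℕ} (hK : K ≠ 0) (hN : K ≤ N) :
    (Set.ncard {m : ℕ | m ≤ N ∧ ¬ Sq m} : ℝ) ≤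
      (4 * (210 * K ^ 3) ^ 3 + 1 : ℕ) + N * (K : ℝ)⁻¹ := by
  have h1 := Set.ncard_le_ncard (sub_MRK K N) (Finset.finite_toSet _)
  rw [Set.ncard_coe_finset] at h1
  have h2 := h1.trans ((Finset.card_union_le _ _).trans
    (Nat.add_le_add_left Finset.card_biUnion_le _))
  rw [Finset.card_range] at h2
  refine (Nat.cast_le.2 h2).trans ?_
  rw [Nat.cast_add, Nat.cast_sum]
  refine add_le_add_right ?_ _
  have h3 : ∀ k ∈ Finset.Ioc K N, ((((Finset.Ioc 0 N).filter fun m => k ^ 2 ∣ m).card : ℕ) : ℝ) ≤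
      N * ((k : ℝ) ^ 2)⁻¹ := fun k _ => by
    rw [Nat.Ioc_filter_dvd_card_eq_div, ← div_eq_mul_inv, ← Nat.cast_pow]
    exact Nat.cast_div_le
  refine (Finset.sum_le_sum h3).trans ?_
  rw [← Finset.mul_sum]
  refine mul_le_mul_of_nonneg_left ((sum_Ioc_inv_sq_le_sub hK hN).trans ?_) (Nat.cast_nonneg N)
  exact sub_le_self _ (by positivity)

theorem MRK_pf : MRK_st := by
  intro ε hε
  obtain ⟨K, hK⟩ := exists_nat_gt (2 / ε)
  have K0 : (0 : ℝ) < K := lt_trans (by positivity) hK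
  have h1 : (K : ℝ)⁻¹ ≤ ε / 2 := by
    rw [inv_le_comm₀ K0 (by positivity), inv_div]
    exact hK.le
  have h2 : ∀ᶠ N : ℕ in atTop, ((4 * (210 * K ^ 3) ^ 3 + 1 : ℕ) : ℝ) ≤ ε / 2 * N :=
    (tendsto_natCast_atTop_atTop.const_mul_atTop (half_pos hε)).eventually_ge_atTop _
  filter_upwards [h2, eventually_ge_atTop K] with N h3 h4
  refine (card_MRK (Nat.cast_pos.1 K0).ne' h4).trans ?_
  have h5 := mul_le_mul_of_nonneg_left h1 (Nat.cast_nonneg (α := ℝ) N)
  linarith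

end Pool.Agent.MP_9c0351_nt.Gal

end
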