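import Pool.Agent.Mg.F9c0351q.G0f9e82

set_option linter.all false

section

/-! Galois group of `S_n`: assembly of the steps. -/

set_option autoImplicit false

open Polynomial Filter
open scoped NNReal

namespace Pool.Agent.MP_9c0351_nt.Gal

theorem loc_Main (hVAL : VAL_st) (hGEO : GEO_st) (hLO1 : LO1_st) (hLO2 : LO2_st)
    (K : Type) [Field K] [NumberField K] [IsGalois ℚ K] [DecidableEq K] (n q : ℕ) (R : Finset K)
    (hn : 4 ≤ n) (hq : q.Prime) (h5 : 5 ≤ q) (hE : Ex q (n - 1)) (hR : Alg n R) :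
    ∃ (A A' : Finset K) (x0 : K) (I P : Subgroup (K ≃ₐ[ℚ] K)) (c : K ≃ₐ[ℚ] K),
      Wil R A A' q (2 * ((q - 1) / 2 * (n % 2))) x0 I P ∧ Cel R A q c := by
  obtain ⟨v, I, hL⟩ := hVAL K q hq
  obtain ⟨x0, hG⟩ := hGEO K v n q R hn hq h5 hL.lt hE hR
  obtain ⟨P, hP⟩ := hLO1 K n q R v I x0 hn hq h5 hR hL hG
  obtain ⟨c, hc⟩ := hLO2 K n q R v I x0 hn hq h5 hR hL hG hP.2.2.2.2.2.2.2.2.2.2.2.2.2.1
  have ho := hq.eq_two_or_odd
  have h2 : 2 * ((q - 1) / 2 * (n % 2)) = (q - 1) * (n % 2) := by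
    rw [← mul_assoc]; congr 1; omega
  exact ⟨_, _, x0, I, P, c, h2 ▸ hP, hc⟩

theorem prim_Main (hBLK : BLK_st) (hTWO : TWO_st) (hARI : ARI_st) (G Y : Type) [Group G]
    [Finite G] [Finite Y] [MulAction G Y] (n : ℕ) (hn : 4 ≤ n) (hc : Nat.card Y = (n - 2) / 2)
    (ht : MulAction.IsPretransitive G Y) (hs : Sq (n - 1)) (hp : ∀ j, n - 1 ≠ j * (j + 1))
    (hl : ∀ q, q.Prime → 11 ≤ q → Ex q (n - 1) →
      LocY G Y q ((q - 3) / 2) ((q - 1) / 2 * (n % 2)))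
    (hr : n % 2 = 1 → ∃ (r : ℕ) (P : Subgroup G), r.Prime ∧ r % 4 = 1 ∧ IsPGroup r P ∧
      2 * {y : Y | ∀ g ∈ P, g • y = y}.ncard = r - 3) : MulAction.IsPreprimitive G Y := by
  refine { isTrivialBlock_of_isBlock := fun {B} hB => ?_ }
  by_contra hnt
  rw [MulAction.IsTrivialBlock, not_or] at hnt
  have h2 : 2 ≤ B.ncard := by
    have := (Set.one_lt_ncard_iff_nontrivial (s := B)).2 (Set.not_subsingleton_iff.1 hnt.1)
    omega
  have hne : B.Nonempty := Set.nonempty_of_ncard_ne_zero (by omega)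
  obtain ⟨s, hm⟩ := hB.ncard_dvd_card hne
  have hm' : s * B.ncard = Nat.card Y := by rw [mul_comm]; exact hm.symm
  have hs2 : 2 ≤ s := by
    by_contra hlt
    have : s = 0 ∨ s = 1 := by omega
    rcases this with h0 | h1
    · rw [h0] at hm'; omega
    · rw [h1, one_mul] at hm'
      exact hnt.2 (Set.eq_of_subset_of_ncard_le (Set.subset_univ _)
        (by rw [Set.ncard_univ]; omega))
  obtain ⟨Q, E, hQ, hE, hsq, hall⟩ := hs
  obtain ⟨ho, hs'⟩ := hARI n s B.ncard Q E hn (hm'.trans hc) h2 hs2 hQ hE hsq hp (by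
    intro q hq hd
    obtain ⟨h11, hx⟩ := hall q hq hd
    have hodd := hq.eq_two_or_odd
    have := hBLK G Y q ((q - 3) / 2) ((q - 1) / 2 * (n % 2)) s B ht hq (by omega)
      (by rcases Nat.mod_two_eq_zero_or_one n with h | h <;> rw [h] <;> omega) (by omega)
      (hl q hq h11 hx) hB h2 hm'
    exact ⟨fun h => this.1 (by rw [h, mul_zero]), fun h => this.2 (by rw [h]; omega)⟩)
  obtain ⟨r, P, hr, hr4, hP, hf⟩ := hr ho
  have := hr.two_le
  obtain ⟨e, he⟩ := hTWO G Y r P B hr (by omega) hP hB (by rw [← hm', hs']) (by omega)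
  omega

theorem card_Main (hBAS : BAS_st) (hALG : ALG_st) (hCHR : CHR_st) (hVAL : VAL_st)
    (hGEO : GEO_st) (hLO1 : LO1_st) (hLO2 : LO2_st) (hFXR : FXR_st) (hTR0 : TR0_st)
    (hTRL : TRL_st) (hBLK : BLK_st) (hTWO : TWO_st) (hARI : ARI_st) (hJOR : JOR_st)
    (hC1 : C1_st) (hC2 : C2_st) (hC3 : C3_st) (n : ℕ) (hg : Good n) :
    Nat.card (Sp n).Gal = 2 ^ ((n - 2) / 2) * ((n - 2) / 2).factorial := by
  classical
  obtain ⟨q, hq, hq4, hq13, hqn, hqE⟩ := hg.q1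
  have hn169 : 169 ≤ n := by nlinarith
  have hn : 4 ≤ n := by omega
  let K := (Sp n).SplittingField
  obtain ⟨R, hF, htr, hfa⟩ : ∃ R : Finset K, Fac n R ∧
    (∀ x ∈ R, ∀ x' ∈ R, ∃ g : K ≃ₐ[ℚ] K, g x = x') ∧
    ∀ g : K ≃ₐ[ℚ] K, (∀ x ∈ R, g x = x) → g = 1 := hBAS n hn
  have : NumberField K := NumberField.mk
  have : Normal ℚ K := Polynomial.SplittingField.instNormal (Sp n)
  have : IsGalois ℚ K := IsGalois.mk
  have hR := hALG K n R hn hF
  obtain ⟨hf1, hf2, hcard, ⟨ι, t, hι, ht, hcov⟩, hfix⟩ := hTR0 K n R hR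
  let _ := Fintype.ofFinite (RS n K)
  let _ := Fintype.ofFinite (YS n K)
  have hmem : ∀ x : RS n K, (x : K) ∈ R := fun x => (hR.mem x).2 x.2
  have htY : MulAction.IsPretransitive (K ≃ₐ[ℚ] K) (YS n K) := ⟨fun y y' => by
    obtain ⟨x, rfl⟩ := hcov.sur y
    obtain ⟨x', rfl⟩ := hcov.sur y'
    obtain ⟨g, hg⟩ := htr x (hmem x) x' (hmem x')
    exact ⟨g, by rw [← hcov.et]; exact congrArg t (Subtype.ext hg)⟩⟩
  have hl : ∀ q, q.Prime → 11 ≤ q → Ex q (n - 1) →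
      LocY (K ≃ₐ[ℚ] K) (YS n K) q ((q - 3) / 2) ((q - 1) / 2 * (n % 2)) := by
    intro q hq h11 hx
    obtain ⟨A, A', x0, I, P, c, hW, hC⟩ :=
      loc_Main hVAL hGEO hLO1 hLO2 K n q R hn hq (by omega) hx hR
    exact hTRL K n q _ R A A' x0 I P c hR hq h11 hW hC
  have hprim := prim_Main hBLK hTWO hARI (K ≃ₐ[ℚ] K) (YS n K) n hn hcard htY hg.sq hg.pr hl (by
    intro ho
    obtain ⟨r, hr, hr4, hx⟩ := hg.r0
    have := hr.two_le
    obtain ⟨P, A, hP, hA, hc, hf⟩ := hFXR K n r R hn hr (by omega) ho hx hR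
    exact ⟨r, P, hr, hr4, hP, (hfix r P A hr (by omega) hP hA hf).trans hc⟩)
  have hcard' : Fintype.card (YS n K) = (n - 2) / 2 := by rw [← Nat.card_eq_fintype_card, hcard]
  have halt : ∀ π : Equiv.Perm (YS n K), Equiv.Perm.sign π = 1 →
      ∃ g : K ≃ₐ[ℚ] K, MulAction.toPerm g = π := by
    obtain ⟨I, P, c, y0, A, A', -, hA, -, -, -, -, -, -, -, -, hc, hcyc⟩ := hl q hq (by omega) hqE
    obtain ⟨h, hh⟩ : ∃ h, q = 2 * h + 3 := ⟨(q - 3) / 2, by omega⟩
    have hh' : (q - 3) / 2 = h := by omega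
    rw [hh'] at hA hcyc
    refine hJOR _ _ c A hprim (by omega) ?_ hc (hcyc ⟨h / 2, by omega⟩)
    rw [hA, hcard]
    have : 4 * h ^ 2 + 12 * h + 9 ≤ n := by subst hh; nlinarith
    omega
  have h5 : 5 ≤ Fintype.card (YS n K) := by omega
  obtain ⟨s1, s2, s3⟩ := hCHR K n R hn hR hg
  have hev := hC1 _ _ _ ι t hcov h5 halt (by
    obtain ⟨q, hq, hq4, h11, hx⟩ := hg.q3
    obtain ⟨A, A', x0, I, P, c, hW, hC⟩ :=
      loc_Main hVAL hGEO hLO1 hLO2 K n q R hn hq (by omega) hx hR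
    obtain ⟨-, hx0, hA, -, hcA, -, -, -, hx0A, -⟩ := hW
    have hout : ∀ x ∈ R, x ∉ A → (c ^ ((q - 3) / 4)) x = x := by
      intro x hx hxA
      induction (q - 3) / 4 with
      | zero => simp
      | succ j ih => rw [pow_succ, AlgEquiv.mul_apply, hC.1 x hx hxA, ih]
    have hin : ∀ x ∈ A, (c ^ ((q - 3) / 4)) x = x⁻¹ := fun x hx =>
      (hC.2.2 x hx _).2.2 ⟨⟨(q - 3) / 4, by omega⟩, Nat.mod_eq_of_lt (by omega)⟩
    obtain ⟨a, ha⟩ : A.Nonempty := Finset.card_pos.1 (by omega)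
    refine ⟨c ^ ((q - 3) / 4), fun x => ?_, ⟨⟨x0, (hR.mem x0).1 hx0⟩, Subtype.ext
      (hout x0 hx0 hx0A)⟩, ⟨a, (hR.mem a).1 (hA ha)⟩, fun h => ?_⟩
    · by_cases hx : (x : K) ∈ A
      · exact Or.inr (Subtype.ext ((hin x hx).trans (hι x).symm))
      · exact Or.inl (Subtype.ext (hout x (hmem x) hx))
    · exact hcov.ne ⟨a, (hR.mem a).1 (hA ha)⟩ (Subtype.ext ((hι _).trans
        ((hin a ha).symm.trans (congrArg Subtype.val h)))))
  have hod := hC2 _ _ _ ι t hcov h5 halt s1 s2 s3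
  have := hC3 _ _ _ ι t hcov (fun g hg => hfa g fun x hx =>
    congrArg Subtype.val (hg ⟨x, (hR.mem x).1 hx⟩)) halt s1 hev hod
  rw [hcard'] at this
  exact this

theorem dens_Main (hDEN : DEN_st) (p : ℕ → Prop) (hp : ∀ n, Good n → p n) :
    Tendsto (fun N : ℕ => (Set.ncard {n : ℕ | 1 ≤ n ∧ n ≤ N ∧ p n} : ℝ) / N) atTop (nhds 1) := by
  rw [Metric.tendsto_nhds]
  intro ε hε
  filter_upwards [hDEN (ε / 2) (by positivity), eventually_ge_atTop 1] with N hN h1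
  have hN0 : (0 : ℝ) < N := by exact_mod_cast h1
  have hI : (Set.Icc 1 N).ncard = N := by simp [Set.ncard_eq_toFinset_card']
  have hu : Set.ncard {n : ℕ | 1 ≤ n ∧ n ≤ N ∧ p n} ≤ N := by
    conv_rhs => rw [← hI]
    exact Set.ncard_le_ncard (fun n hn => ⟨hn.1, hn.2.1⟩) (Set.finite_Icc _ _)
  have hl : N ≤ Set.ncard {n : ℕ | 1 ≤ n ∧ n ≤ N ∧ p n} + Set.ncard {n : ℕ | n ≤ N ∧ ¬ Good n} := by
    conv_lhs => rw [← hI]
    refine le_trans (Set.ncard_le_ncard ?_ ?_) (Set.ncard_union_le _ _)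
    · intro n hn
      by_cases hg : Good n
      · exact Or.inl ⟨hn.1, hn.2, hp n hg⟩
      · exact Or.inr ⟨hn.2, hg⟩
    · exact (Set.finite_Iic N).subset (by rintro n (hn | hn); exacts [hn.2.1, hn.1])
  have hu' : (Set.ncard {n : ℕ | 1 ≤ n ∧ n ≤ N ∧ p n} : ℝ) ≤ N := by exact_mod_cast hu
  have hl' : (N : ℝ) ≤ Set.ncard {n : ℕ | 1 ≤ n ∧ n ≤ N ∧ p n} +
      Set.ncard {n : ℕ | n ≤ N ∧ ¬ Good n} := by exact_mod_cast hl
  rw [Real.dist_eq, abs_lt]
  constructor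
  · rw [lt_sub_iff_add_lt, lt_div_iff₀ hN0]; nlinarith
  · rw [sub_lt_iff_lt_add, div_lt_iff₀ hN0]; nlinarith

end Pool.Agent.MP_9c0351_nt.Gal

end

section

set_option autoImplicit false

open Polynomial Filter
open scoped NNReal

namespace Pool.Agent.MP_9c0351_nt.Gal

section

variable {K : Type} [Field K]

theorem d1_ALG (x : K) (h : K[X]) : eval x (derivative ((X - C x) * h)) = eval x h := by
  simp [derivative_mul]

theorem d3_ALG (h : K[X]) : eval 1 (derivative^[3] ((X - 1) ^ 3 * h)) = 6 * eval 1 h := by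
  simp [Function.iterate_succ, derivative_mul, derivative_pow]
  exact Or.inl (by norm_num)

theorem sd_ALG (n : ℕ) (x : K) : eval x (derivative
    (C ((n : K) - 1) * (X ^ (n + 1) - 1) - C ((n : K) + 1) * (X ^ n - X))) = Sd n x := by
  simp only [Sd, derivative_sub, derivative_C_mul, derivative_X_pow, derivative_one, derivative_X,
    eval_sub, eval_mul, eval_C, eval_pow, eval_X, eval_one, eval_zero, Nat.add_sub_cancel]
  push_cast
  ring

theorem s3_ALG (k : ℕ) : eval (1 : K) (derivative^[3]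
    (C (((k + 4 : ℕ) : K) - 1) * (X ^ (k + 4 + 1) - 1) -
    C (((k + 4 : ℕ) : K) + 1) * (X ^ (k + 4) - X))) = (k + 3) * (k + 4) * (k + 5) := by
  simp only [iterate_derivative_sub, iterate_derivative_C_mul,
    iterate_derivative_X_pow_eq_natCast_mul, iterate_derivative_one (show 0 < 3 by omega),
    iterate_derivative_X (show 1 < 3 by omega), eval_sub, eval_mul, eval_C, eval_pow, eval_X,
    eval_natCast, eval_zero, one_pow, Nat.descFactorial_succ, Nat.descFactorial_zero,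
    show k + 4 + 1 - 2 = k + 3 by omega, show k + 4 + 1 - 1 = k + 4 by omega,
    show k + 4 - 2 = k + 2 by omega, show k + 4 - 1 = k + 3 by omega, Nat.sub_zero]
  push_cast
  ring

theorem neg_ALG {R : Finset K} (h : Even R.card) (f : K → K) : ∏ x ∈ R, -f x = ∏ x ∈ R, f x := by
  rw [Finset.prod_neg, h.neg_one_pow, one_mul]

end

theorem ALG_pf : ALG_st := by
  intro K _ _ _ n R hn ⟨h1, h2, hF⟩
  obtain ⟨k, rfl⟩ : ∃ k, n = k + 4 := ⟨n - 4, by omega⟩
  have c3 := s3_ALG (K := K) k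
  have ha : ((k + 4 : ℕ) : K) - 1 ≠ 0 := by
    rw [sub_ne_zero]; exact_mod_cast (by omega : k + 4 ≠ 1)
  have e3 : ((k : K) + 3) * (k + 4) * (k + 5) =
      (((k + 4 : ℕ) : K) - 1) * (((k + 4 : ℕ) : K) * ((k + 4 : ℕ) + 1)) := by push_cast; ring
  rw [e3] at c3
  clear e3
  have hp : ∀ x : K, x ^ (k + 4) = x ^ (k + 4 - 1) * x := fun x => (pow_succ x (k + 3))
  generalize k + 4 = n at *
  have n0 : (n : K) ≠ 0 := by exact_mod_cast (by omega : n ≠ 0)
  have hv : ∀ x, Sv n x = ((n : K) - 1) * (x - 1) ^ 3 * (x + 1) ^ (n % 2) * ∏ r ∈ R, (x - r) := by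
    intro x
    have := congrArg (eval x) hF
    simpa only [Sv, eval_sub, eval_mul, eval_C, eval_pow, eval_X, eval_one, eval_add, eval_prod]
      using this
  have hc : R.card = 2 * ((n - 2) / 2) := by
    have d1 : (C ((n : K) - 1) * (X ^ (n + 1) - 1)).natDegree = n + 1 := by
      rw [natDegree_C_mul ha, ← C_1, natDegree_X_pow_sub_C]
    have d2 : (C ((n : K) + 1) * (X ^ n - X)).natDegree ≤ n :=
      (natDegree_C_mul_le _ _).trans ((natDegree_sub_le _ _).trans (by simp; omega))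
    have m1 : Monic (X - 1 : K[X]) := monic_X_sub_C 1
    have m2 : Monic (X + 1 : K[X]) := monic_X_add_C 1
    have m3 := monic_prod_X_sub_C (fun x : K => x) R
    have d3 := congrArg natDegree hF
    rw [natDegree_sub_eq_left_of_natDegree_lt (by omega), d1, mul_assoc, mul_assoc,
      natDegree_C_mul ha, (m1.pow _).natDegree_mul ((m2.pow _).mul m3),
      (m2.pow _).natDegree_mul m3, m1.natDegree_pow, m2.natDegree_pow,
      natDegree_finsetProd_X_sub_C_eq_card, ← C_1, natDegree_X_sub_C, natDegree_X_add_C] at d3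
    omega
  have he : Even R.card := hc ▸ even_two_mul _
  have hm : ∀ x, x ∈ R ↔ Sv n x = 0 ∧ x ≠ 1 ∧ x ≠ -1 := by
    intro x
    constructor
    · intro hx
      exact ⟨by rw [hv, Finset.prod_eq_zero hx (sub_self x), mul_zero], fun e => h1 (e ▸ hx),
        fun e => h2 (e ▸ hx)⟩
    · rintro ⟨a, b, c⟩
      rw [hv] at a
      obtain ⟨r, hr, e⟩ := Finset.prod_eq_zero_iff.1 ((mul_eq_zero.1 a).resolve_left
        (mul_ne_zero (mul_ne_zero ha (pow_ne_zero _ (sub_ne_zero.2 b)))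
          (pow_ne_zero _ fun e => c (eq_neg_of_add_eq_zero_left e))))
      exact sub_eq_zero.1 e ▸ hr
  have s0 : Sv n (0 : K) = -((n : K) - 1) := by simp [Sv, show n ≠ 0 by omega]
  have h0 : ∀ x ∈ R, x ≠ 0 := by
    rintro x hx rfl
    exact ha (neg_eq_zero.1 (s0 ▸ ((hm 0).1 hx).1))
  refine ⟨hc, hm, h0, fun x hx => ?_, ?_, ?_, ?_, ?_, fun x hx => ?_⟩
  · obtain ⟨a, b, c⟩ := (hm x).1 hx
    have x0 := h0 x hx
    refine (hm _).2 ⟨?_, fun e => b (inv_eq_one.1 e), fun e => c ?_⟩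
    · have : x ^ (n + 1) * Sv n x⁻¹ = -Sv n x := by
        simp only [Sv, inv_pow]
        field_simp
        ring
      rw [a, neg_zero] at this
      exact (mul_eq_zero.1 this).resolve_left (pow_ne_zero _ x0)
    · rw [← inv_inv x, e]; norm_num
  · have := hv 0
    simp only [s0, zero_sub, zero_add, one_pow, neg_ALG he fun x => x] at this
    exact mul_left_cancel₀ ha (by linear_combination this)
  · rw [hF, mul_comm (C _), mul_assoc, mul_assoc, d3_ALG] at c3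
    simp only [eval_sub, eval_mul, eval_C, eval_pow, eval_X, eval_one, eval_add, eval_prod] at c3
    rw [← neg_ALG he, f1]
    simp only [neg_sub]
    push_cast
    rw [eq_div_iff (mul_ne_zero (by norm_num) (pow_ne_zero _ two_ne_zero))]
    exact mul_left_cancel₀ ha (by linear_combination c3)
  · have e : ∏ x ∈ R, (x + 1) = ∏ r ∈ R, (-1 - r) := by
      rw [← neg_ALG he]
      exact Finset.prod_congr rfl fun x _ => by ring
    rw [e, fm]
    rcases Nat.mod_two_eq_zero_or_one n with q | q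
    · have := hv (-1)
      rw [Sv, pow_succ, (Nat.even_iff.2 q).neg_one_pow, q] at this
      rw [if_neg (by omega)]
      push_cast
      rw [eq_div_iff (mul_ne_zero two_ne_zero ha)]
      linear_combination (1 / 4 : K) * this
    · have := sd_ALG n (-1 : K)
      rw [hF, q, pow_one, mul_comm _ (X + 1), mul_assoc, ← sub_neg_eq_add, ← C_1, ← C_neg, d1_ALG,
        Sd, (Nat.odd_iff.2 q).neg_one_pow, (Nat.even_iff.2 (by omega : (n - 1) % 2 = 0)).neg_one_pow]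
        at this
      simp only [eval_sub, eval_mul, eval_C, eval_pow, eval_X, eval_prod] at this
      rw [if_pos q]
      push_cast
      exact mul_left_cancel₀ ha (by linear_combination (-1 / 8 : K) * this)
  · have := hv (((n : K) + 1) / (n - 1))
    have e : ∏ x ∈ R, (((n : K) - 1) * x - (n + 1)) =
        ((n : K) - 1) ^ R.card * ∏ r ∈ R, (((n : K) + 1) / (n - 1) - r) := by
      rw [← neg_ALG he, ← Finset.prod_const, ← Finset.prod_mul_distrib]
      exact Finset.prod_congr rfl fun x _ => by field_simp; ring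
    have e2 : Sv n (((n : K) + 1) / (n - 1)) = 4 * n / (n - 1) := by
      rw [Sv, pow_succ]
      generalize (((n : K) + 1) / (n - 1)) ^ n = y
      field_simp
      ring
    rw [e2] at this
    rw [e]
    generalize ∏ r ∈ R, (((n : K) + 1) / (n - 1) - r) = P at this ⊢
    rcases Nat.mod_two_eq_zero_or_one n with q | q <;> rw [q] at this ⊢
    · field_simp at this
      linear_combination (-((n : K) - 1) ^ R.card / 8) * this
    · field_simp at this
      exact mul_left_cancel₀ n0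
        (by linear_combination (-((n : K) - 1) ^ R.card / 16) * this)
  · obtain ⟨a, b, c⟩ := (hm x).1 hx
    have := sd_ALG n x
    rw [hF, ← Finset.mul_prod_erase R _ hx, mul_left_comm, d1_ALG] at this
    simp only [eval_sub, eval_mul, eval_C, eval_pow, eval_X, eval_one, eval_add, eval_prod] at this
    have k : Sd n x * x * (((n : K) - 1) * x - (n + 1)) =
        -(n * (n + 1)) * (((n : K) - 1) * (x - 1) ^ 2) := by
      rw [Sv, pow_succ, hp] at a
      rw [Sd, hp]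
      linear_combination ((n : K) + 1) * (((n : K) - 1) * x - n) * a
    refine mul_right_cancel₀ (mul_ne_zero ha (pow_ne_zero 2 (sub_ne_zero.2 b))) ?_
    rw [← k, ← this]
    ring

end Pool.Agent.MP_9c0351_nt.Gal

end

section

/-! A place above `q` with its inertia group. -/

set_option autoImplicit false

open Polynomial Filter
open scoped NNReal

namespace Pool.Agent.MP_9c0351_nt.Gal

open NumberField IsDedekindDomain

theorem pow_VAL {K N : Type} [Field K] [NumberField K] [Field N] [NumberField N] [Algebra K N]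
    (G : Type) [Group G] [Finite G] [MulSemiringAction G N] [IsGaloisGroup G K N]
    (w : HeightOneSpectrum (𝓞 N)) (x : K) :
    w.valuation N (algebraMap K N x) =
      (w.under (𝓞 K)).valuation K x ^ Nat.card (w.asIdeal.inertia G) := by
  have : w.asIdeal.LiesOver (w.under (𝓞 K)).asIdeal := ⟨rfl⟩
  have := w.isPrime
  have := (w.under (𝓞 K)).isMaximal
  rw [← HeightOneSpectrum.valuation_liesOver N (w.under (𝓞 K)) w x,
    Ideal.ramificationIdx'_eq_ramificationIdx _ _ (w.under (𝓞 K)).ne_bot,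
    Ideal.card_inertia_eq_ramificationIdxIn (w.under (𝓞 K)).asIdeal w.asIdeal,
    Ideal.ramificationIdxIn_eq_ramificationIdx (w.under (𝓞 K)).asIdeal w.asIdeal G]

theorem top_VAL {K N : Type} [Field K] [NumberField K] [Field N] [NumberField N] [Algebra K N]
    (G : Type) [Group G] [Finite G] [MulSemiringAction G N] [IsGaloisGroup G K N]
    (w : HeightOneSpectrum (𝓞 N)) (hG : ∀ (σ : G) (x : 𝓞 N), σ • x - x ∈ w.asIdeal) (x : K) :
    w.valuation N (algebraMap K N x) = (w.under (𝓞 K)).valuation K x ^ Nat.card G := by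
  have htop : w.asIdeal.inertia G = ⊤ := eq_top_iff.2 fun σ _ => hG σ
  rw [pow_VAL G w x, htop, Subgroup.card_top]

theorem ex_VAL {K N : Type} [Field K] [NumberField K] [Field N] [NumberField N] [Algebra K N]
    [IsGalois K N] (w : HeightOneSpectrum (𝓞 N)) {y : N}
    (hy : ∀ σ : N ≃ₐ[K] N, (∀ x : 𝓞 N, σ • x - x ∈ w.asIdeal) → σ y = y) :
    ∃ x : K, w.valuation N (algebraMap K N x) = w.valuation N y := by
  set I := w.asIdeal.inertia (N ≃ₐ[K] N) with hI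
  set E : IntermediateField K N := FixedPoints.intermediateField I with hE
  have : IsGaloisGroup I E N := IsGaloisGroup.subgroup (N ≃ₐ[K] N) K N I
  have hyE : y ∈ E := fun σ => hy σ.1 σ.2
  have h1 := top_VAL I w (fun σ x => σ.2 x) (⟨y, hyE⟩ : E)
  obtain ⟨x, hx⟩ := (w.under (𝓞 K)).valuation_surjective K
    ((w.under (𝓞 E)).valuation E (⟨y, hyE⟩ : E))
  exact ⟨x, by rw [pow_VAL (N ≃ₐ[K] N) w x, hx]; exact h1.symm⟩

theorem nat_le_VAL {K Γ : Type} [Field K] [LinearOrderedCommGroupWithZero Γ] (v : Valuation K Γ)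
    (n : ℕ) : v (n : K) ≤ 1 := by
  induction n with
  | zero => simp
  | succ n ih =>
    rw [Nat.cast_succ]
    exact v.map_add_le ih v.map_one.le

theorem int_VAL {K Γ : Type} [Field K] [LinearOrderedCommGroupWithZero Γ] (v : Valuation K Γ)
    (a : ℤ) : v (a : K) = v (a.natAbs : K) := by
  rcases Int.natAbs_eq a with h | h
  · conv_lhs => rw [h, Int.cast_natCast]
  · conv_lhs => rw [h, Int.cast_neg, Int.cast_natCast, v.map_neg]

theorem nat_VAL {K Γ : Type} [Field K] [LinearOrderedCommGroupWithZero Γ] (v : Valuation K Γ)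
    {q : ℕ} (hq : q.Prime) (h : v (q : K) < 1) (n : ℕ) (hn : n ≠ 0) :
    ∃ j : ℕ, v (n : K) = v (q : K) ^ j := by
  obtain ⟨j, m, hm, rfl⟩ := Nat.exists_eq_pow_mul_and_not_dvd hn q hq.ne_one
  refine ⟨j, ?_⟩
  have h1 : v (m : K) = 1 := by
    refine le_antisymm (nat_le_VAL v m) (not_lt.1 fun hc => ?_)
    obtain ⟨a, b, e⟩ := Nat.isCoprime_iff_coprime.2 ((Nat.Prime.coprime_iff_not_dvd hq).2 hm)
    have e' : (a : K) * q + (b : K) * m = 1 := by exact_mod_cast congrArg (Int.cast : ℤ → K) e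
    have l : ∀ (c : ℤ) (y : K), v y < 1 → v ((c : K) * y) < 1 := fun c y hy => by
      rw [map_mul, int_VAL]
      exact lt_of_le_of_lt (mul_le_of_le_one_left' (nat_le_VAL v _)) hy
    have := v.map_add_lt (l a _ h) (l b _ hc)
    rw [e', map_one] at this
    exact lt_irrefl _ this
  rw [Nat.cast_mul, Nat.cast_pow, map_mul, map_pow, h1, mul_one]

theorem rat_VAL {K Γ : Type} [Field K] [CharZero K] [LinearOrderedCommGroupWithZero Γ]
    (v : Valuation K Γ) {q : ℕ} (hq : q.Prime) (h : v (q : K) < 1) (x : ℚ) (hx : x ≠ 0) :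
    ∃ j : ℤ, v (x : K) = v (q : K) ^ j := by
  obtain ⟨i, hi⟩ := nat_VAL v hq h x.num.natAbs (Int.natAbs_ne_zero.2 (Rat.num_ne_zero.2 hx))
  obtain ⟨j, hj⟩ := nat_VAL v hq h x.den x.den_nz
  have h0 : v (q : K) ≠ 0 := v.ne_zero_iff.2 (Nat.cast_ne_zero.2 hq.ne_zero)
  refine ⟨(i : ℤ) - j, ?_⟩
  rw [Rat.cast_def, map_div₀, int_VAL, hi, hj, zpow_sub₀ h0, zpow_natCast, zpow_natCast]

theorem le_VAL {K : Type} [Field K] [NumberField K] (w : HeightOneSpectrum (𝓞 K))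
    {σ : K ≃ₐ[ℚ] K} (hσ : σ ∈ w.asIdeal.inertia (K ≃ₐ[ℚ] K)) (x : 𝓞 K) :
    w.intValuation (σ • x) ≤ w.intValuation x := by
  rcases eq_or_ne x 0 with rfl | hx
  · rw [smul_zero]
  have h1 : w.asIdeal.map (MulSemiringAction.toRingHom (K ≃ₐ[ℚ] K) (𝓞 K) σ) ≤ w.asIdeal :=
    Ideal.map_le_iff_le_comap.2 fun y hy => by
      have := w.asIdeal.add_mem (hσ y) hy
      rwa [sub_add_cancel] at this
  have h2 := (w.intValuation_le_pow_iff_mem x _).1 (w.intValuation_eq_exp_neg_multiplicity hx).le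
  rw [w.intValuation_eq_exp_neg_multiplicity hx, w.intValuation_le_pow_iff_mem]
  have h3 := Ideal.mem_map_of_mem (MulSemiringAction.toRingHom (K ≃ₐ[ℚ] K) (𝓞 K) σ) h2
  rw [Ideal.map_pow] at h3
  exact Ideal.pow_right_mono h1 _ h3

theorem iso_VAL {K : Type} [Field K] [NumberField K] (w : HeightOneSpectrum (𝓞 K))
    {σ : K ≃ₐ[ℚ] K} (hσ : σ ∈ w.asIdeal.inertia (K ≃ₐ[ℚ] K)) (z : K) :
    w.valuation K (σ z) = w.valuation K z := by
  have h : ∀ x : 𝓞 K, w.valuation K (σ (algebraMap (𝓞 K) K x)) =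
      w.valuation K (algebraMap (𝓞 K) K x) := fun x => by
    have h1 := le_VAL w (inv_mem hσ) (σ • x)
    rw [inv_smul_smul] at h1
    exact (w.valuation_of_algebraMap (σ • x)).trans
      ((le_antisymm (le_VAL w hσ x) h1).trans (w.valuation_of_algebraMap x).symm)
  obtain ⟨a, b, -, rfl⟩ := IsFractionRing.div_surjective (A := 𝓞 K) z
  rw [map_div₀, map_div₀, map_div₀, h, h]

theorem res_VAL {K : Type} [Field K] [NumberField K] (w : HeightOneSpectrum (𝓞 K))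
    {σ : K ≃ₐ[ℚ] K} (hσ : σ ∈ w.asIdeal.inertia (K ≃ₐ[ℚ] K)) (z : K)
    (hz : w.valuation K z ≤ 1) : w.valuation K (σ z - z) < 1 := by
  have h : ∀ x : 𝓞 K, w.valuation K (σ (algebraMap (𝓞 K) K x) - algebraMap (𝓞 K) K x) < 1 :=
    fun x => (w.valuation_lt_one_iff_mem (K := K) (σ • x - x)).2 (hσ x)
  obtain ⟨n, d, e⟩ := w.exists_primeCompl_mul_eq_of_integer z hz
  have h1 : w.valuation K (σ (algebraMap (𝓞 K) K d)) = 1 := by
    rw [iso_VAL w hσ]
    exact w.valuation_eq_one_iff_notMem.2 d.2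
  have e1 : (σ z - z) * σ (algebraMap (𝓞 K) K d) =
      (σ (algebraMap (𝓞 K) K n) - algebraMap (𝓞 K) K n) -
        z * (σ (algebraMap (𝓞 K) K d) - algebraMap (𝓞 K) K d) := by
    rw [← e, map_mul]
    ring
  rw [← mul_one (w.valuation K (σ z - z)), ← h1, ← map_mul, e1, h1]
  refine (w.valuation K).map_sub_lt (h n) ?_
  rw [map_mul]
  exact lt_of_le_of_lt (mul_le_of_le_one_left' hz) (h d)

theorem VAL_pf : VAL_st := by
  intro K _ _ _ q hq
  have hp : Prime (q : ℤ) := Nat.prime_iff_prime_int.1 hq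
  have : (Ideal.span {(q : ℤ)}).IsMaximal :=
    ((Ideal.span_singleton_prime hp.ne_zero).2 hp).isMaximal (by simpa using hq.ne_zero)
  obtain ⟨P, hP, hl⟩ :=
    Ideal.exists_maximal_ideal_liesOver_of_isIntegral (S := 𝓞 K) (Ideal.span {(q : ℤ)})
  have hqP : (q : 𝓞 K) ∈ P := by
    have := (Ideal.mem_of_liesOver P (Ideal.span {(q : ℤ)}) (q : ℤ)).1
      (Ideal.mem_span_singleton_self _)
    rwa [map_natCast] at this
  obtain ⟨w, rfl⟩ : ∃ w : HeightOneSpectrum (𝓞 K), w.asIdeal = P := by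
    refine ⟨⟨P, hP.isPrime, fun h0 => ?_⟩, rfl⟩
    rw [h0, Ideal.mem_bot, Nat.cast_eq_zero] at hqP
    exact hq.ne_zero hqP
  have hs := WithZeroMulInt.toNNReal_strictMono (e := 2) one_lt_two
  generalize WithZeroMulInt.toNNReal (e := 2) _ = f at hs
  have hlt : w.valuation K (q : K) < 1 := by
    rw [← map_natCast (algebraMap (𝓞 K) K) q]
    exact (w.valuation_lt_one_iff_mem (K := K) (q : 𝓞 K)).2 hqP
  refine ⟨(w.valuation K).map f hs.monotone, w.asIdeal.inertia (K ≃ₐ[ℚ] K), ?_, fun σ hσ z => ?_,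
    fun σ hσ z hz => ?_, fun z hz h => ?_⟩
  · exact (hs hlt).trans_eq (map_one f)
  · exact congrArg f (iso_VAL w hσ z)
  · exact (hs (res_VAL w hσ z (hs.le_iff_le.1 (hz.trans_eq (map_one f).symm)))).trans_eq
      (map_one f)
  · obtain ⟨x, hx⟩ := ex_VAL (K := ℚ) w (y := z) fun σ hσ => h σ hσ
    have x0 : x ≠ 0 := fun h0 => by
      rw [h0, map_zero, map_zero] at hx
      exact hz ((w.valuation K).zero_iff.1 hx.symm)
    obtain ⟨j, hj⟩ := rat_VAL (w.valuation K) hq hlt x x0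
    refine ⟨j, ?_⟩
    show f (w.valuation K z) = f (w.valuation K (q : K)) ^ j
    rw [← hx, ← map_zpow₀, ← hj]
    rfl

end Pool.Agent.MP_9c0351_nt.Gal

end

section

set_option autoImplicit false

open Polynomial Filter
open scoped NNReal

namespace Pool.Agent.MP_9c0351_nt.Gal

theorem nat_le_GEO {K : Type} [Field K] (v : Valuation K ℝ≥0) (m : ℕ) : v (m : K) ≤ 1 := by
  induction m with
  | zero => simp
  | succ m ih =>
    push_cast
    exact v.map_add_le ih (by simp)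

theorem int_le_GEO {K : Type} [Field K] (v : Valuation K ℝ≥0) (m : ℤ) : v (m : K) ≤ 1 := by
  obtain ⟨k, rfl | rfl⟩ := m.eq_nat_or_neg
  · simpa using nat_le_GEO v k
  · simpa using nat_le_GEO v k

theorem nat_one_GEO {K : Type} [Field K] (v : Valuation K ℝ≥0) {q : ℕ} (hq : q.Prime)
    (hv : v (q : K) < 1) {m : ℕ} (hm : ¬ q ∣ m) : v (m : K) = 1 := by
  refine le_antisymm (nat_le_GEO v m) (not_lt.mp fun hlt => ?_)
  have hc : IsCoprime (q : ℤ) (m : ℤ) :=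
    Nat.isCoprime_iff_coprime.mpr ((Nat.Prime.coprime_iff_not_dvd hq).mpr hm)
  obtain ⟨a, b, hab⟩ := hc
  have h1 : (a : K) * q + (b : K) * m = 1 := by exact_mod_cast congrArg (Int.cast : ℤ → K) hab
  have h2 : v ((a : K) * q + (b : K) * m) < 1 := by
    refine v.map_add_lt ?_ ?_
    · rw [map_mul]
      exact mul_lt_one_of_nonneg_of_lt_one_right (int_le_GEO v a) zero_le hv
    · rw [map_mul]
      exact mul_lt_one_of_nonneg_of_lt_one_right (int_le_GEO v b) zero_le hlt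
  rw [h1, map_one] at h2
  exact lt_irrefl _ h2

theorem split_GEO {K : Type} [DecidableEq K] (S A : Finset K) (x1 : K) (hx1 : x1 ∈ S)
    (f : K → ℝ≥0) (h1 : 1 < f x1) (h : ∀ x ∈ S, x ≠ x1 → f x ≤ 1)
    (hA : ∀ x, x ∈ A ↔ x ∈ S ∧ f x < 1) : ∏ x ∈ S, f x = f x1 * ∏ x ∈ A, f x := by
  rw [← Finset.mul_prod_erase S f hx1]
  congr 1
  symm
  apply Finset.prod_subset
  · intro x hx
    obtain ⟨h2, h3⟩ := (hA x).mp hx
    refine Finset.mem_erase.mpr ⟨?_, h2⟩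
    rintro rfl
    exact lt_asymm h1 h3
  · intro x hx hn
    obtain ⟨h2, h3⟩ := Finset.mem_erase.mp hx
    exact le_antisymm (h x h3 h2) (not_lt.mp fun hlt => hn ((hA x).mpr ⟨h3, hlt⟩))

theorem count_GEO {K : Type} (A : Finset K) (f : K → ℝ≥0) (t : ℝ≥0) (N : ℕ) (ht0 : 0 < t)
    (ht1 : t < 1) (hp : ∏ x ∈ A, f x = t) (hf : ∀ x ∈ A, f x ^ N = t) : A.card = N := by
  have h1 : (∏ x ∈ A, f x) ^ N = t ^ A.card := by
    rw [← Finset.prod_pow, Finset.prod_congr rfl hf, Finset.prod_const]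
  rw [hp] at h1
  exact (pow_right_injective₀ ht0 ht1.ne h1).symm

theorem cancel_GEO {t p c : ℝ≥0} (ht : t ≠ 0) (h : c = t⁻¹ * p) : p = t * c := by
  rw [h, ← mul_assoc, mul_inv_cancel₀ ht, one_mul]

theorem GEO_pf (hGE1 : GE1_st) (hN1 : N1_st) (hNW : NW_st) (hWLD : WLD_st) : GEO_st := by
  intro K _ _ _ v n q R hn hq hq5 hv hEx hAlg
  obtain ⟨x0, hx0R, hx0, hunit⟩ := hGE1 K v n q R hn hq hq5 hv hEx hAlg
  have hq0 : (q : K) ≠ 0 := by exact_mod_cast hq.ne_zero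
  have ht0 : 0 < v (q : K) := v.pos_iff.mpr hq0
  have small : ∀ m : ℕ, 0 < m → m < 5 → v (m : K) = 1 := fun m h0 h5 =>
    nat_one_GEO v hq hv fun hd => by have := Nat.le_of_dvd h0 hd; omega
  have v2 : v (2 : K) = 1 := by simpa using small 2 (by norm_num) (by norm_num)
  have v3 : v (3 : K) = 1 := by simpa using small 3 (by norm_num) (by norm_num)
  have v4 : v (4 : K) = 1 := by simpa using small 4 (by norm_num) (by norm_num)
  have v6 : v (6 : K) = 1 := by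
    rw [show (6 : K) = 2 * 3 by norm_num, map_mul, v2, v3, one_mul]
  have vm : v ((n : K) - 1) = v (q : K) := by
    obtain ⟨⟨m, hm⟩, h2⟩ := hEx
    have hqm : ¬ q ∣ m := fun ⟨k, hk⟩ => h2 ⟨k, by rw [hm, hk]; ring⟩
    have e : (n : K) - 1 = (q : K) * (m : K) := by
      have : n = q * m + 1 := by omega
      rw [this]; push_cast; ring
    rw [e, map_mul, nat_one_GEO v hq hv hqm, mul_one]
  have vn : v (n : K) = 1 := by
    rw [show (n : K) = 1 + ((n : K) - 1) by ring]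
    exact v.map_one_add_of_lt (by rw [vm]; exact hv)
  have vp : v ((n : K) + 1) = 1 := by
    rw [show (n : K) + 1 = 2 + ((n : K) - 1) by ring, v.map_add_eq_of_lt_left, v2]
    rw [vm, v2]; exact hv
  have hx1R : x0⁻¹ ∈ R := hAlg.inv x0 hx0R
  have hx1 : v x0⁻¹ = (v (q : K))⁻¹ := by rw [map_inv₀, hx0]
  have hbig : 1 < (v (q : K))⁻¹ := one_lt_inv_iff₀.mpr ⟨ht0, hv⟩
  have hle : ∀ x ∈ R, x ≠ x0⁻¹ → v x ≤ 1 := by
    intro x hx h1
    by_cases h0 : x = x0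
    · rw [h0, hx0]; exact hv.le
    · exact (hunit x hx h0 h1).le
  have one_of_A : ∀ x : K, v (x - 1) < 1 → v x = 1 := by
    intro x hx
    rw [show x = 1 + (x - 1) by ring]
    exact v.map_one_add_of_lt hx
  have one_of_B : ∀ x : K, v (x + 1) < 1 → v x = 1 := by
    intro x hx
    rw [← v.map_neg, show -x = 1 - (x + 1) by ring]
    exact v.map_one_sub_of_lt hx
  have vA : ∀ x ∈ R, v (x - 1) < 1 → v (x - 1) ^ (q - 3) = v (q : K) := fun x hx h =>
    hN1 K v n q x hn hq hq5 hv (Or.inl hEx) ((hAlg.mem x).mp hx).1 ((hAlg.mem x).mp hx).2.1 h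
  have pA : ∀ A : Finset K, (∀ x, x ∈ A ↔ x ∈ R ∧ v (x - 1) < 1) →
      ∏ x ∈ A, v (x - 1) = v (q : K) := by
    intro A hA
    have e1 : v (x0⁻¹ - 1) = (v (q : K))⁻¹ := by
      rw [v.map_sub_eq_of_lt_left, hx1]
      rw [hx1, map_one]; exact hbig
    have h1 := split_GEO R A x0⁻¹ hx1R (fun x => v (x - 1)) (by rw [e1]; exact hbig)
      (fun x hx h => v.map_sub_le (hle x hx h) (by simp)) hA
    rw [← map_prod, hAlg.p1, e1] at h1
    have e2 : v ((f1 n : ℚ) : K) = 1 := by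
      unfold f1
      push_cast
      rw [map_div₀, map_mul, map_mul, map_pow, vn, vp, v6, v2]
      simp
    rw [e2] at h1
    simpa using cancel_GEO ht0.ne' h1
  have cA : ∀ A : Finset K, (∀ x, x ∈ A ↔ x ∈ R ∧ v (x - 1) < 1) → A.card = q - 3 :=
    fun A hA => count_GEO A (fun x => v (x - 1)) _ _ ht0 hv (pA A hA)
      fun x hx => vA x ((hA x).mp hx).1 ((hA x).mp hx).2
  have pB : ∀ A : Finset K, (∀ x, x ∈ A ↔ x ∈ R ∧ v (x + 1) < 1) →
      ∏ x ∈ A, v (x + 1) = v (q : K) * v ((fm n : ℚ) : K) := by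
    intro A hA
    have e1 : v (x0⁻¹ + 1) = (v (q : K))⁻¹ := by
      rw [v.map_add_eq_of_lt_left, hx1]
      rw [hx1, map_one]; exact hbig
    have h1 := split_GEO R A x0⁻¹ hx1R (fun x => v (x + 1)) (by rw [e1]; exact hbig)
      (fun x hx h => v.map_add_le (hle x hx h) (by simp)) hA
    rw [← map_prod, hAlg.pm, e1] at h1
    exact cancel_GEO ht0.ne' h1
  have noB : n % 2 = 0 → ∀ x ∈ R, ¬ v (x + 1) < 1 := by
    intro h0 x hx hlt
    have e2 : v ((fm n : ℚ) : K) = (v (q : K))⁻¹ := by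
      unfold fm
      rw [if_neg (by omega)]
      push_cast
      rw [map_div₀, map_mul, vn, v2, vm]
      simp
    have h1 := pB (R.filter fun x => v (x + 1) < 1) fun x => Finset.mem_filter
    rw [e2, mul_inv_cancel₀ ht0.ne'] at h1
    have h2 : ∏ x ∈ R.filter fun x => v (x + 1) < 1, v (x + 1) <
        ∏ _x ∈ R.filter fun x => v (x + 1) < 1, (1 : ℝ≥0) := by
      refine Finset.prod_lt_prod (fun y hy => v.pos_iff.mpr fun h => ?_)
        (fun y hy => (Finset.mem_filter.mp hy).2.le) ⟨x, Finset.mem_filter.mpr ⟨hx, hlt⟩, hlt⟩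
      exact ((hAlg.mem y).mp (Finset.mem_filter.mp hy).1).2.2 (eq_neg_of_add_eq_zero_left h)
    rw [h1, Finset.prod_const_one] at h2
    exact lt_irrefl _ h2
  have vB : ∀ x ∈ R, v (x + 1) < 1 → v (x + 1) ^ (q - 1) = v (q : K) := by
    intro x hx hlt
    rcases Nat.mod_two_eq_zero_or_one n with h0 | h1
    · exact absurd hlt (noB h0 x hx)
    · have hodd : Odd n := Nat.odd_iff.mpr h1
      have hS : Sv n (-1 : K) = 0 := by
        unfold Sv
        rw [pow_succ, hodd.neg_one_pow]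
        ring
      have e : v (-1 - x) = v (x + 1) := by
        rw [← v.map_neg]; congr 1; ring
      have := hNW K v n q (-1) x hn hq hq5 hv hEx hS ((hAlg.mem x).mp hx).1 (by simp)
        (by rw [show (-1 - 1 : K) = -2 by ring, v.map_neg, v2]) (by rw [e]; exact hlt)
        ((hAlg.mem x).mp hx).2.2.symm
      rwa [e] at this
  have cB : ∀ A : Finset K, (∀ x, x ∈ A ↔ x ∈ R ∧ v (x + 1) < 1) →
      A.card = (q - 1) * (n % 2) := by
    intro A hA
    rcases Nat.mod_two_eq_zero_or_one n with h0 | h1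
    · rw [h0, mul_zero, Finset.card_eq_zero, Finset.eq_empty_iff_forall_notMem]
      exact fun x hx => noB h0 x ((hA x).mp hx).1 ((hA x).mp hx).2
    · have e2 : v ((fm n : ℚ) : K) = 1 := by
        unfold fm
        rw [if_pos h1]
        push_cast
        rw [map_div₀, vp, v4]
        simp
      have h2 := pB A hA
      rw [e2, mul_one] at h2
      rw [h1, mul_one]
      exact count_GEO A (fun x => v (x + 1)) _ _ ht0 hv h2
        fun x hx => vB x ((hA x).mp hx).1 ((hA x).mp hx).2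
  refine ⟨x0, hx0R, by rw [hx0]; exact hv, hunit, cA _ fun x => Finset.mem_filter,
    cB _ fun x => Finset.mem_filter, vA, vB, fun x hx h1 h2 h3 =>
      (hWLD K v n q x hn hq hq5 hv ((hAlg.mem x).mp hx).1 h1 h2 h3).1 hEx, ?_,
    fun x hx x' hx' h1 h2 h3 h4 => hNW K v n q x x' hn hq hq5 hv hEx ((hAlg.mem x).mp hx).1
      ((hAlg.mem x').mp hx').1 h1 h2 h3 h4⟩
  intro x hx x' hx' hxA hxA' hne
  obtain ⟨A, hA⟩ : ∃ A : Finset K, ∀ y, y ∈ A ↔ y ∈ R ∧ v (y - 1) < 1 :=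
    ⟨R.filter fun y => v (y - 1) < 1, fun y => Finset.mem_filter⟩
  have hvx := one_of_A x hxA
  have ha0 : 0 < v (x - 1) := v.pos_iff.mpr (sub_ne_zero.mpr ((hAlg.mem x).mp hx).2.1)
  have hx1x : x0⁻¹ ≠ x := by
    intro h
    rw [h, hvx] at hx1
    rw [← hx1] at hbig
    exact lt_irrefl _ hbig
  have e1 : v (x - x0⁻¹) = (v (q : K))⁻¹ := by
    rw [v.map_sub_eq_of_lt_right, hx1]
    rw [hx1, hvx]; exact hbig
  have h1 := split_GEO (R.erase x) (A.erase x) x0⁻¹ (Finset.mem_erase.mpr ⟨hx1x, hx1R⟩)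
    (fun y => v (x - y)) (by rw [e1]; exact hbig)
    (fun y hy h => v.map_sub_le hvx.le (hle y (Finset.mem_erase.mp hy).2 h)) (by
      intro y
      rw [Finset.mem_erase, Finset.mem_erase, hA, and_assoc]
      refine and_congr_right fun _ => and_congr_right fun _ => ⟨fun h => ?_, fun h => ?_⟩
      · rw [show x - y = (x - 1) - (y - 1) by ring]
        exact v.map_sub_lt hxA h
      · rw [show y - 1 = (x - 1) - (x - y) by ring]
        exact v.map_sub_lt hxA h)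
  have h2 := congrArg v (hAlg.der x hx)
  have e3 : v (((n : K) - 1) * x - ((n : K) + 1)) = 1 := by
    rw [v.map_sub_eq_of_lt_right, vp]
    rw [map_mul, vm, hvx, vp, mul_one]; exact hv
  have e4 : v (x + 1) = 1 := by
    rw [show x + 1 = 2 + (x - 1) by ring, v.map_add_eq_of_lt_left, v2]
    rw [v2]; exact hxA
  rw [map_mul, map_mul, map_mul, map_mul, map_pow, map_prod, h1, e1, hvx, e3, e4, v.map_neg,
    map_mul, vn, vp, one_pow, mul_one, mul_one, mul_one, mul_one, mul_assoc] at h2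
  have h3 := cancel_GEO ht0.ne' h2.symm
  have hxm : x ∈ A := (hA x).mpr ⟨hx, hxA⟩
  have h4 : ∏ y ∈ A.erase x, v (x - y) = ∏ _y ∈ A.erase x, v (x - 1) := by
    apply mul_right_cancel₀ ha0.ne'
    rw [h3, mul_one, Finset.prod_const, ← pow_succ, Finset.card_erase_add_one hxm, cA A hA,
      vA x hx hxA]
  have hle' : ∀ y ∈ A.erase x, v (x - y) ≤ v (x - 1) := by
    intro y hy
    obtain ⟨hyR, hyA⟩ := (hA y).mp (Finset.mem_erase.mp hy).2
    have e : v (y - 1) = v (x - 1) :=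
      (pow_left_inj₀ zero_le zero_le (show q - 3 ≠ 0 by omega)).mp
        ((vA y hyR hyA).trans (vA x hx hxA).symm)
    rw [show x - y = (x - 1) - (y - 1) by ring]
    exact v.map_sub_le le_rfl e.le
  have hm' : x' ∈ A.erase x := Finset.mem_erase.mpr ⟨hne.symm, (hA x').mpr ⟨hx', hxA'⟩⟩
  refine le_antisymm (hle' x' hm') (not_lt.mp fun hlt => ?_)
  have h5 := Finset.prod_lt_prod (s := A.erase x) (f := fun y => v (x - y))
    (g := fun _ => v (x - 1))
    (fun y hy => v.pos_iff.mpr (sub_ne_zero.mpr (Finset.mem_erase.mp hy).1.symm)) hle'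
    ⟨x', hm', hlt⟩
  exact absurd h4 h5.ne

end Pool.Agent.MP_9c0351_nt.Gal

end

section

/-! Arithmetic of block systems. -/

set_option autoImplicit false

open Polynomial Filter
open scoped NNReal

namespace Pool.Agent.MP_9c0351_nt.Gal

theorem dvd_ARI {Q x : ℕ} (hQ : Squarefree Q) (h : ∀ q : ℕ, q.Prime → q ∣ Q → q ∣ x) : Q ∣ x := by
  rw [← Nat.prod_primeFactors_of_squarefree hQ]
  exact Finset.prod_primes_dvd x (fun p hp => (Nat.prime_of_mem_primeFactors hp).prime)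
    fun p hp => h p (Nat.prime_of_mem_primeFactors hp) (Nat.dvd_of_mem_primeFactors hp)

theorem abs_ARI {Q Δ x y B : ℤ} (hQ : 0 ≤ Q) (hΔ : Δ ≠ 0) (h : Q * Δ = x - y) (hx : 0 ≤ x)
    (hy : 0 ≤ y) (hx' : 4 * x ≤ B) (hy' : 4 * y ≤ B) : 4 * Q ≤ B := by
  rcases lt_or_gt_of_ne hΔ with h1 | h1 <;> nlinarith

theorem odd_ARI {a β Q1 Q2 E u u' t t' : ℤ} (ha : 1 ≤ a) (hβ : 2 ≤ β) (hQ1 : 0 < Q1)
    (hQ2 : 0 < Q2) (hE : 0 < E) (h : Q1 * Q2 * E = 2 * ((a + 2) * β) + 2)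
    (h1 : a + 1 = Q1 * u) (h2 : β + 1 = Q1 * u') (h3 : a = Q2 * t) (h4 : 2 * β + 1 = Q2 * t')
    (hlt : 4 * E ^ 3 < Q1 * Q2 * E) : a = 2 * β + 1 := by
  have hQ := mul_pos hQ1 hQ2
  have pu : 0 < u := pos_of_mul_pos_left (a := u) (b := Q1) (by linarith) hQ1.le
  have pu' : 0 < u' := pos_of_mul_pos_left (a := u') (b := Q1) (by linarith) hQ1.le
  have pt : 0 < t := pos_of_mul_pos_left (a := t) (b := Q2) (by linarith) hQ2.le
  have pt' : 0 < t' := pos_of_mul_pos_left (a := t') (b := Q2) (by linarith) hQ2.le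
  have e1 : Q1 * Q2 * (u * t') = (a + 1) * (2 * β + 1) := by rw [h1, h4]; ring
  have e2 : Q1 * Q2 * (u' * t) = a * (β + 1) := by rw [h2]; nth_rw 1 [h3]; ring
  have hab : 2 * a ≤ a * β := by nlinarith
  have b1 : 4 * (u * t') ≤ 5 * E := le_of_mul_le_mul_left (by nlinarith) hQ
  have b2 : 4 * (u' * t) ≤ 3 * E := le_of_mul_le_mul_left (by nlinarith) hQ
  have d1 : Q1 * (u * t' - 2 * (u' * t)) = t' - t :=
    mul_left_cancel₀ hQ2.ne' (by linear_combination e1 - 2 * e2 + h4 - h3)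
  have d2 : Q2 * (u * t' - 2 * (u' * t)) = 2 * u' - u :=
    mul_left_cancel₀ hQ1.ne' (by linear_combination e1 - 2 * e2 + 2 * h2 - h1)
  by_cases hΔ : u * t' - 2 * (u' * t) = 0
  · rw [hΔ, mul_zero] at d1
    rw [h3, h4, show t = t' by linarith]
  · exfalso
    have c1 : 4 * Q1 ≤ 5 * E := abs_ARI hQ1.le hΔ d1 pt'.le pt.le (by nlinarith) (by nlinarith)
    have c2 : 4 * Q2 ≤ 6 * E :=
      abs_ARI hQ2.le hΔ d2 (by linarith) pu.le (by nlinarith) (by nlinarith)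
    have c3 : 4 * Q1 * (4 * Q2) ≤ 5 * E * (6 * E) := mul_le_mul c1 c2 (by linarith) (by linarith)
    have c4 : 16 * (Q1 * Q2) * E ≤ 30 * E ^ 2 * E :=
      mul_le_mul_of_nonneg_right (by linarith) hE.le
    have c5 : 0 < E ^ 3 := by positivity
    nlinarith

theorem ARI_pf : ARI_st := by
  intro n s β Q E hn hd hβ hs hQE hlt hQ hpr hq
  have hE : 0 < E := Nat.pos_of_ne_zero fun h => by
    rw [h, mul_zero] at hQE
    omega
  have hQ0 : 0 < Q := Nat.pos_of_ne_zero hQ.ne_zero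
  have c : ∀ q : ℕ, (q : ℤ) ∣ 2 * (β : ℤ) + 1 → q ∣ 2 * β + 1 := fun q h => by exact_mod_cast h
  rcases Nat.mod_two_eq_zero_or_one n with h0 | h0
  · exfalso
    obtain ⟨a, rfl⟩ : ∃ a, s = a + 1 := ⟨s - 1, by omega⟩
    have h1 : Q ∣ a := dvd_ARI hQ fun q h h' => by
      have := ((hq q h h').1 h0).1
      push_cast at this
      rw [add_sub_cancel_right] at this
      exact_mod_cast this
    have h2 : Q ∣ 2 * β + 1 := dvd_ARI hQ fun q h h' => c q ((hq q h h').1 h0).2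
    have h3 : Q * Q ≤ a * (2 * β + 1) :=
      Nat.mul_le_mul (Nat.le_of_dvd (by omega) h1) (Nat.le_of_dvd (by omega) h2)
    have h4 : Q * E = 2 * ((a + 1) * β) + 1 := by omega
    have h5 : Q ≤ 2 * E := Nat.le_of_mul_le_mul_left (by nlinarith) hQ0
    have h6 : Q * E ≤ 2 * E * E := Nat.mul_le_mul_right E h5
    have h7 : E * E ≤ E ^ 3 := by
      rw [pow_succ, pow_two]
      exact Nat.le_mul_of_pos_right _ hE
    rw [hQE] at hlt
    nlinarith
  · refine ⟨h0, ?_⟩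
    by_contra hs2
    obtain ⟨a, rfl⟩ : ∃ a, s = a + 2 := ⟨s - 2, by omega⟩
    obtain ⟨Q1, hQ1⟩ : ∃ Q1, Q1 = Nat.gcd Q (Nat.gcd (a + 1) (β + 1)) := ⟨_, rfl⟩
    obtain ⟨Q2, hQ2⟩ : Q1 ∣ Q := hQ1 ▸ Nat.gcd_dvd_left _ _
    obtain ⟨u, hu⟩ : Q1 ∣ a + 1 := hQ1 ▸ (Nat.gcd_dvd_right _ _).trans (Nat.gcd_dvd_left _ _)
    obtain ⟨u', hu'⟩ : Q1 ∣ β + 1 := hQ1 ▸ (Nat.gcd_dvd_right _ _).trans (Nat.gcd_dvd_right _ _)
    have hsq : Squarefree (Q1 * Q2) := hQ2 ▸ hQ
    rw [Nat.squarefree_mul_iff] at hsq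
    have key : ∀ q : ℕ, q.Prime → q ∣ Q2 → q ∣ a ∧ q ∣ 2 * β + 1 := by
      intro q h h'
      have hqQ : q ∣ Q := hQ2 ▸ h'.mul_left Q1
      rcases (hq q h hqQ).2 h0 with ⟨h1, h2⟩ | ⟨h1, h2⟩
      · exfalso
        have h3 : q ∣ a + 1 := by
          rw [show ((a + 2 : ℕ) : ℤ) - 1 = ((a + 1 : ℕ) : ℤ) by push_cast; ring] at h1
          exact_mod_cast h1
        have h4 : q ∣ β + 1 := by exact_mod_cast h2
        have h5 : q ∣ Q1 := hQ1 ▸ Nat.dvd_gcd hqQ (Nat.dvd_gcd h3 h4)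
        exact h.one_lt.ne' (Nat.eq_one_of_dvd_coprimes hsq.1 h5 h')
      · refine ⟨?_, c q h2⟩
        rw [show ((a + 2 : ℕ) : ℤ) - 2 = (a : ℤ) by push_cast; ring] at h1
        exact_mod_cast h1
    obtain ⟨t, ht⟩ : Q2 ∣ a := dvd_ARI hsq.2.2 fun q h h' => (key q h h').1
    obtain ⟨t', ht'⟩ : Q2 ∣ 2 * β + 1 := dvd_ARI hsq.2.2 fun q h h' => (key q h h').2
    have h4 : Q1 * Q2 * E = 2 * ((a + 2) * β) + 2 := by
      rw [← hQ2]
      omega
    rw [hQE, hQ2] at hlt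
    have h5 : (a : ℤ) = 2 * β + 1 := odd_ARI (Q1 := Q1) (Q2 := Q2) (E := E) (u := u) (u' := u')
      (t := t) (t' := t') (by omega) (by omega)
      (by exact_mod_cast Nat.pos_of_ne_zero hsq.2.1.ne_zero)
      (by exact_mod_cast Nat.pos_of_ne_zero hsq.2.2.ne_zero) (by exact_mod_cast hE)
      (by exact_mod_cast h4) (by exact_mod_cast hu) (by exact_mod_cast hu') (by exact_mod_cast ht)
      (by exact_mod_cast ht') (by exact_mod_cast hlt)
    have h6 : a = 2 * β + 1 := by exact_mod_cast h5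
    refine hpr (2 * β + 1) ?_
    rw [hQE, hQ2, h4, h6]
    ring

end Pool.Agent.MP_9c0351_nt.Gal

end

section

set_option autoImplicit false

open Polynomial Filter
open scoped NNReal

namespace Pool.Agent.MP_9c0351_nt.Gal

open Classical in
/-- the number of `m ≤ N` with `P m` -/
noncomputable def cnt_SIE (P : ℕ → Prop) (N : ℕ) : ℝ :=
  ∑ m ∈ Finset.range (N + 1), if P m then 1 else 0

theorem dvd_SIE (P : ℕ → Prop) {d : ℕ} (hd : 0 < d) (h : ∀ j, P (d * j) ↔ P j) (N : ℕ) :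
    cnt_SIE (fun m => d ∣ m ∧ P m) N = cnt_SIE P (N / d) := by
  classical
  unfold cnt_SIE
  symm
  refine Finset.sum_bij_ne_zero (fun j _ _ => d * j) (fun j hj _ => ?_)
    (fun a _ _ b _ _ e => Nat.eq_of_mul_eq_mul_left hd e) (fun m hm h0 => ?_) (fun j _ _ => ?_)
  · rw [Finset.mem_range, Nat.lt_succ_iff] at hj ⊢
    rw [mul_comm]; exact (Nat.le_div_iff_mul_le hd).1 hj
  · have h1 : d ∣ m ∧ P m := by
      by_contra h1; exact h0 (if_neg h1)
    obtain ⟨⟨j, rfl⟩, h2⟩ := h1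
    rw [Finset.mem_range, Nat.lt_succ_iff] at hm
    refine ⟨j, ?_, ?_, rfl⟩
    · rw [Finset.mem_range, Nat.lt_succ_iff, Nat.le_div_iff_mul_le hd, mul_comm]; exact hm
    · rw [if_pos ((h j).1 h2)]; exact one_ne_zero
  · by_cases h1 : P j
    · rw [if_pos h1, if_pos ⟨dvd_mul_right _ _, (h j).2 h1⟩]
    · rw [if_neg h1, if_neg fun h2 => h1 ((h j).1 h2.2)]

theorem split_SIE (P : ℕ → Prop) (q N : ℕ) :
    cnt_SIE (fun m => ¬ Ex q m ∧ P m) N = cnt_SIE P N - cnt_SIE (fun m => q ∣ m ∧ P m) N +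
      cnt_SIE (fun m => q ^ 2 ∣ m ∧ P m) N := by
  unfold cnt_SIE
  rw [← Finset.sum_sub_distrib, ← Finset.sum_add_distrib]
  refine Finset.sum_congr rfl fun m _ => ?_
  have h : q ^ 2 ∣ m → q ∣ m := fun h => (dvd_pow_self q two_ne_zero).trans h
  by_cases h1 : P m <;> by_cases h2 : q ∣ m <;> by_cases h3 : q ^ 2 ∣ m <;>
    simp [Ex, h1, h2, h3]
  exact h2 (h h3)

theorem ex_SIE {p d : ℕ} (h : Nat.Coprime p d) (j : ℕ) : Ex p (d * j) ↔ Ex p j := by
  unfold Ex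
  rw [h.dvd_mul_left, (Nat.Coprime.pow_left 2 h).dvd_mul_left]

theorem fl_SIE {d : ℕ} (hd : 0 < d) (N : ℕ) : |((N / d : ℕ) : ℝ) - (N : ℝ) / d| ≤ 1 := by
  have h1 : ((N / d : ℕ) : ℝ) ≤ (N : ℝ) / d := Nat.cast_div_le
  have h2 : (N : ℝ) / d < ((N / d : ℕ) : ℝ) + 1 := by
    rw [div_lt_iff₀ (by exact_mod_cast hd)]
    have := Nat.lt_mul_div_succ N hd
    rw [mul_comm] at this
    exact_mod_cast this
  rw [abs_le]; constructor <;> linarith

theorem dens_SIE (F : Finset ℕ) (hF : ∀ q ∈ F, q.Prime) : ∃ C : ℝ, ∀ N : ℕ,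
    |cnt_SIE (fun m => ∀ q ∈ F, ¬ Ex q m) N -
      (∏ q ∈ F, (1 - 1 / (q : ℝ) + 1 / (q : ℝ) ^ 2)) * N| ≤ C := by
  induction F using Finset.induction_on with
  | empty => exact ⟨1, fun N => by simp [cnt_SIE]⟩
  | insert q F hq ih =>
    obtain ⟨C, hC⟩ := ih fun p hp => hF p (Finset.mem_insert_of_mem hp)
    have hp := hF q (Finset.mem_insert_self _ _)
    have hc : ∀ p ∈ F, Nat.Coprime p q := fun p h =>
      (Nat.coprime_primes (hF p (Finset.mem_insert_of_mem h)) hp).2 fun e => hq (e ▸ h)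
    rw [Finset.prod_insert hq]
    generalize (∏ q ∈ F, (1 - 1 / (q : ℝ) + 1 / (q : ℝ) ^ 2)) = δ at hC
    refine ⟨3 * C + 2 * |δ|, fun N => ?_⟩
    have key : ∀ d : ℕ, 0 < d → (∀ p ∈ F, Nat.Coprime p d) →
        |cnt_SIE (fun m => d ∣ m ∧ ∀ p ∈ F, ¬ Ex p m) N - δ * ((N : ℝ) / d)| ≤ C + |δ| := by
      intro d hd h
      rw [dvd_SIE _ hd fun j => forall₂_congr fun p hp => not_congr (ex_SIE (h p hp) j)]
      have h1 := hC (N / d)
      have h2 : |δ * (((N / d : ℕ) : ℝ) - (N : ℝ) / d)| ≤ |δ| := by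
        rw [abs_mul]; exact mul_le_of_le_one_right (abs_nonneg _) (fl_SIE hd N)
      rw [abs_le] at h1 h2 ⊢
      constructor <;> linarith [h1.1, h1.2, h2.1, h2.2]
    have e : (fun m => ∀ p ∈ insert q F, ¬ Ex p m) = fun m => ¬ Ex q m ∧ ∀ p ∈ F, ¬ Ex p m :=
      funext fun m => propext (Finset.forall_mem_insert q F _)
    have h0 := hC N
    have h1 := key q hp.pos hc
    have h2 := key (q ^ 2) (pow_pos hp.pos 2) fun p h => (hc p h).pow_right 2
    rw [e, split_SIE]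
    push_cast at h2
    have e2 : (1 - 1 / (q : ℝ) + 1 / (q : ℝ) ^ 2) * δ * N =
        δ * N - δ * ((N : ℝ) / q) + δ * ((N : ℝ) / (q : ℝ) ^ 2) := by ring
    rw [e2]
    rw [abs_le] at h0 h1 h2 ⊢
    constructor <;> linarith [h0.1, h0.2, h1.1, h1.2, h2.1, h2.2]

theorem prod_SIE (F : Finset ℕ) (hF : ∀ q ∈ F, q.Prime) :
    ∏ q ∈ F, (1 - 1 / (q : ℝ) + 1 / (q : ℝ) ^ 2) ≤ Real.exp (-(∑ q ∈ F, 1 / (q : ℝ)) / 2) := by
  rw [← Finset.sum_neg_distrib, Finset.sum_div, Real.exp_sum]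
  refine Finset.prod_le_prod (fun q hq => ?_) fun q hq => ?_
  all_goals
    have h2 : (2 : ℝ) ≤ q := by exact_mod_cast (hF q hq).two_le
    have h3 : 1 / (q : ℝ) ≤ 1 / 2 := one_div_le_one_div_of_le two_pos h2
    have h4 : 0 ≤ 1 / (q : ℝ) := by positivity
    rw [← one_div_pow]
  · nlinarith [sq_nonneg (1 / (q : ℝ))]
  · refine le_trans ?_ (Real.add_one_le_exp _)
    nlinarith

theorem SIE_pf : SIE_st := by
  classical
  intro S hS hn ε hε
  have h1 : ∃ u : Finset ℕ, 4 / ε < ∑ q ∈ u, if q ∈ S then (1 : ℝ) / q else 0 := by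
    by_contra h
    push Not at h
    exact hn (summable_of_sum_le (fun q => by
      show (0 : ℝ) ≤ if q ∈ S then (1 : ℝ) / q else 0
      split_ifs <;> positivity) h)
  obtain ⟨u, hu⟩ := h1
  rw [← Finset.sum_filter] at hu
  have hF : ∀ q ∈ u.filter (· ∈ S), q ∈ S := fun q hq => (Finset.mem_filter.1 hq).2
  generalize u.filter (· ∈ S) = F at hu hF
  refine ⟨F, hF, ?_⟩
  obtain ⟨C, hC⟩ := dens_SIE F fun q hq => hS q (hF q hq)
  have h2 := prod_SIE F fun q hq => hS q (hF q hq)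
  have h3 : Real.exp (-(∑ q ∈ F, 1 / (q : ℝ)) / 2) ≤ ε / 2 := by
    have h4 := Real.add_one_le_exp ((∑ q ∈ F, 1 / (q : ℝ)) / 2)
    rw [neg_div, Real.exp_neg, inv_le_comm₀ (Real.exp_pos _) (by positivity), inv_div]
    have : 2 / ε = 4 / ε / 2 := by ring
    linarith
  filter_upwards [tendsto_natCast_atTop_atTop (R := ℝ).eventually_ge_atTop (2 * C / ε)] with N hN
  have e : (Set.ncard {m : ℕ | m ≤ N ∧ ∀ q ∈ F, ¬ Ex q m} : ℝ) =
      cnt_SIE (fun m => ∀ q ∈ F, ¬ Ex q m) N := by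
    have : {m : ℕ | m ≤ N ∧ ∀ q ∈ F, ¬ Ex q m} =
        ↑((Finset.range (N + 1)).filter fun m => ∀ q ∈ F, ¬ Ex q m) := by
      ext m; simp [Nat.lt_succ_iff]
    rw [this, Set.ncard_coe_finset, Finset.card_filter, cnt_SIE]
    push_cast
    exact Finset.sum_congr rfl fun m _ => by split_ifs <;> rfl
  rw [e]
  have h5 := (abs_le.1 (hC N)).2
  rw [div_le_iff₀ hε] at hN
  have h6 := mul_le_mul_of_nonneg_right (h2.trans h3) (Nat.cast_nonneg (α := ℝ) N)
  linarith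

end Pool.Agent.MP_9c0351_nt.Gal

end

section

/-! The arithmetic condition `Good` holds on a set of density one. -/

set_option autoImplicit false

open Polynomial Filter
open scoped NNReal

namespace Pool.Agent.MP_9c0351_nt.Gal

/-- upper density at most `ε` -/
def Sm_DEN (ε : ℝ) (P : ℕ → Prop) : Prop :=
  ∀ᶠ N : ℕ in atTop, (Set.ncard {m : ℕ | m ≤ N ∧ P m} : ℝ) ≤ ε * N

theorem fin_DEN (N : ℕ) (P : ℕ → Prop) : {m : ℕ | m ≤ N ∧ P m}.Finite :=
  (Set.finite_Iic N).subset fun _ h => h.1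

theorem mono_DEN {ε : ℝ} {P Q : ℕ → Prop} (h : Sm_DEN ε Q) (hPQ : ∀ m, P m → Q m) :
    Sm_DEN ε P := by
  filter_upwards [h] with N hN
  refine le_trans ?_ hN
  have h1 : {m : ℕ | m ≤ N ∧ P m} ⊆ {m : ℕ | m ≤ N ∧ Q m} := fun m hm => ⟨hm.1, hPQ m hm.2⟩
  have h2 := Set.ncard_le_ncard h1 (fin_DEN N Q)
  exact_mod_cast h2

theorem or_DEN {ε δ : ℝ} {P Q : ℕ → Prop} (hP : Sm_DEN ε P) (hQ : Sm_DEN δ Q) :
    Sm_DEN (ε + δ) fun m => P m ∨ Q m := by
  filter_upwards [hP, hQ] with N h1 h2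
  have h3 : {m : ℕ | m ≤ N ∧ (P m ∨ Q m)} = {m : ℕ | m ≤ N ∧ P m} ∪ {m : ℕ | m ≤ N ∧ Q m} := by
    ext m
    simp only [Set.mem_ofPred_eq, Set.mem_union]
    tauto
  have h4 : (Set.ncard ({m : ℕ | m ≤ N ∧ P m} ∪ {m : ℕ | m ≤ N ∧ Q m}) : ℝ) ≤
      (Set.ncard {m : ℕ | m ≤ N ∧ P m} : ℝ) + (Set.ncard {m : ℕ | m ≤ N ∧ Q m} : ℝ) := by
    exact_mod_cast Set.ncard_union_le _ _
  rw [h3]
  linarith

theorem pred_DEN {ε : ℝ} {P : ℕ → Prop} (hP : Sm_DEN ε P) :
    Sm_DEN ε fun m => 1 ≤ m ∧ P (m - 1) := by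
  filter_upwards [hP] with N h1
  refine le_trans ?_ h1
  have h2 : Set.ncard {m : ℕ | m ≤ N ∧ (1 ≤ m ∧ P (m - 1))} ≤ Set.ncard {m : ℕ | m ≤ N ∧ P m} := by
    refine Set.ncard_le_ncard_of_injOn (fun m => m - 1) ?_ ?_ (fin_DEN N P)
    · intro m hm
      exact ⟨le_trans (Nat.sub_le m 1) hm.1, hm.2.2⟩
    · intro m hm m' hm' h
      have h3 := hm.2.1
      have h4 := hm'.2.1
      have h5 : m - 1 = m' - 1 := h
      omega
  exact_mod_cast h2

theorem succ_DEN {ε : ℝ} {P : ℕ → Prop} (hε : 0 ≤ ε) (hP : Sm_DEN ε P) :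
    Sm_DEN (2 * ε) fun m => P (m + 1) := by
  have h0 := (tendsto_add_atTop_nat 1).eventually hP
  filter_upwards [h0, eventually_ge_atTop 1] with N h1 hN
  have h2 : Set.ncard {m : ℕ | m ≤ N ∧ P (m + 1)} ≤ Set.ncard {m : ℕ | m ≤ N + 1 ∧ P m} := by
    refine Set.ncard_le_ncard_of_injOn (fun m => m + 1) ?_ ?_ (fin_DEN (N + 1) P)
    · intro m hm
      exact ⟨Nat.add_le_add_right hm.1 1, hm.2⟩
    · intro m _ m' _ h
      exact Nat.add_right_cancel h
  have h3 : (Set.ncard {m : ℕ | m ≤ N ∧ P (m + 1)} : ℝ) ≤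
      Set.ncard {m : ℕ | m ≤ N + 1 ∧ P m} := by exact_mod_cast h2
  have h4 : (1 : ℝ) ≤ N := by exact_mod_cast hN
  have h5 : ε * 1 ≤ ε * N := mul_le_mul_of_nonneg_left h4 hε
  push_cast at h1
  linarith

theorem lt_DEN {ε : ℝ} (hε : 0 < ε) (n0 : ℕ) : Sm_DEN ε fun m => m < n0 := by
  filter_upwards [eventually_ge_atTop ⌈(n0 : ℝ) / ε⌉₊] with N hN
  have h1 : Set.ncard {m : ℕ | m ≤ N ∧ m < n0} ≤ n0 := by
    have h2 : {m : ℕ | m ≤ N ∧ m < n0} ⊆ ((Finset.range n0 : Finset ℕ) : Set ℕ) := by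
      intro m hm
      simpa using hm.2
    have h3 := Set.ncard_le_ncard h2 (Finset.finite_toSet _)
    rwa [Set.ncard_coe_finset, Finset.card_range] at h3
  have h2 : (n0 : ℝ) / ε ≤ N := Nat.ceil_le.1 hN
  rw [div_le_iff₀ hε] at h2
  have h3 : (Set.ncard {m : ℕ | m ≤ N ∧ m < n0} : ℝ) ≤ n0 := by exact_mod_cast h1
  linarith

theorem pron_DEN {ε : ℝ} (hε : 0 < ε) : Sm_DEN ε fun m => ∃ j, m = j * (j + 1) := by
  filter_upwards [eventually_ge_atTop ((⌈2 / ε⌉₊ + 1) * (⌈2 / ε⌉₊ + 1))] with N hN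
  have hs : ⌈2 / ε⌉₊ + 1 ≤ Nat.sqrt N := Nat.le_sqrt.2 hN
  have h1 : Set.ncard {m : ℕ | m ≤ N ∧ ∃ j, m = j * (j + 1)} ≤ Nat.sqrt N + 1 := by
    have h2 : {m : ℕ | m ≤ N ∧ ∃ j, m = j * (j + 1)} ⊆
        (((Finset.range (Nat.sqrt N + 1)).image fun j => j * (j + 1) : Finset ℕ) : Set ℕ) := by
      rintro m ⟨hm, j, rfl⟩
      rw [Finset.mem_coe, Finset.mem_image]
      refine ⟨j, ?_, rfl⟩
      rw [Finset.mem_range, Nat.lt_succ_iff, Nat.le_sqrt]
      nlinarith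
    have h3 := Set.ncard_le_ncard h2 (Finset.finite_toSet _)
    rw [Set.ncard_coe_finset] at h3
    exact h3.trans (Finset.card_image_le.trans (Finset.card_range _).le)
  have h2 : (Set.ncard {m : ℕ | m ≤ N ∧ ∃ j, m = j * (j + 1)} : ℝ) ≤ (Nat.sqrt N : ℝ) + 1 := by
    exact_mod_cast h1
  have h3 : (Nat.sqrt N : ℝ) * Nat.sqrt N ≤ N := by exact_mod_cast Nat.sqrt_le N
  have h4 : (⌈2 / ε⌉₊ : ℝ) + 1 ≤ Nat.sqrt N := by exact_mod_cast hs
  have h5 : 2 / ε ≤ (⌈2 / ε⌉₊ : ℝ) := Nat.le_ceil _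
  have h6 : (0 : ℝ) ≤ (⌈2 / ε⌉₊ : ℝ) := Nat.cast_nonneg _
  have h7 : 2 / ε ≤ (Nat.sqrt N : ℝ) := by linarith
  rw [div_le_iff₀ hε] at h7
  have h8 : (1 : ℝ) ≤ Nat.sqrt N := by linarith
  nlinarith

theorem tail_DEN (f g : ℕ → ℝ) (k : ℕ) (h : ∀ q, k ≤ q → f q = g q) (hf : Summable f) :
    Summable g :=
  (summable_nat_add_iff k).1 (((summable_nat_add_iff k).2 hf).congr fun q =>
    h (q + k) (Nat.le_add_left k q))

theorem sie_DEN (hDIV : DIV_st) (hSIE : SIE_st) (a : ℕ) (ha : a = 1 ∨ a = 3) {ε : ℝ}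
    (hε : 0 < ε) : ∃ F : Finset ℕ, (∀ q ∈ F, q.Prime ∧ q % 4 = a ∧ 13 ≤ q) ∧
      Sm_DEN ε fun m => ∀ q ∈ F, ¬ Ex q m := by
  refine hSIE {q : ℕ | q.Prime ∧ q % 4 = a ∧ 13 ≤ q} (fun q hq => hq.1) ?_ ε hε
  intro h
  refine hDIV a ha (tail_DEN _ _ 13 (fun q hq13 => ?_) h)
  by_cases hq : q.Prime ∧ q % 4 = a
  · have h1 : q ∈ {q : ℕ | q.Prime ∧ q % 4 = a ∧ 13 ≤ q} := ⟨hq.1, hq.2, hq13⟩
    rw [if_pos hq, if_pos h1]
  · have h1 : q ∉ {q : ℕ | q.Prime ∧ q % 4 = a ∧ 13 ≤ q} := fun h' => hq ⟨h'.1, h'.2.1⟩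
    rw [if_neg hq, if_neg h1]

theorem DEN_pf (hDIV : DIV_st) (hSIE : SIE_st) (hMRK : MRK_st) : DEN_st := by
  intro ε hε
  have hδ : 0 < ε / 8 := by positivity
  obtain ⟨F1, hF1, h1'⟩ := sie_DEN hDIV hSIE 1 (Or.inl rfl) hδ
  obtain ⟨F3, hF3, h3'⟩ := sie_DEN hDIV hSIE 3 (Or.inr rfl) hδ
  have h4 : Sm_DEN (ε / 8) fun m => ¬ Sq m := hMRK _ hδ
  have h5 := or_DEN (lt_DEN hδ (F1.sup (fun q => q ^ 2) + 1)) (or_DEN (pred_DEN h1')
    (or_DEN (pred_DEN h3') (or_DEN h1' (or_DEN (succ_DEN hδ.le h1') (or_DEN (pred_DEN h4)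
      (pred_DEN (pron_DEN hδ)))))))
  have h6 : ε / 8 + (ε / 8 + (ε / 8 + (ε / 8 + (2 * (ε / 8) + (ε / 8 + ε / 8))))) = ε := by ring
  rw [h6] at h5
  refine mono_DEN (P := fun n => ¬ Good n) h5 fun n hn => ?_
  by_contra hc
  simp only [not_or, not_and, not_lt, not_forall, not_not, not_exists, exists_prop] at hc
  obtain ⟨c0, c1, c2, c3, c4, c5, c6⟩ := hc
  have hn1 : 1 ≤ n := by omega
  obtain ⟨q1, hq1, e1⟩ := c1 hn1
  obtain ⟨q3, hq3, e3⟩ := c2 hn1
  obtain ⟨r0, hr0, e0⟩ := c3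
  obtain ⟨r1, hr1, e4⟩ := c4
  have a1 := hF1 q1 hq1
  have a3 := hF3 q3 hq3
  have a0 := hF1 r0 hr0
  have a4 := hF1 r1 hr1
  have b1 : q1 ^ 2 ≤ F1.sup (fun q => q ^ 2) := Finset.le_sup (f := fun q => q ^ 2) hq1
  exact hn ⟨⟨q1, a1.1, a1.2.1, a1.2.2, by omega, e1⟩,
    ⟨q3, a3.1, a3.2.1, le_trans (by norm_num) a3.2.2, e3⟩, ⟨r0, a0.1, a0.2.1, e0⟩,
    ⟨r1, a4.1, le_trans (by norm_num) a4.2.2, e4⟩, c5 hn1, c6 hn1⟩

end Pool.Agent.MP_9c0351_nt.Gal

end
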