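import Pool.Agent.Mg.F9c0351q.G0f9e82
import Pool.Agent.Mg.F9c0351p.Ga9369b
import Pool.Agent.Mg.F9c0351q.Gc355e2

set_option linter.all false

section

/-! The root set of the reduced polynomial in the splitting field. -/

set_option autoImplicit false

open Polynomial Filter
open scoped NNReal

namespace Pool.Agent.MP_9c0351_nt.Gal

lemma lead_BAS (n : ℕ) (hn : 4 ≤ n) :
    (Sp n).leadingCoeff = (n : ℚ) - 1 ∧ (Sp n).natDegree = n + 1 := by
  have h0 : (n : ℚ) - 1 ≠ 0 := by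
    have : (4 : ℚ) ≤ n := by exact_mod_cast hn
    exact ne_of_gt (by linarith)
  have h1 : (Sp n).coeff (n + 1) = (n : ℚ) - 1 := by
    have a1 : n + 1 ≠ n := by omega
    have a2 : 1 ≠ n + 1 := by omega
    simp only [Sp, coeff_sub, coeff_C_mul, coeff_X_pow, coeff_one, coeff_X, if_true, if_neg a1,
      if_neg a2, if_neg (Nat.succ_ne_zero n)]
    ring
  have h2 : (Sp n).natDegree ≤ n + 1 := by
    unfold Sp
    refine (natDegree_sub_le _ _).trans (max_le ((natDegree_C_mul_le _ _).trans ?_)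
      ((natDegree_C_mul_le _ _).trans ?_))
    · exact (natDegree_sub_le _ _).trans (by simp)
    · exact (natDegree_sub_le _ _).trans (by simp)
  have h3 : (Sp n).natDegree = n + 1 := natDegree_eq_of_le_of_coeff_ne_zero h2 (h1 ▸ h0)
  exact ⟨by rw [leadingCoeff, h3, h1], h3⟩

lemma core_BAS (n : ℕ) (hn : 4 ≤ n) (f : ℚ[X])
    (hf : Sp n = (X - 1) ^ 3 * (X + 1) ^ (n % 2) * f) (hi : Irreducible f) :
    ∃ R : Finset (Sp n).SplittingField, Fac n R ∧
      (∀ x ∈ R, ∀ x' ∈ R, ∃ g : (Sp n).SplittingField ≃ₐ[ℚ] (Sp n).SplittingField, g x = x') ∧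
      ∀ g : (Sp n).SplittingField ≃ₐ[ℚ] (Sp n).SplittingField, (∀ x ∈ R, g x = x) → g = 1 := by
  obtain ⟨l1, l2⟩ := lead_BAS n hn
  have m1 : (X - 1 : ℚ[X]).Monic := monic_X_sub_C 1
  have m2 : (X + 1 : ℚ[X]).Monic := monic_X_add_C 1
  have m3 := (m1.pow 3).mul (m2.pow (n % 2))
  have d1 : (X - 1 : ℚ[X]).natDegree = 1 := natDegree_X_sub_C 1
  have d2 : (X + 1 : ℚ[X]).natDegree = 1 := natDegree_X_add_C 1
  have f0 := hi.ne_zero
  have s0 : Sp n ≠ 0 := by
    rw [hf]
    exact mul_ne_zero m3.ne_zero f0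
  have f1 : f.leadingCoeff = (n : ℚ) - 1 := by rw [← l1, hf, leadingCoeff_monic_mul m3]
  have f2 : 2 ≤ f.natDegree := by
    rw [hf, m3.natDegree_mul' f0, (m1.pow 3).natDegree_mul (m2.pow _), m1.natDegree_pow,
      m2.natDegree_pow, d1, d2] at l2
    omega
  set K := (Sp n).SplittingField
  set φ := algebraMap ℚ K with hφ
  have g0 : f.map φ ≠ 0 := Polynomial.map_ne_zero f0
  have g1 : (f.map φ).Splits := (SplittingField.splits (Sp n)).of_dvd (Polynomial.map_ne_zero s0)
    (Polynomial.map_dvd φ ⟨_, by rw [hf, mul_comm]⟩)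
  have g2 : (f.map φ).roots.Nodup := nodup_roots hi.separable.map
  have mem : ∀ x, x ∈ (⟨(f.map φ).roots, g2⟩ : Finset K) ↔ aeval x f = 0 := fun x => by
    change x ∈ (f.map φ).roots ↔ _
    rw [mem_roots g0, IsRoot, eval_map_algebraMap]
  have rat : ∀ a : ℚ, aeval (φ a) f ≠ 0 := fun a h => by
    rw [aeval_algebraMap_apply, map_eq_zero, coe_aeval_eq_eval] at h
    have := natDegree_eq_of_degree_eq_some (n := 1) (degree_eq_one_of_irreducible_of_root hi h)
    omega
  refine ⟨⟨(f.map φ).roots, g2⟩, ⟨fun h => rat 1 ?_, fun h => rat (-1) ?_, ?_⟩,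
    fun x hx x' hx' => ?_, fun g hg => ?_⟩
  · rw [map_one]
    exact (mem _).1 h
  · rw [map_neg, map_one]
    exact (mem _).1 h
  · have e1 := congrArg (Polynomial.map φ) hf
    have e2 := g1.eq_prod_roots
    rw [leadingCoeff_map, f1] at e2
    rw [Polynomial.map_mul, e2] at e1
    simp only [Sp, Polynomial.map_sub, Polynomial.map_mul, Polynomial.map_pow, Polynomial.map_add,
      map_C, map_X, Polynomial.map_one, map_sub φ, map_add φ, map_natCast φ, map_one φ] at e1
    have key : ∀ a b c d : K[X], a * b * (c * d) = c * a * b * d := fun a b c d => by ring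
    exact e1.trans (key _ _ _ _)
  · have a1 := minpoly.eq_of_irreducible hi ((mem _).1 hx)
    have a2 : aeval x' (minpoly ℚ x) = 0 := by rw [← a1, map_mul, (mem _).1 hx', zero_mul]
    have : IsSplittingField ℚ K (Sp n) := IsSplittingField.splittingField (Sp n)
    have : Normal ℚ K := Normal.of_isSplittingField (Sp n)
    exact minpoly.exists_algEquiv_of_root' (Algebra.IsAlgebraic.isAlgebraic x) a2
  · refine Polynomial.Gal.ext (p := Sp n) (σ := g) (τ := 1) fun x hx => ?_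
    change g x = x
    have a1 := (congrArg (aeval x) hf).symm.trans (mem_rootSet.1 hx).2
    simp only [map_mul, map_pow, map_sub, map_add, aeval_X, map_one, mul_eq_zero] at a1
    rcases a1 with (a1 | a1) | a1
    · rw [sub_eq_zero.1 (eq_zero_of_pow_eq_zero a1), map_one]
    · rw [eq_neg_of_add_eq_zero_left (eq_zero_of_pow_eq_zero a1), map_neg, map_one]
    · exact hg x ((mem _).2 a1)

theorem BAS_pf : BAS_st := by
  intro n hn
  obtain ⟨f, hf, hi⟩ := Pool.Agent.MP_9c0351_nt.irreducible_reduced n hn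
  refine core_BAS n hn f (hf.trans ?_) hi
  rcases Nat.even_or_odd n with h | h
  · rw [if_neg (Nat.not_odd_iff_even.2 h), Nat.even_iff.1 h, pow_zero, mul_one]
  · rw [if_pos h, Nat.odd_iff.1 h, pow_one]

end Pool.Agent.MP_9c0351_nt.Gal

end

section

set_option autoImplicit false

open Polynomial Filter
open scoped NNReal

namespace Pool.Agent.MP_9c0351_nt.Gal

theorem sq_CHR {K : Type} [Field K] [NumberField K] [IsGalois ℚ K] (D : K) (c : ℚ)
    (hfix : ∀ g : K ≃ₐ[ℚ] K, g D = D) (h : D ^ 2 = (c : K)) : IsSquare c := by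
  obtain ⟨δ, hδ⟩ := (IsGalois.mem_range_algebraMap_iff_fixed (F := ℚ) D).2 hfix
  refine ⟨δ, ?_⟩
  rw [← hδ, eq_ratCast] at h
  have h' : ((δ * δ : ℚ) : K) = (c : K) := by
    push_cast
    rw [← h]
    ring
  exact (Rat.cast_injective h').symm

theorem unsq_CHR (a d : ℚ) (hd : d ≠ 0) (h : IsSquare (d ^ 2 * a)) : IsSquare a := by
  obtain ⟨r, hr⟩ := h
  refine ⟨r / d, ?_⟩
  field_simp
  linear_combination hr

theorem CHR_pf (hDLT : DLT_st) (hDSC : DSC_st) (hNSQ : NSQ_st) : CHR_st := by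
  intro K _ _ _ _ n R _ _ _ _ hn hA hG
  obtain ⟨q, hq, -, hq13, -, hqe⟩ := hG.q1
  obtain ⟨r, hr, hr4, hre⟩ := hG.r0
  obtain ⟨r', hr', hr5', hre'⟩ := hG.r1
  have hr5 : 5 ≤ r := by
    have := hr.two_le
    omega
  have hN := hNSQ n q r r' hn hq hr hr' (by omega) hr5 hr5' hqe hre hre'
  have hd : dY n ≠ 0 := by
    intro h0
    exact (hN 1 (Or.inl rfl)).1 ⟨0, by rw [h0]; ring⟩
  obtain ⟨hD1, hD2⟩ := hDSC K n R hn hA
  have hRS : ∀ x, x ∈ RS n K ↔ x ∈ R := fun x => (hA.mem x).symm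
  have hYS : ∀ y, y ∈ YS n K ↔ y ∈ R.image fun x => x + x⁻¹ := by
    intro y
    rw [Finset.mem_image]
    constructor
    · rintro ⟨x, hx, rfl⟩
      exact ⟨x, (hRS x).1 hx, rfl⟩
    · rintro ⟨x, hx, rfl⟩
      exact ⟨x, (hRS x).2 hx, rfl⟩
  obtain ⟨DR, hR1, hR2⟩ := hDLT K (RS n K) R hRS
  obtain ⟨DY, hY1, hY2⟩ := hDLT K (YS n K) _ hYS
  obtain ⟨e, he, hRe⟩ : ∃ e : ℚ, (e = 1 ∨ e = -1) ∧
      DR ^ 2 = ((dY n ^ 2 * (e * (f1 n * fm n)) : ℚ) : K) := by
    rw [hD1] at hR2
    rcases hR2 with h | h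
    · exact ⟨1, Or.inl rfl, by rw [h, one_mul]⟩
    · exact ⟨-1, Or.inr rfl, by rw [h]; push_cast; ring⟩
  obtain ⟨e', he', hYe⟩ : ∃ e : ℚ, (e = 1 ∨ e = -1) ∧ DY ^ 2 = ((e * dY n : ℚ) : K) := by
    rcases sq_eq_sq_iff_eq_or_eq_neg.1 hD2 with h2 | h2 <;> rw [h2] at hY2 <;>
      rcases hY2 with h | h
    · exact ⟨1, Or.inl rfl, by rw [h, one_mul]⟩
    · exact ⟨-1, Or.inr rfl, by rw [h]; push_cast; ring⟩
    · exact ⟨-1, Or.inr rfl, by rw [h]; push_cast; ring⟩
    · exact ⟨1, Or.inl rfl, by rw [h, neg_neg, one_mul]⟩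
  refine ⟨?_, ?_, ?_⟩
  · by_contra hc
    refine (hN e' he').1 (sq_CHR DY _ (fun g => ?_) hYe)
    have h1 := (Int.units_eq_one_or _).resolve_right fun h => hc ⟨g, h⟩
    rw [hY1 g, h1]
    simp
  · by_contra hc
    refine (hN e he).2.1 (unsq_CHR _ _ hd (sq_CHR DR _ (fun g => ?_) hRe))
    have h1 := (Int.units_eq_one_or _).resolve_right fun h => hc ⟨g, h⟩
    rw [hR1 g, h1]
    simp
  · by_contra hc
    have hee : e * e' = 1 ∨ e * e' = -1 := by
      rcases he with rfl | rfl <;> rcases he' with rfl | rfl <;> norm_num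
    refine (hN (e * e') hee).2.2 (unsq_CHR _ _ hd (sq_CHR (DY * DR) _ (fun g => ?_) ?_))
    · have h1 := (Int.units_eq_one_or _).resolve_right fun h => hc ⟨g, h⟩
      have h2 := congrArg (fun u : ℤˣ => ((u : ℤ) : K)) h1
      simp only [Units.val_mul, Int.cast_mul, Units.val_one, Int.cast_one] at h2
      rw [map_mul, hY1 g, hR1 g]
      linear_combination (DY * DR) * h2
    · rw [mul_pow, hYe, hRe]
      push_cast
      ring

end Pool.Agent.MP_9c0351_nt.Gal

end

section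

/-! One edge of a Newton polygon. -/

set_option autoImplicit false

open Polynomial Filter
open scoped NNReal

namespace Pool.Agent.MP_9c0351_nt.Gal

theorem NP_pf : NP_st := by
  intro K _ v c δ r s M hrs hsM hδ hδ1 hc h1 h2 h3 h
  have d0 : 0 < v δ := (Valuation.pos_iff _).2 hδ
  have c0 : 0 < v (c r) := (Valuation.pos_iff _).2 hc
  have hv : ∀ i, v (c i * δ ^ i) = v (c i) * v δ ^ i := fun i => by rw [map_mul, map_pow]
  have er : 0 < v (c r * δ ^ r) := by rw [hv]; positivity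
  have es : v (c s * δ ^ s) = v δ ^ s := by rw [hv, h2, one_mul]
  have es0 : 0 < v (c s * δ ^ s) := by rw [es]; positivity
  have a1 : ∀ i, r < i → i < s → v (c i * δ ^ i) < v (c r * δ ^ r) := fun i hi hi' => by
    rw [hv, hv]
    calc v (c i) * v δ ^ i ≤ v (c r) * v δ ^ i := mul_le_mul_left (h1 i hi hi') _
      _ < v (c r) * v δ ^ r := mul_lt_mul_of_pos_left (pow_lt_pow_right_of_lt_one₀ d0 hδ1 hi) c0
  have a2 : ∀ i, s < i → i ≤ M → v (c i * δ ^ i) < v (c s * δ ^ s) := fun i hi hi' => by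
    rw [hv, es]
    calc v (c i) * v δ ^ i ≤ 1 * v δ ^ i := mul_le_mul_left (h3 i hi hi') _
      _ = v δ ^ i := one_mul _
      _ < v δ ^ s := pow_lt_pow_right_of_lt_one₀ d0 hδ1 hi
  have key : v (c r * δ ^ r) = v (c s * δ ^ s) := by
    rcases lt_trichotomy (v (c r * δ ^ r)) (v (c s * δ ^ s)) with hl | hl | hl
    · have := v.map_sum_eq_of_lt (s := Finset.Icc r M) (f := fun i => c i * δ ^ i) (j := s)
        (Finset.mem_Icc.2 ⟨hrs.le, hsM⟩) fun i hi => by
          rw [Finset.mem_sdiff, Finset.mem_Icc, Finset.mem_singleton] at hi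
          rcases lt_or_gt_of_ne hi.2 with hs | hs
          · rcases hi.1.1.eq_or_lt with rfl | hr
            · exact hl
            · exact (a1 i hr hs).trans hl
          · exact a2 i hs hi.1.2
      rw [h, map_zero] at this
      exact absurd this es0.ne
    · exact hl
    · have := v.map_sum_eq_of_lt (s := Finset.Icc r M) (f := fun i => c i * δ ^ i) (j := r)
        (Finset.mem_Icc.2 ⟨le_rfl, hrs.le.trans hsM⟩) fun i hi => by
          rw [Finset.mem_sdiff, Finset.mem_Icc, Finset.mem_singleton] at hi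
          have hr : r < i := lt_of_le_of_ne hi.1.1 (Ne.symm hi.2)
          rcases lt_trichotomy i s with hs | rfl | hs
          · exact a1 i hr hs
          · exact hl
          · exact (a2 i hs hi.1.2).trans hl
      rw [h, map_zero] at this
      exact absurd this er.ne
  rw [hv, es, ← Nat.sub_add_cancel hrs.le, pow_add] at key
  exact (mul_right_cancel₀ (pow_pos d0 r).ne' key).symm

end Pool.Agent.MP_9c0351_nt.Gal

end

section

/-! The valuation of the roots near `1`. -/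

set_option autoImplicit false

open Polynomial Filter
open scoped NNReal

namespace Pool.Agent.MP_9c0351_nt.Gal

section
variable {K : Type} [Field K] (v : Valuation K ℝ≥0)

theorem le_N1 (m : ℕ) : v (m : K) ≤ 1 := by
  induction m with
  | zero => simp
  | succ m ih =>
    rw [Nat.cast_succ]
    exact v.map_add_le ih (map_one v).le

theorem int_N1 (a : ℤ) : v (a : K) ≤ 1 := by
  obtain ⟨m, rfl | rfl⟩ := Int.eq_nat_or_neg a
  · rw [Int.cast_natCast]; exact le_N1 v m
  · rw [Int.cast_neg, Int.cast_natCast, v.map_neg]; exact le_N1 v m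

theorem one_N1 {q m : ℕ} (hq : q.Prime) (hv : v (q : K) < 1) (h : ¬ q ∣ m) : v (m : K) = 1 := by
  refine le_antisymm (le_N1 v m) (not_lt.1 fun hm => ?_)
  obtain ⟨a, b, hab⟩ := Nat.isCoprime_iff_coprime.2 ((Nat.Prime.coprime_iff_not_dvd hq).2 h)
  have h1 : (a : K) * q + (b : K) * m = 1 := by exact_mod_cast congrArg (Int.cast : ℤ → K) hab
  have h2 : ∀ (c : ℤ) (z : K), v z < 1 → v ((c : K) * z) < 1 := fun c z hz => by
    rw [map_mul]
    exact (mul_le_of_le_one_left' (int_N1 v c)).trans_lt hz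
  have h3 := v.map_add_lt (h2 a _ hv) (h2 b _ hm)
  rw [h1, map_one] at h3
  exact lt_irrefl _ h3

theorem dvd_N1 {q m : ℕ} (h : q ∣ m) : v (m : K) ≤ v (q : K) := by
  obtain ⟨a, rfl⟩ := h
  rw [Nat.cast_mul, map_mul]
  exact mul_le_of_le_one_right' (le_N1 v a)

theorem ex_N1 {q a : ℕ} (hq : q.Prime) (hv : v (q : K) < 1) (h : ¬ q ∣ a) :
    v ((q * a : ℕ) : K) = v (q : K) := by
  rw [Nat.cast_mul, map_mul, one_N1 v hq hv h, mul_one]

end

theorem luc_N1 {q a j : ℕ} (hq : q.Prime) (hj : j < 3) (h3 : 3 ≤ q) :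
    (∀ i, 3 ≤ i → i < q → q ∣ (q * a + j).choose i) ∧ (¬ q ∣ a → ¬ q ∣ (q * a + j).choose q) := by
  have := Fact.mk hq
  have h1 : (q * a + j) % q = j := by rw [Nat.mul_add_mod, Nat.mod_eq_of_lt (by omega)]
  have h2 : (q * a + j) / q = a := by
    rw [Nat.mul_add_div hq.pos, Nat.div_eq_of_lt (by omega), add_zero]
  refine ⟨fun i hi hiq => ?_, fun ha hd => ha ?_⟩
  · have h := Choose.choose_modEq_choose_mod_mul_choose_div_nat (n := q * a + j) (k := i) (p := q)
    rw [h1, Nat.mod_eq_of_lt hiq, Nat.choose_eq_zero_of_lt (by omega : j < i), zero_mul] at h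
    exact Nat.modEq_zero_iff_dvd.1 h
  · have h := Choose.choose_modEq_choose_mod_mul_choose_div_nat (n := q * a + j) (k := q) (p := q)
    rw [h1, h2, Nat.mod_self, Nat.div_self hq.pos, Nat.choose_zero_right, Nat.choose_one_right,
      one_mul] at h
    exact (h.dvd_iff dvd_rfl).1 hd

theorem three_N1 (m : ℕ) : 6 * (m + 2).choose 3 = (m + 2) * (m + 1) * m := by
  induction m with
  | zero => rfl
  | succ m ih =>
    have h1 : (m + 1 + 2).choose 3 = (m + 2).choose 2 + (m + 2).choose 3 := rfl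
    have h2 := Nat.add_one_mul_choose_eq (m + 1) 1
    rw [Nat.choose_one_right] at h2
    have h3 : (m + 2) * (m + 1) = (m + 2).choose 2 * 2 := h2
    rw [h1, mul_add, ih]
    nlinarith [h3]

theorem N1_pf (hTAY : TAY_st) (hNP : NP_st) : N1_st := by
  intro K _ _ v n q x hn hq h5 hv hE hx hx1 hvx
  obtain ⟨m, rfl⟩ : ∃ m, n = m + 1 := ⟨n - 1, by omega⟩
  rw [Nat.add_sub_cancel] at hE
  have nd : ∀ b k : ℕ, 0 < k → k < q → ¬ q ∣ q * b + k := fun b k h0 h1 h =>
    Nat.not_dvd_of_pos_of_lt h0 h1 ((Nat.dvd_add_right (Dvd.intro b rfl)).1 h)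
  obtain ⟨a, j, hj, ha, hm, h3⟩ : ∃ a j : ℕ, j < 3 ∧ ¬ q ∣ a ∧ m + 2 = q * a + j ∧
      v (((m + 2) * (m + 1) * m : ℕ) : K) = v (q : K) := by
    rcases hE with ⟨⟨a, ha⟩, h⟩ | ⟨⟨a, ha⟩, h⟩
    · have ha' : ¬ q ∣ a := fun h' => h (by rw [ha, sq]; exact Nat.mul_dvd_mul_left q h')
      refine ⟨a, 2, by norm_num, ha', by rw [ha], ?_⟩
      rw [Nat.cast_mul, Nat.cast_mul, map_mul, map_mul, ha,
        one_N1 v hq hv (nd a 2 (by norm_num) (by omega)),
        one_N1 v hq hv (nd a 1 (by norm_num) (by omega)), ex_N1 v hq hv ha', one_mul, one_mul]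
    · have ha' : ¬ q ∣ a := fun h' => h (by rw [ha, sq]; exact Nat.mul_dvd_mul_left q h')
      have h1 : ¬ q ∣ m := fun h' => by
        have h2 : q ∣ m + 1 := Dvd.intro a ha.symm
        exact hq.one_lt.ne' (Nat.dvd_one.1 ((Nat.dvd_add_right h').1 h2))
      have h2 : m + 2 = q * a + 1 := by omega
      refine ⟨a, 1, by norm_num, ha', h2, ?_⟩
      rw [Nat.cast_mul, Nat.cast_mul, map_mul, map_mul, one_N1 v hq hv h1, h2, ha,
        one_N1 v hq hv (nd a 1 (by norm_num) (by omega)), ex_N1 v hq hv ha', one_mul, mul_one]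
  have ha0 : 1 ≤ a := Nat.pos_of_ne_zero fun h => ha (h ▸ dvd_zero q)
  have hqm : q ≤ m + 2 := by
    have := Nat.mul_le_mul_left q ha0
    omega
  obtain ⟨l1, l2⟩ := luc_N1 (a := a) hq hj (by omega)
  rw [← hm] at l1 l2
  have h6 : v ((6 : ℕ) : K) = 1 := one_N1 v hq hv fun h => by
    rcases (Nat.Prime.dvd_mul hq (m := 2) (n := 3)).1 h with h | h <;>
      have := Nat.le_of_dvd (by norm_num) h <;> omega
  have c3 : v ((((3 - 2) * (m + 2).choose 3 : ℕ)) : K) = v (q : K) := by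
    rw [← three_N1, Nat.cast_mul, map_mul, h6, one_mul] at h3
    rw [← h3]
    norm_num
  have hq0 : v (q : K) ≠ 0 := by
    rw [Valuation.ne_zero_iff]
    exact_mod_cast hq.ne_zero
  have hT := hTAY K (m + 1) 1 (x - 1) (by omega)
  have e1 : Sv (m + 1) (1 : K) = 0 := by simp [Sv]
  have e2 : Sd (m + 1) (1 : K) = 0 := by simp only [Sd, one_pow]; ring
  rw [add_sub_cancel, hx, e1, e2, zero_mul, zero_add, zero_add] at hT
  rw [← c3]
  refine hNP K v (fun i => (((i - 2) * (m + 2).choose i : ℕ) : K)) (x - 1) 3 q (m + 2) (by omega)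
    hqm (sub_ne_zero.2 hx1) hvx (fun h => hq0 ?_) (fun i h1 h2 => ?_) ?_
    (fun i _ _ => le_N1 v _) ?_
  · rw [← c3]
    exact (Valuation.zero_iff v).2 h
  · exact (dvd_N1 v (Dvd.dvd.mul_left (l1 i h1.le h2) _)).trans c3.ge
  · refine one_N1 v hq hv fun h => ?_
    rcases (Nat.Prime.dvd_mul hq).1 h with h | h
    · exact Nat.not_dvd_of_pos_of_lt (by omega) (by omega) h
    · exact l2 ha h
  · have e3 : ∀ i ∈ Finset.Icc 2 (m + 1 + 1),
        ((((m + 1 : ℕ) : K) - 1) * ((m + 1 + 1).choose i : K) * 1 ^ (m + 1 + 1 - i) -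
          (((m + 1 : ℕ) : K) + 1) * ((m + 1).choose i : K) * 1 ^ (m + 1 - i)) * (x - 1) ^ i =
        (((i - 2) * (m + 2).choose i : ℕ) : K) * (x - 1) ^ i := fun i hi => by
      rw [Finset.mem_Icc] at hi
      have h1 := congrArg (Nat.cast : ℕ → K) (Nat.choose_mul_succ_eq (m + 1) i)
      rw [Nat.cast_mul, Nat.cast_mul, Nat.cast_sub hi.2] at h1
      rw [Nat.cast_mul, Nat.cast_sub hi.1, one_pow, one_pow]
      push_cast at h1 ⊢
      linear_combination (-(x - 1) ^ i) * h1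
    rw [Finset.sum_congr rfl e3, ← Finset.add_sum_Ioc_eq_sum_Icc (by omega)] at hT
    simp only [Nat.sub_self, zero_mul, Nat.cast_zero, zero_add] at hT
    exact hT.symm

end Pool.Agent.MP_9c0351_nt.Gal

end

section

/-! Distance of two close roots of `S_n` away from `1`. -/

set_option autoImplicit false

open Polynomial Filter
open scoped NNReal

namespace Pool.Agent.MP_9c0351_nt.Gal

theorem nat_le_NW {K : Type} [Field K] (v : Valuation K ℝ≥0) (m : ℕ) : v (m : K) ≤ 1 := by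
  induction m with
  | zero => simp
  | succ m ih =>
    rw [Nat.cast_succ]
    exact v.map_add_le ih (by simp)

theorem int_le_NW {K : Type} [Field K] (v : Valuation K ℝ≥0) (m : ℤ) : v (m : K) ≤ 1 := by
  obtain ⟨k, rfl | rfl⟩ := m.eq_nat_or_neg
  · rw [Int.cast_natCast]
    exact nat_le_NW v k
  · rw [Int.cast_neg, Int.cast_natCast, v.map_neg]
    exact nat_le_NW v k

theorem nat_one_NW {K : Type} [Field K] (v : Valuation K ℝ≥0) (q m : ℕ) (hq : q.Prime)
    (hv : v (q : K) < 1) (hm : ¬ q ∣ m) : v (m : K) = 1 := by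
  refine le_antisymm (nat_le_NW v m) (not_lt.1 fun hlt => ?_)
  have hc : IsCoprime (q : ℤ) (m : ℤ) :=
    Nat.isCoprime_iff_coprime.2 ((Nat.Prime.coprime_iff_not_dvd hq).2 hm)
  obtain ⟨a, b, hab⟩ := hc
  have h1 : (a : K) * (q : K) + (b : K) * (m : K) = 1 := by
    have h2 := congrArg (fun z : ℤ => (z : K)) hab
    simpa using h2
  have h2 : v ((a : K) * (q : K) + (b : K) * (m : K)) < 1 := by
    refine v.map_add_lt ?_ ?_
    · rw [v.map_mul]
      exact lt_of_le_of_lt (mul_le_of_le_one_left zero_le (int_le_NW v a)) hv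
    · rw [v.map_mul]
      exact lt_of_le_of_lt (mul_le_of_le_one_left zero_le (int_le_NW v b)) hlt
  rw [h1, v.map_one] at h2
  exact lt_irrefl _ h2

theorem nat_dvd_NW {K : Type} [Field K] (v : Valuation K ℝ≥0) (q m : ℕ) (hm : q ∣ m) :
    v (m : K) ≤ v (q : K) := by
  obtain ⟨k, rfl⟩ := hm
  rw [Nat.cast_mul, v.map_mul]
  exact mul_le_of_le_one_right zero_le (nat_le_NW v k)

theorem NW_pf (hTAY : TAY_st) (hNP : NP_st) : NW_st := by
  intro K _ _ v n q x x' hn hq hq5 hv hex h0 h0' hx hx1 hxx hne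
  have : Fact q.Prime := ⟨hq⟩
  obtain ⟨⟨m, hm⟩, hm2⟩ := hex
  have hqm : ¬ q ∣ m := fun h => hm2 (by
    rw [hm, pow_two]
    exact Nat.mul_dvd_mul_left q h)
  have hnq : n = q * m + 1 := by omega
  have hm0 : 1 ≤ m := Nat.pos_of_ne_zero fun h => hqm (by rw [h]; exact dvd_zero q)
  have hqn : q + 1 ≤ n := by nlinarith
  have hn1 : (n : K) - 1 = (q : K) * (m : K) := by
    rw [hnq]
    push_cast
    ring
  have vm : v (m : K) = 1 := nat_one_NW v q m hq hv hqm
  have vn1 : v ((n : K) - 1) = v (q : K) := by rw [hn1, v.map_mul, vm, mul_one]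
  have vn : v (n : K) = 1 := nat_one_NW v q n hq hv (fun h => by
    rw [hnq] at h
    have h1 := (Nat.dvd_add_right (dvd_mul_right q m)).1 h
    have := Nat.le_of_dvd one_pos h1
    omega)
  have vn2 : v ((n : K) + 1) = 1 := by
    have h := nat_one_NW v q (n + 1) hq hv (fun h => by
      rw [hnq, add_assoc] at h
      have h1 := (Nat.dvd_add_right (dvd_mul_right q m)).1 h
      have := Nat.le_of_dvd (by norm_num) h1
      omega)
    rwa [Nat.cast_succ] at h
  have vq0 : v (q : K) ≠ 0 := by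
    rw [Ne, v.zero_iff]
    exact_mod_cast hq.ne_zero
  have vL : v (((n : K) - 1) * x - ((n : K) + 1)) = 1 := by
    have h1 : v (((n : K) - 1) * x) < v ((n : K) + 1) := by
      rw [v.map_mul, vn1, hx, mul_one, vn2]
      exact hv
    rw [v.map_sub_eq_of_lt_right h1, vn2]
  have hid : Sd n x * x * (((n : K) - 1) * x - ((n : K) + 1)) =
      -((n : K) * ((n : K) - 1) * ((n : K) + 1) * (x - 1) ^ 2) := by
    obtain ⟨k, hk⟩ : ∃ k, n = k + 1 := ⟨n - 1, by omega⟩
    unfold Sv at h0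
    unfold Sd
    have e1 : x ^ n = x ^ k * x := by rw [hk, pow_succ]
    have e2 : x ^ (n - 1) = x ^ k := by rw [hk, Nat.add_sub_cancel]
    rw [pow_succ, e1] at h0
    rw [e1, e2]
    linear_combination (((n : K) + 1) * (((n : K) - 1) * x - (n : K))) * h0
  have vd : v (Sd n x) = v (q : K) := by
    have h := congrArg v hid
    rw [v.map_mul, v.map_mul, hx, vL, v.map_neg, v.map_mul, v.map_mul, v.map_mul, v.map_pow, vn,
      vn1, vn2, hx1] at h
    simpa using h
  have vA : ∀ i, v (((n : K) - 1) * ((n + 1).choose i : K) * x ^ (n + 1 - i)) ≤ v (q : K) := by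
    intro i
    rw [v.map_mul, v.map_mul, v.map_pow, hx, one_pow, mul_one, vn1]
    exact mul_le_of_le_one_right zero_le (nat_le_NW v _)
  have vB : ∀ i, v (((n : K) + 1) * (n.choose i : K) * x ^ (n - i)) = v (n.choose i : K) := by
    intro i
    rw [v.map_mul, v.map_mul, v.map_pow, hx, one_pow, mul_one, vn2, one_mul]
  have hmod : n % q = 1 := by
    rw [hnq, Nat.mul_add_mod]
    exact Nat.mod_eq_of_lt (by omega)
  have hdiv : n / q = m := by
    rw [hnq, Nat.mul_add_div hq.pos, Nat.div_eq_of_lt (by omega : 1 < q), add_zero]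
  have key := hNP K v (fun i => if i = 1 then Sd n x else
    (((n : K) - 1) * ((n + 1).choose i : K) * x ^ (n + 1 - i) -
      ((n : K) + 1) * (n.choose i : K) * x ^ (n - i))) (x' - x) 1 q (n + 1) (by omega) (by omega)
    (sub_ne_zero.2 hne.symm) (by rwa [v.map_sub_swap])
    (by
      simp only [if_true]
      intro h
      rw [h, v.map_zero] at vd
      exact vq0 vd.symm)
    (by
      intro i h1 h2
      simp only [if_true, if_neg h1.ne']
      rw [vd]
      refine v.map_sub_le (vA i) ?_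
      rw [vB]
      refine nat_dvd_NW v q _ ?_
      have h3 := Choose.choose_modEq_choose_mod_mul_choose_div_nat (n := n) (k := i) (p := q)
      rw [hmod, Nat.mod_eq_of_lt h2, Nat.choose_eq_zero_of_lt h1, zero_mul] at h3
      exact (Nat.modEq_zero_iff_dvd).1 h3)
    (by
      have h1 : q ≠ 1 := by omega
      simp only [if_neg h1]
      have h2 : v (n.choose q : K) = 1 := by
        refine nat_one_NW v q _ hq hv fun h => hqm ?_
        have h3 := Choose.choose_modEq_choose_mod_mul_choose_div_nat (n := n) (k := q) (p := q)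
        rw [hmod, hdiv, Nat.mod_self, Nat.div_self hq.pos, Nat.choose_zero_right,
          Nat.choose_one_right, one_mul] at h3
        exact (Nat.modEq_zero_iff_dvd).1 (h3.symm.trans ((Nat.modEq_zero_iff_dvd).2 h))
      have h4 : v (((n : K) - 1) * ((n + 1).choose q : K) * x ^ (n + 1 - q)) <
          v (((n : K) + 1) * (n.choose q : K) * x ^ (n - q)) := by
        rw [vB, h2]
        exact lt_of_le_of_lt (vA q) hv
      rw [v.map_sub_eq_of_lt_right h4, vB, h2])
    (by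
      intro i h1 _
      have h2 : i ≠ 1 := by omega
      simp only [if_neg h2]
      refine v.map_sub_le ((vA i).trans hv.le) ?_
      rw [vB]
      exact nat_le_NW v _)
    (by
      have h1 := hTAY K n x (x' - x) (by omega)
      rw [add_sub_cancel, h0, h0', zero_add] at h1
      rw [← Finset.insert_Icc_add_one_left_eq_Icc (by omega : 1 ≤ n + 1),
        Finset.sum_insert (by simp)]
      simp only [if_true, pow_one]
      rw [h1]
      congr 1
      refine Finset.sum_congr rfl fun i hi => ?_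
      have h2 : i ≠ 1 := by
        have := (Finset.mem_Icc.1 hi).1
        omega
      rw [if_neg h2])
  simp only [if_true] at key
  rw [v.map_sub_swap, key, vd]

end Pool.Agent.MP_9c0351_nt.Gal

end

section

/-! The unique root of positive order at a prime that divides `n - 1` exactly once. -/

set_option autoImplicit false

open Polynomial Filter
open scoped NNReal

namespace Pool.Agent.MP_9c0351_nt.Gal

section
variable {K : Type} [Field K] (v : Valuation K ℝ≥0)

theorem nat_le_GE1 (m : ℕ) : v (m : K) ≤ 1 := by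
  induction m with
  | zero => simp
  | succ m ih =>
    rw [Nat.cast_succ]
    exact v.map_add_le ih (by simp)

theorem int_le_GE1 (z : ℤ) : v (z : K) ≤ 1 := by
  obtain ⟨m, rfl | rfl⟩ := Int.eq_nat_or_neg z
  · rw [Int.cast_natCast]
    exact nat_le_GE1 v m
  · rw [Int.cast_neg, Valuation.map_neg, Int.cast_natCast]
    exact nat_le_GE1 v m

theorem unit_GE1 {q m : ℕ} (hq : q.Prime) (hv : v (q : K) < 1) (h : ¬ q ∣ m) : v (m : K) = 1 := by
  refine le_antisymm (nat_le_GE1 v m) (not_lt.1 fun hm => ?_)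
  have h1 := Nat.gcd_eq_gcd_ab q m
  rw [Nat.Coprime.gcd_eq_one ((Nat.Prime.coprime_iff_not_dvd hq).2 h)] at h1
  have h2 : (1 : K) = (q : K) * (Nat.gcdA q m : K) + (m : K) * (Nat.gcdB q m : K) := by
    exact_mod_cast congrArg (Int.cast : ℤ → K) h1
  have h3 : v (1 : K) < 1 := by
    rw [h2]
    refine v.map_add_lt ?_ ?_
    · rw [map_mul]
      exact (mul_le_of_le_one_right' (int_le_GE1 v _)).trans_lt hv
    · rw [map_mul]
      exact (mul_le_of_le_one_right' (int_le_GE1 v _)).trans_lt hm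
  simp at h3

theorem geom_GE1 {x y : K} (hx : v x < 1) (hy : v y < 1) {m : ℕ} (hm : 2 ≤ m) :
    v (∑ i ∈ Finset.range m, x ^ i * y ^ (m - 1 - i)) < 1 := by
  refine v.map_sum_lt one_ne_zero fun i _ => ?_
  rw [map_mul, map_pow, map_pow]
  rcases Nat.eq_zero_or_pos i with rfl | hi
  · rw [pow_zero, one_mul]
    exact pow_lt_one₀ zero_le hy (by omega)
  · exact (mul_le_of_le_one_right' (pow_le_one₀ zero_le hy.le)).trans_lt
      (pow_lt_one₀ zero_le hx hi.ne')

theorem uniq_GE1 {n : ℕ} (hn : 2 ≤ n) (ha : v ((n : K) - 1) ≤ 1) (hb : v ((n : K) + 1) = 1)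
    {x y : K} (hx : v x < 1) (hy : v y < 1) (sx : Sv n x = 0) (sy : Sv n y = 0) : x = y := by
  by_contra hne
  have g1 := (Commute.all x y).geom_sum₂_mul n
  have g2 := (Commute.all x y).geom_sum₂_mul (n + 1)
  have l1 := geom_GE1 v hx hy hn
  have l2 := geom_GE1 v hx hy (m := n + 1) (by omega)
  generalize ∑ i ∈ Finset.range n, x ^ i * y ^ (n - 1 - i) = G1 at g1 l1
  generalize ∑ i ∈ Finset.range (n + 1), x ^ i * y ^ (n + 1 - 1 - i) = G2 at g2 l2
  unfold Sv at sx sy
  have e : ((n : K) + 1) = ((n : K) + 1) * G1 - ((n : K) - 1) * G2 := by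
    apply mul_right_cancel₀ (sub_ne_zero.2 hne)
    linear_combination sx - sy - ((n : K) + 1) * g1 + ((n : K) - 1) * g2
  have h3 : v (((n : K) + 1) * G1 - ((n : K) - 1) * G2) < 1 := by
    refine v.map_sub_lt ?_ ?_
    · rw [map_mul, hb, one_mul]
      exact l1
    · rw [map_mul]
      exact (mul_le_of_le_one_left' ha).trans_lt l2
  rw [← e, hb] at h3
  exact lt_irrefl _ h3

end

theorem GE1_pf : GE1_st := by
  intro K _ _ _ v n q R hn hq h5 hv hE hA
  obtain ⟨⟨k, hk⟩, hk2⟩ := hE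
  have hqk : ¬ q ∣ k := by
    rintro ⟨l, rfl⟩
    exact hk2 ⟨l, by rw [hk]; ring⟩
  have ha : v ((n : K) - 1) = v (q : K) := by
    have : (n : K) - 1 = (q : K) * (k : K) := by
      rw [← Nat.cast_mul, ← hk, Nat.cast_sub (by omega), Nat.cast_one]
    rw [this, map_mul, unit_GE1 v hq hv hqk, mul_one]
  have hb : v ((n : K) + 1) = 1 := by
    rw [← Nat.cast_succ]
    refine unit_GE1 v hq hv fun h => ?_
    have h2 : q ∣ 2 := by
      have := (Nat.dvd_add_right (Dvd.intro k rfl)).1 (show q ∣ q * k + 2 by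
        rw [← hk, show n - 1 + 2 = n.succ by omega]; exact h)
      exact this
    have := Nat.le_of_dvd two_pos h2
    omega
  have h4 : v (4 : K) = 1 := by
    have := unit_GE1 v hq hv (m := 4) fun h => by
      have := Nat.le_of_dvd (by norm_num) h
      omega
    exact_mod_cast this
  have h2n : v (2 * (n : K)) ≤ 1 := by
    have := nat_le_GE1 v (2 * n)
    exact_mod_cast this
  obtain ⟨x, hx, hx1⟩ : ∃ x ∈ R, v (((n : K) - 1) * x - ((n : K) + 1)) < 1 := by
    by_contra hc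
    push Not at hc
    have h1 := Finset.one_le_prod' hc
    rw [← map_prod, hA.pa, map_div₀, h4, div_one, map_mul, map_pow, map_pow, ha] at h1
    refine absurd h1 (not_le.2 ?_)
    exact (mul_le_of_le_one_right' (pow_le_one₀ zero_le h2n)).trans_lt
      (pow_lt_one₀ zero_le hv (by omega))
  have hax : v (q : K) * v x = 1 := by
    rw [← ha, ← map_mul, ← sub_add_cancel (((n : K) - 1) * x) ((n : K) + 1),
      v.map_add_eq_of_lt_right (hb ▸ hx1), hb]
  have hx0 : v x⁻¹ = v (q : K) := by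
    rw [map_inv₀]
    exact (eq_inv_of_mul_eq_one_left hax).symm
  have hU : ∀ y ∈ R, v y < 1 → y = x⁻¹ := fun y hy hy1 =>
    uniq_GE1 v (by omega) (ha ▸ hv.le) hb hy1 (hx0 ▸ hv) ((hA.mem y).1 hy).1
      ((hA.mem _).1 (hA.inv x hx)).1
  refine ⟨x⁻¹, hA.inv x hx, hx0, fun y hy h1 h2 => ?_⟩
  rcases lt_trichotomy (v y) 1 with h | h | h
  · exact absurd (hU y hy h) h1
  · exact h
  · refine absurd ?_ h2
    rw [← hU y⁻¹ (hA.inv y hy) (by rw [map_inv₀]; exact inv_lt_one_of_one_lt₀ h), inv_inv]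

end Pool.Agent.MP_9c0351_nt.Gal

end

section

/-! The element `c` of the inertia group. -/

set_option autoImplicit false

open Polynomial Filter
open scoped NNReal

namespace Pool.Agent.MP_9c0351_nt.Gal

theorem stab_LO2 {K : Type} [Field K] [CharZero K] [DecidableEq K] {n : ℕ} {R : Finset K}
    (hA : Alg n R) (g : K ≃ₐ[ℚ] K) {x : K} (hx : x ∈ R) : g x ∈ R := by
  obtain ⟨h0, h1, h2⟩ := (hA.mem x).1 hx
  refine (hA.mem _).2 ⟨?_, fun h => h1 (g.injective ?_), fun h => h2 (g.injective ?_)⟩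
  · rw [Sv_map, h0, map_zero]
  · simpa using h
  · simpa using h

theorem eq_one_LO2 {K : Type} [Field K] (v : Valuation K ℝ≥0) {x y : K} (hx : v x = 1)
    (hxy : v (x - y) < 1) : v y = 1 := by
  have h : y = x + -(x - y) := by ring
  rw [h, v.map_add_eq_of_lt_left (by rw [v.map_neg, hx]; exact hxy), hx]

theorem lt_one_LO2 {K : Type} [Field K] (v : Valuation K ℝ≥0) {a b : K} (ha : v a < 1)
    (hb : v b < 1) : v (a - b) < 1 :=
  lt_of_le_of_lt (v.map_sub a b) (max_lt ha hb)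

theorem arith1_LO2 {h u j : ℕ} (hc : Nat.Coprime h u) : 2 * h ∣ 2 * u * j ↔ h ∣ j := by
  rw [mul_assoc, Nat.mul_dvd_mul_iff_left (by norm_num : 0 < 2)]
  exact ⟨fun hd => hc.dvd_of_dvd_mul_left hd, fun hd => Dvd.dvd.mul_left hd u⟩

theorem arith2_LO2 {h u j : ℕ} (h0 : 0 < h) (hc : Nat.Coprime h u) (hu : Even h → Odd u) :
    2 * u * j ≡ h [MOD 2 * h] ↔ Even h ∧ j % h = h / 2 := by
  constructor
  · intro hm
    have he : Even h := by
      have h2 : 2 * u * j ≡ h [MOD 2] := hm.of_mul_right h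
      unfold Nat.ModEq at h2
      rw [mul_assoc, Nat.mul_mod_right] at h2
      exact Nat.even_iff.2 h2.symm
    refine ⟨he, ?_⟩
    obtain ⟨k, hk⟩ := he
    obtain ⟨w, hw⟩ := hu ⟨k, hk⟩
    have hk2 : h = 2 * k := by omega
    have h3 : u * j ≡ k [MOD h] := by
      have : 2 * (u * j) ≡ 2 * k [MOD 2 * h] := by
        rw [← mul_assoc, ← hk2]
        exact hm
      exact Nat.ModEq.mul_left_cancel' (by norm_num) this
    have h4 : u * k ≡ k [MOD h] := by
      have : u * k = k + h * w := by rw [hw, hk2]; ring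
      rw [this]
      exact Nat.ModEq.symm (Nat.modEq_iff_dvd' (by omega) |>.2 (by simp))
    have h5 : j ≡ k [MOD h] := Nat.ModEq.cancel_left_of_coprime hc (h3.trans h4.symm)
    unfold Nat.ModEq at h5
    rw [h5, Nat.mod_eq_of_lt (by omega)]
    omega
  · rintro ⟨⟨k, hk⟩, hj⟩
    obtain ⟨w, hw⟩ := hu ⟨k, hk⟩
    have hk2 : h = 2 * k := by omega
    have hj2 : j = h * (j / h) + k := by
      have := Nat.div_add_mod j h
      omega
    have : 2 * u * j = h + 2 * h * (u * (j / h) + w) := by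
      rw [hj2]
      have h6 : (h * (j / h) + k) / h = j / h := by rw [← hj2]
      rw [h6, hw]
      generalize j / h = t
      rw [hk2]
      ring
    rw [this]
    exact Nat.ModEq.symm (Nat.modEq_iff_dvd' (by omega) |>.2 (by simp))

theorem half_LO2 {K : Type} [Field K] [CharZero K] (τ : K ≃ₐ[ℚ] K) (A : Finset K) (h : ℕ)
    (hc : A.card = 2 * h) (hst : ∀ x ∈ A, τ x ∈ A)
    (hτ : ∀ x ∈ A, ∀ j : ℕ, (τ ^ j) x = x ↔ 2 * h ∣ j) {x : K} (hx : x ∈ A) (hi : x⁻¹ ∈ A)
    (hne : x⁻¹ ≠ x) (l : ℕ) : (τ ^ l) x = x⁻¹ ↔ l ≡ h [MOD 2 * h] := by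
  classical
  have hpow : ∀ j : ℕ, (τ ^ j) x ∈ A := by
    intro j
    induction j with
    | zero => simpa using hx
    | succ j ih =>
      rw [pow_succ', AlgEquiv.mul_apply]
      exact hst _ ih
  have hle : ∀ a b : ℕ, a ≤ b → ((τ ^ a) x = (τ ^ b) x ↔ a ≡ b [MOD 2 * h]) := by
    intro a b hab
    obtain ⟨d, rfl⟩ := Nat.exists_eq_add_of_le hab
    rw [pow_add, AlgEquiv.mul_apply, (τ ^ a).injective.eq_iff, eq_comm, hτ x hx,
      Nat.modEq_iff_dvd' hab, Nat.add_sub_cancel_left]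
  have heq : ∀ a b : ℕ, (τ ^ a) x = (τ ^ b) x ↔ a ≡ b [MOD 2 * h] := by
    intro a b
    rcases le_total a b with hab | hab
    · exact hle a b hab
    · rw [eq_comm, hle b a hab]
      exact ⟨Nat.ModEq.symm, Nat.ModEq.symm⟩
  have hsub : (Finset.range (2 * h)).image (fun j => (τ ^ j) x) ⊆ A := by
    intro y hy
    obtain ⟨j, -, rfl⟩ := Finset.mem_image.1 hy
    exact hpow j
  have hcard : ((Finset.range (2 * h)).image (fun j => (τ ^ j) x)).card = 2 * h := by
    rw [Finset.card_image_of_injOn, Finset.card_range]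
    intro a ha b hb hab
    exact Nat.ModEq.eq_of_lt_of_lt ((heq a b).1 hab) (Finset.mem_range.1 ha)
      (Finset.mem_range.1 hb)
  have hall := Finset.eq_of_subset_of_card_le hsub (by rw [hcard, hc])
  rw [← hall] at hi
  obtain ⟨i, hi1, hi2⟩ := Finset.mem_image.1 hi
  have hi3 : i < 2 * h := Finset.mem_range.1 hi1
  have h2 : (τ ^ (i + i)) x = x := by
    rw [pow_add, AlgEquiv.mul_apply, hi2, map_inv₀, hi2, inv_inv]
  have h3 : 2 * h ∣ i + i := (hτ x hx _).1 h2
  have h4 : i ≠ 0 := by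
    rintro rfl
    exact hne (by simpa using hi2.symm)
  have h5 : i = h := by
    obtain ⟨w, hw⟩ := h3
    have hw1 : w = 1 := by
      rcases w with _ | _ | w
      · omega
      · rfl
      · exfalso
        have : 2 * h * (w + 1 + 1) = 2 * h * w + 4 * h := by ring
        omega
    rw [hw1] at hw
    omega
  rw [← hi2, heq, h5]

theorem main_LO2 (hAFF : AFF_st) (hMUL : MUL_st) (K : Type) [Field K] [NumberField K]
    [DecidableEq K] (n q : ℕ) (R A : Finset K) (v : Valuation K ℝ≥0) (I : Subgroup (K ≃ₐ[ℚ] K))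
    (x0 : K) (hq : q.Prime) (h5 : 5 ≤ q) (hR : Alg n R) (hL : Loc q v I) (hG : Geo n q R v x0)
    (hA : ∀ x, x ∈ A ↔ x ∈ R ∧ v (x - 1) < 1) (hc : A.card = q - 3)
    (htr : ∀ a ∈ A, ∀ a' ∈ A, ∃ g ∈ I, g a = a') : ∃ c, Cel R A q c := by
  obtain ⟨h, hh⟩ : ∃ h, q = 2 * h + 3 := by
    obtain ⟨w, hw⟩ := hq.odd_of_ne_two (by omega)
    exact ⟨w - 1, by omega⟩
  have h0 : 0 < h := by omega
  have hc2 : A.card = 2 * h := by omega
  have e1 : (q - 3) / 2 = h := by omega
  have e2 : (q - 3) / 4 = h / 2 := by omega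
  have hst : ∀ g ∈ I, ∀ x ∈ A, g x ∈ A := by
    intro g hg x hx
    obtain ⟨hx1, hx2⟩ := (hA x).1 hx
    refine (hA _).2 ⟨stab_LO2 hR g hx1, ?_⟩
    have : g x - 1 = g (x - 1) := by simp
    rw [this, hL.iso g hg]
    exact hx2
  have h1A : (1 : K) ∉ A := fun h1 => ((hR.mem 1).1 ((hA 1).1 h1).1).2.1 rfl
  obtain ⟨τ, hτI, hτ⟩ := hMUL K q v I A hL h1A hst
    (fun x hx x' hx' hne => hG.dA x ((hA x).1 hx).1 x' ((hA x').1 hx').1 ((hA x).1 hx).2
      ((hA x').1 hx').2 hne) htr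
  rw [hc2] at hτ
  have hx0 : ∀ g ∈ I, g x0 = x0 := by
    intro g hg
    by_contra hne
    have hv : v (g x0) < 1 := by
      rw [hL.iso g hg]
      exact hG.x0v
    by_cases hi : g x0 = x0⁻¹
    · rw [hi, map_inv₀] at hv
      have hpos : 0 < v x0 := (v.pos_iff).2 (hR.ne0 x0 hG.x0R)
      exact absurd ((inv_lt_one₀ hpos).1 hv) (not_lt.2 hG.x0v.le)
    · exact absurd (hG.unit _ (stab_LO2 hR g hG.x0R) hne hi) hv.ne
  have hu : q * (q - 1) = 2 * (q * (h + 1)) := by
    have : q - 1 = 2 * (h + 1) := by omega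
    rw [this]
    ring
  have hcop : Nat.Coprime h (q * (h + 1)) := by
    refine Nat.Coprime.mul_right ?_ (by simp)
    exact ((Nat.coprime_of_lt_prime h0.ne' (by omega) hq)).symm
  have hodd : Even h → Odd (q * (h + 1)) := fun he =>
    (hq.odd_of_ne_two (by omega)).mul he.add_one
  refine ⟨τ ^ (q * (q - 1)), ?_, fun x hx => hst _ (I.pow_mem hτI _) x hx, ?_⟩
  · intro x hx hxA
    by_cases e0 : x = x0
    · rw [e0]
      exact hx0 _ (I.pow_mem hτI _)
    by_cases e0' : x = x0⁻¹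
    · rw [e0', map_inv₀, hx0 _ (I.pow_mem hτI _)]
    have hv : v x = 1 := hG.unit x hx e0 e0'
    have hv1 : v (x - 1) = 1 := by
      refine le_antisymm ?_ (not_lt.1 fun hlt => hxA ((hA x).2 ⟨hx, hlt⟩))
      refine (v.map_sub x 1).trans ?_
      rw [hv, v.map_one, max_self]
    refine hAFF K q (q - 1) v I {y | y ∈ R ∧ v (x - y) < 1} hq (by omega) hL ?_ ?_ τ hτI x
      ⟨hx, by simp⟩
    · rintro g hg y ⟨hy1, hy2⟩
      refine ⟨stab_LO2 hR g hy1, ?_⟩
      have : x - g y = (x - y) - (g y - y) := by ring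
      rw [this]
      exact lt_one_LO2 v hy2 (hL.res g hg y (eq_one_LO2 v hv hy2).le)
    · rintro y ⟨hy1, hy2⟩ y' ⟨hy1', hy2'⟩ hne
      refine hG.dW y hy1 y' hy1' (eq_one_LO2 v hv hy2) (eq_one_LO2 v hv1 ?_) ?_ hne
      · have : x - 1 - (y - 1) = x - y := by ring
        rw [this]
        exact hy2
      · have : y - y' = (x - y') - (x - y) := by ring
        rw [this]
        exact lt_one_LO2 v hy2' hy2
  · intro x hx j
    obtain ⟨hx1, hx2⟩ := (hA x).1 hx
    have hxn : x ≠ 0 := hR.ne0 x hx1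
    have hv : v x = 1 := by
      refine eq_one_LO2 v v.map_one ?_
      rw [← v.map_neg, neg_sub]
      exact hx2
    have hi : x⁻¹ ∈ A := by
      refine (hA _).2 ⟨hR.inv x hx1, ?_⟩
      have : x⁻¹ - 1 = -(x - 1) * x⁻¹ := by field_simp; ring
      rw [this, map_mul, v.map_neg, map_inv₀, hv, inv_one, mul_one]
      exact hx2
    have hne : x⁻¹ ≠ x := by
      intro he
      obtain ⟨-, a1, a2⟩ := (hR.mem x).1 hx1
      have : x * x = 1 := by
        nth_rewrite 1 [← he]
        exact inv_mul_cancel₀ hxn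
      rcases mul_self_eq_one_iff.1 this with b | b
      · exact a1 b
      · exact a2 b
    rw [← pow_mul, hu, e1, e2, hτ x hx, half_LO2 τ A h hc2 (hst τ hτI) hτ hx hi hne]
    exact ⟨arith1_LO2 hcop, arith2_LO2 h0 hcop hodd⟩

theorem LO2_pf (hAFF : AFF_st) (hMUL : MUL_st) : LO2_st := by
  intro K _ _ _ n q R v I x0 _ hq h5 hR hL hG htr
  exact main_LO2 hAFF hMUL K n q R _ v I x0 hq h5 hR hL hG (fun x => Finset.mem_filter) hG.cA htr

end Pool.Agent.MP_9c0351_nt.Gal

end

section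

set_option autoImplicit false

open Polynomial Filter
open scoped NNReal

namespace Pool.Agent.MP_9c0351_nt.Gal

theorem nat_le_FXR {K : Type} [Field K] (v : Valuation K ℝ≥0) (m : ℕ) : v (m : K) ≤ 1 := by
  induction m with
  | zero => simp
  | succ m ih => push_cast; exact v.map_add_le ih (by simp)

theorem nat_eq_FXR {K : Type} [Field K] (v : Valuation K ℝ≥0) {r m : ℕ} (hr : r.Prime)
    (hv : v (r : K) < 1) (hm : ¬ r ∣ m) : v (m : K) = 1 := by
  refine (nat_le_FXR v m).eq_of_not_lt fun h => ?_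
  have hz : ∀ a : ℤ, v (a : K) ≤ 1 := fun a => by
    obtain ⟨k, rfl | rfl⟩ := a.eq_nat_or_neg <;> simpa using nat_le_FXR v k
  obtain ⟨a, b, e⟩ := Nat.isCoprime_iff_coprime.2 ((Nat.Prime.coprime_iff_not_dvd hr).2 hm)
  have e1 : (a : K) * r + b * m = 1 := by exact_mod_cast congrArg (Int.cast : ℤ → K) e
  have : v ((a : K) * r + b * m) < 1 := v.map_add_lt
    (by rw [map_mul]; exact mul_lt_one_of_nonneg_of_lt_one_right (hz a) zero_le hv)
    (by rw [map_mul]; exact mul_lt_one_of_nonneg_of_lt_one_right (hz b) zero_le h)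
  simp [e1] at this

theorem FXR_pf (hVAL : VAL_st) (hN1 : N1_st) (hWLD : WLD_st) (hORB : ORB_st) (hSYL : SYL_st) :
    FXR_st := by
  intro K _ _ _ _ n r R hn hr h5 ho hx hA
  classical
  obtain ⟨v, I, hL⟩ := hVAL K r hr
  have u := fun m => nat_eq_FXR v (m := m) hr hL.lt
  have um : v ((n : K) - 1) = 1 := by
    have := u (n - 1) fun h => by
      have := (Nat.dvd_sub_iff_right (by omega) hx.1).1 h
      exact hr.one_lt.ne' (Nat.dvd_one.1 this)
    rwa [Nat.cast_sub (by omega), Nat.cast_one] at this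
  have up : v ((n : K) + 1) = 1 := by
    have := u (n + 1) fun h => hr.one_lt.ne' (Nat.dvd_one.1 ((Nat.dvd_add_right hx.1).1 h))
    rwa [Nat.cast_add, Nat.cast_one] at this
  have u2 : v (2 : K) = 1 := by simpa using u 2 fun h => by have := Nat.le_of_dvd two_pos h; omega
  have u4 : v (4 : K) = 1 := by simpa using u 4 fun h => by have := Nat.le_of_dvd four_pos h; omega
  have u6 : v (6 : K) = 1 := by
    have h3 : v (3 : K) = 1 := by
      simpa using u 3 fun h => by have := Nat.le_of_dvd three_pos h; omega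
    rw [show (6 : K) = 2 * 3 by norm_num, map_mul, u2, h3, one_mul]
  have un : v (n : K) = v (r : K) := by
    obtain ⟨⟨m, rfl⟩, h2⟩ := hx
    rw [Nat.cast_mul, map_mul, u m fun h => h2 (by rw [sq]; exact mul_dvd_mul_left r h), mul_one]
  have ge : ∀ x ∈ R, 1 ≤ v x := fun x hxR => by
    by_contra! h
    have e := ((hA.mem x).1 hxR).1
    have e1 : (n : K) - 1 = ((n : K) - 1) * x ^ (n + 1) - ((n : K) + 1) * (x ^ n - x) := by
      unfold Sv at e; linear_combination -e
    have : v (((n : K) - 1) * x ^ (n + 1) - ((n : K) + 1) * (x ^ n - x)) < 1 := by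
      refine v.map_sub_lt ?_ ?_
      · rw [map_mul, um, one_mul, map_pow]; exact pow_lt_one₀ zero_le h (by omega)
      · rw [map_mul, up, one_mul]
        exact v.map_sub_lt (by rw [map_pow]; exact pow_lt_one₀ zero_le h (by omega)) h
    rw [← e1, um] at this
    exact this.false
  have v1 : ∀ x ∈ R, v x = 1 := fun x hxR => le_antisymm (by
    have := ge _ (hA.inv x hxR)
    rwa [map_inv₀, one_le_inv₀ (zero_lt_one.trans_le (ge x hxR))] at this) (ge x hxR)
  have vp : ∀ x ∈ R, v (x + 1) = 1 := by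
    refine (Finset.prod_eq_one_iff_of_le_one' fun x hxR =>
      v.map_add_le (v1 x hxR).le (by simp)).1 ?_
    rw [← map_prod, hA.pm, fm, if_pos ho]
    push_cast
    rw [map_div₀, up, u4, div_one]
  have vm : ∀ x ∈ R, ¬ v (x - 1) < 1 → v (x - 1) = 1 := fun x hxR h =>
    (v.map_sub_le (v1 x hxR).le (by simp)).eq_of_not_lt h
  obtain ⟨A, hAd⟩ : ∃ A, A = R.filter fun x => v (x - 1) < 1 := ⟨_, rfl⟩
  have mA : ∀ x, x ∈ A ↔ x ∈ R ∧ v (x - 1) < 1 := fun x => by rw [hAd, Finset.mem_filter]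
  have pA : ∏ x ∈ A, v (x - 1) = v (r : K) := by
    have e : ∏ x ∈ R, v (x - 1) = v (r : K) := by
      rw [← map_prod, hA.p1, f1, ho]
      push_cast
      rw [map_div₀, map_mul, map_mul, pow_one, up, u6, u2, un]
      simp
    rw [← e, hAd, ← Finset.prod_filter_mul_prod_filter_not R fun x => v (x - 1) < 1,
      Finset.prod_eq_one (s := R.filter fun x => ¬ v (x - 1) < 1) fun x h =>
        vm x (Finset.mem_filter.1 h).1 (Finset.mem_filter.1 h).2, mul_one]
  have cA : A.card = r - 3 := by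
    have r0 : 0 < v (r : K) :=
      zero_lt_iff.2 ((Valuation.ne_zero_iff _).2 (Nat.cast_ne_zero.2 hr.ne_zero))
    refine (pow_right_strictAnti₀ r0 hL.lt).injective ?_
    rw [← Finset.prod_const]
    conv_rhs => rw [← pA, ← Finset.prod_pow]
    refine Finset.prod_congr rfl fun x h => ?_
    obtain ⟨h1, h2⟩ := (mA x).1 h
    obtain ⟨h3, h4, -⟩ := (hA.mem x).1 h1
    exact (hN1 K v n r x hn hr h5 hL.lt (Or.inr hx) h3 h4 h2).symm
  have sA : ∀ g ∈ I, ∀ x ∈ A, g • x ∈ A := fun g hg x h => by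
    obtain ⟨h1, h2⟩ := (mA x).1 h
    refine (mA _).2 ⟨(hA.mem _).2 ((RS n K).smul_mem g ((hA.mem x).1 h1)), ?_⟩
    rwa [AlgEquiv.smul_def, ← map_one g, ← map_sub, hL.iso g hg]
  obtain ⟨⟨P, hP, h1, h2⟩, -⟩ := hSYL (K ≃ₐ[ℚ] K) K I r hr
  refine ⟨P, A, hP, fun x h => ((mA x).1 h).1, cA, fun x hxR => ⟨fun h => ?_,
    fun h g hg => h2 A (by omega) sA g hg x h⟩⟩
  by_contra hc
  have e := vm x hxR fun h' => hc ((mA x).2 ⟨hxR, h'⟩)
  obtain ⟨g, hg, hne⟩ := h1 x (hORB K r v I x (x ^ (n / r) - 1) r hr hL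
    (fun σ _ hσ => by rw [map_sub, map_pow, hσ, map_one])
    ((hWLD K v n r x hn hr h5 hL.lt ((hA.mem x).1 hxR).1 (v1 x hxR) e (vp x hxR)).2 hx))
  exact hne (h g hg)

end Pool.Agent.MP_9c0351_nt.Gal

end

section

set_option autoImplicit false

open Polynomial Filter
open scoped NNReal

namespace Pool.Agent.MP_9c0351_nt.Gal

theorem fib_TR0 {K : Type} [Field K] {x x' : K} (h : x ≠ 0) (h' : x' ≠ 0) :
    x + x⁻¹ = x' + x'⁻¹ ↔ x' = x ∨ x' = x⁻¹ := by
  constructor
  · intro e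
    have : (x' - x) * (x' * x - 1) = 0 := by
      field_simp at e
      linear_combination -e
    rcases mul_eq_zero.1 this with h1 | h1
    · exact Or.inl (sub_eq_zero.1 h1)
    · exact Or.inr (eq_inv_of_mul_eq_one_left (sub_eq_zero.1 h1))
  · rintro (rfl | rfl)
    · rfl
    · rw [inv_inv, add_comm]

theorem ne_TR0 {K : Type} [Field K] {x : K} (h : x ≠ 0) (h1 : x ≠ 1) (h2 : x ≠ -1) :
    x⁻¹ ≠ x := fun e => by
  have : x * x = 1 := by
    nth_rewrite 1 [← e]
    exact inv_mul_cancel₀ h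
  rcases mul_self_eq_one_iff.1 this with h3 | h3
  · exact h1 h3
  · exact h2 h3

theorem card_TR0 {K : Type} [Field K] [DecidableEq K] (A : Finset K) (h0 : ∀ x ∈ A, x ≠ 0)
    (h1 : ∀ x ∈ A, x⁻¹ ≠ x) (h2 : ∀ x ∈ A, x⁻¹ ∈ A) :
    A.card = 2 * (A.image fun x => x + x⁻¹).card := by
  rw [Finset.card_eq_sum_card_image (fun x => x + x⁻¹) A, mul_comm, ← smul_eq_mul,
    ← Finset.sum_const]
  refine Finset.sum_congr rfl fun y hy => ?_
  obtain ⟨x, hx, rfl⟩ := Finset.mem_image.1 hy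
  rw [← Finset.card_pair (h1 x hx).symm]
  refine congrArg Finset.card (Finset.ext fun z => ?_)
  rw [Finset.mem_filter, Finset.mem_insert, Finset.mem_singleton]
  constructor
  · rintro ⟨hz, e⟩
    exact (fib_TR0 (h0 x hx) (h0 z hz)).1 e.symm
  · rintro (rfl | rfl)
    · exact ⟨hx, rfl⟩
    · exact ⟨h2 x hx, by rw [inv_inv, add_comm]⟩

theorem fix_TR0 {K : Type} [Field K] [CharZero K] {r : ℕ} {P : Subgroup (K ≃ₐ[ℚ] K)}
    (hr : r.Prime) (h3 : 3 ≤ r) (hP : IsPGroup r P) {g : K ≃ₐ[ℚ] K} (hg : g ∈ P) {x : K}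
    (h : g x = x⁻¹) : g x = x := by
  obtain ⟨k, hk⟩ := hP ⟨g, hg⟩
  have hk' : g ^ r ^ k = 1 := congrArg Subtype.val hk
  obtain ⟨j, hj⟩ : Odd (r ^ k) := (hr.odd_of_ne_two (by omega)).pow
  have h2 : ∀ i : ℕ, (g ^ (2 * i)) x = x := fun i => by
    induction i with
    | zero => rfl
    | succ i ih =>
      rw [mul_add, mul_one, pow_add, AlgEquiv.mul_apply, sq, AlgEquiv.mul_apply, h, map_inv₀, h,
        inv_inv, ih]
  have := h2 j
  rw [hj, pow_succ'] at hk'
  have e := congrArg (fun φ : K ≃ₐ[ℚ] K => φ x) hk'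
  simp only [AlgEquiv.mul_apply, AlgEquiv.one_apply] at e
  rwa [this] at e

theorem TR0_pf : TR0_st := by
  intro K _ _ _ n R H
  have mR : ∀ x, x ∈ RS n K ↔ x ∈ R := fun x => (H.mem x).symm
  have ne : ∀ x ∈ R, x⁻¹ ≠ x := fun x hx =>
    ne_TR0 (H.ne0 x hx) ((H.mem x).1 hx).2.1 ((H.mem x).1 hx).2.2
  have eR : (RS n K : Set K) = R := Set.ext mR
  have eY : (YS n K : Set K) = (R.image fun x => x + x⁻¹ : Finset K) := by
    ext y
    rw [Finset.mem_coe, Finset.mem_image]
    constructor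
    · rintro ⟨x, hx, e⟩
      exact ⟨x, (mR x).1 hx, e.symm⟩
    · rintro ⟨x, hx, e⟩
      exact ⟨x, (mR x).2 hx, e.symm⟩
  have f1 : (RS n K : Set K).Finite := eR ▸ R.finite_toSet
  have f2 : (YS n K : Set K).Finite := eY ▸ Finset.finite_toSet _
  refine ⟨f1, f2, ?_, ⟨fun x => ⟨(x : K)⁻¹, (mR _).2 (H.inv _ ((mR _).1 x.2))⟩,
    fun x => ⟨x + (x : K)⁻¹, x, x.2, rfl⟩, fun _ => rfl, fun _ => rfl, fun x e => ?_,
    fun x x' => ?_, ?_, fun g x => ?_, fun g x => ?_⟩, fun r P A hr h3 hP hA hfix => ?_⟩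
  · change (YS n K : Set K).ncard = _
    have := card_TR0 R H.ne0 ne H.inv
    rw [eY, Set.ncard_coe_finset]
    rw [H.card] at this
    omega
  · exact ne _ ((mR _).1 x.2) (congrArg Subtype.val e)
  · rw [Subtype.ext_iff, Subtype.ext_iff, Subtype.ext_iff]
    exact fib_TR0 (H.ne0 _ ((mR _).1 x.2)) (H.ne0 _ ((mR _).1 x'.2))
  · rintro ⟨y, x, hx, rfl⟩
    exact ⟨⟨x, hx⟩, rfl⟩
  · exact Subtype.ext (map_inv₀ g (x : K))
  · refine Subtype.ext ?_
    change g x + (g x)⁻¹ = g (x + (x : K)⁻¹)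
    rw [map_add, map_inv₀]
  · have hinv : ∀ x ∈ A, x⁻¹ ∈ A := fun x hx =>
      (hfix _ (H.inv x (hA hx))).1 fun g hg => by
        rw [map_inv₀, (hfix x (hA hx)).2 hx g hg]
    rw [card_TR0 A (fun x hx => H.ne0 x (hA hx)) (fun x hx => ne x (hA hx)) hinv,
      ← Set.ncard_coe_finset, ← Set.ncard_image_of_injective _ Subtype.val_injective]
    refine congrArg (fun s : Set K => 2 * s.ncard) (Set.ext fun y => ?_)
    rw [Finset.mem_coe, Finset.mem_image]
    constructor
    · rintro ⟨⟨y, x, hx, rfl⟩, hy, rfl⟩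
      have hxR := (mR x).1 hx
      refine ⟨x, (hfix x hxR).1 fun g hg => ?_, rfl⟩
      have e : g (x + x⁻¹) = x + x⁻¹ := congrArg Subtype.val (hy g hg)
      rw [map_add, map_inv₀] at e
      rcases (fib_TR0 (H.ne0 x hxR) ((map_ne_zero g).2 (H.ne0 x hxR))).1 e.symm with h | h
      · exact h
      · exact fix_TR0 hr h3 hP hg h
    · rintro ⟨x, hx, rfl⟩
      refine ⟨⟨x + x⁻¹, x, (mR x).2 (hA hx), rfl⟩, fun g hg => Subtype.ext ?_, rfl⟩
      change g (x + x⁻¹) = x + x⁻¹
      rw [map_add, map_inv₀, (hfix x (hA hx)).2 hx g hg]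

end Pool.Agent.MP_9c0351_nt.Gal

end

section

/-! From the local data on the roots to the local data on the traces. -/

set_option autoImplicit false

open Polynomial Filter
open scoped NNReal

namespace Pool.Agent.MP_9c0351_nt.Gal

theorem tr_eq_TRL {K : Type} [Field K] {x x' : K} (hx : x ≠ 0) (hx' : x' ≠ 0) :
    x + x⁻¹ = x' + x'⁻¹ ↔ x' = x ∨ x' = x⁻¹ := by
  constructor
  · intro h
    have h1 : (x' - x) * (x' * x - 1) = 0 := by
      field_simp at h
      linear_combination -h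
    rcases mul_eq_zero.1 h1 with h2 | h2
    · exact Or.inl (sub_eq_zero.1 h2)
    · exact Or.inr (eq_inv_of_mul_eq_one_left (sub_eq_zero.1 h2))
  · rintro (rfl | rfl)
    · rfl
    · rw [inv_inv, add_comm]

theorem inv_ne_TRL {K : Type} [Field K] {x : K} (h0 : x ≠ 0) (h1 : x ≠ 1) (h2 : x ≠ -1) :
    x⁻¹ ≠ x := by
  intro h
  have h3 : x * x = 1 := by
    nth_rewrite 1 [← h]
    exact inv_mul_cancel₀ h0
  rcases mul_self_eq_one_iff.1 h3 with h4 | h4
  · exact h1 h4
  · exact h2 h4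

/-- the traces of the elements of `B` -/
def TY_TRL (n : ℕ) {K : Type} [Field K] [CharZero K] (B : Finset K) : Set (YS n K) :=
  {y | ∃ x ∈ B, (y : K) = x + x⁻¹}

section
variable {K : Type} [Field K] [CharZero K] [DecidableEq K] {n : ℕ} {R : Finset K}

theorem mem_RS_TRL (h : Alg n R) {x : K} : x ∈ RS n K ↔ x ∈ R := (h.mem x).symm

theorem mem_YS_TRL (h : Alg n R) {x : K} (hx : x ∈ R) : x + x⁻¹ ∈ YS n K :=
  ⟨x, (mem_RS_TRL h).2 hx, rfl⟩

theorem ex_TRL (h : Alg n R) (y : YS n K) : ∃ x ∈ R, (y : K) = x + x⁻¹ := by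
  obtain ⟨x, hx, e⟩ := y.2
  exact ⟨x, (mem_RS_TRL h).1 hx, e⟩

theorem invne_TRL (h : Alg n R) {x : K} (hx : x ∈ R) : x⁻¹ ≠ x :=
  inv_ne_TRL (h.ne0 x hx) ((h.mem x).1 hx).2.1 ((h.mem x).1 hx).2.2

theorem mem_TY_TRL (h : Alg n R) {B : Finset K} (hB : B ⊆ R) (hi : ∀ x ∈ B, x⁻¹ ∈ B)
    {y : YS n K} {x : K} (hx : x ∈ R) (e : (y : K) = x + x⁻¹) : y ∈ TY_TRL n B ↔ x ∈ B := by
  constructor
  · rintro ⟨x', hx', e'⟩
    rcases (tr_eq_TRL (h.ne0 x' (hB hx')) (h.ne0 x hx)).1 (e'.symm.trans e) with k | k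
    · rw [k]; exact hx'
    · rw [k]; exact hi x' hx'
  · intro hxB
    exact ⟨x, hxB, e⟩

omit [DecidableEq K] in
theorem smul_val_TRL (g : K ≃ₐ[ℚ] K) {y : YS n K} {x : K} (e : (y : K) = x + x⁻¹) :
    ((g • y : YS n K) : K) = g x + (g x)⁻¹ := by
  rw [SubMulAction.val_smul, e, AlgEquiv.smul_def, map_add, map_inv₀]

theorem smul_eq_TRL (h : Alg n R) (g : K ≃ₐ[ℚ] K) {y : YS n K} {x : K} (hx : x ∈ R)
    (e : (y : K) = x + x⁻¹) : g • y = y ↔ g x = x ∨ g x = x⁻¹ := by
  have h0 := h.ne0 x hx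
  rw [← tr_eq_TRL h0 ((map_ne_zero g).2 h0), Subtype.ext_iff, smul_val_TRL g e, e]
  exact eq_comm

theorem image_TY_TRL (h : Alg n R) {B : Finset K} (hB : B ⊆ R) :
    Subtype.val '' TY_TRL n B = ((B.image fun x => x + x⁻¹ : Finset K) : Set K) := by
  ext z
  simp only [Set.mem_image, Finset.coe_image, Finset.mem_coe]
  constructor
  · rintro ⟨y, ⟨x, hx, e⟩, rfl⟩
    exact ⟨x, hx, e.symm⟩
  · rintro ⟨x, hx, rfl⟩
    exact ⟨⟨_, mem_YS_TRL h (hB hx)⟩, ⟨x, hx, rfl⟩, rfl⟩

theorem fin_TY_TRL (h : Alg n R) {B : Finset K} (hB : B ⊆ R) : (TY_TRL n B).Finite :=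
  Set.Finite.of_finite_image (f := Subtype.val)
    (by rw [image_TY_TRL h hB]; exact Finset.finite_toSet _) Subtype.val_injective.injOn

theorem ncard_TY_TRL (h : Alg n R) {B : Finset K} (hB : B ⊆ R) (hi : ∀ x ∈ B, x⁻¹ ∈ B) :
    2 * (TY_TRL n B).ncard = B.card := by
  rw [← Set.ncard_image_of_injective _ Subtype.val_injective, image_TY_TRL h hB,
    Set.ncard_coe_finset, Finset.card_eq_sum_card_image (fun x => x + x⁻¹) B, mul_comm,
    ← smul_eq_mul, ← Finset.sum_const]
  refine Finset.sum_congr rfl fun z hz => ?_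
  obtain ⟨x, hx, rfl⟩ := Finset.mem_image.1 hz
  have e : B.filter (fun a => a + a⁻¹ = x + x⁻¹) = {x, x⁻¹} := by
    ext a
    simp only [Finset.mem_filter, Finset.mem_insert, Finset.mem_singleton]
    constructor
    · rintro ⟨ha, k⟩
      exact (tr_eq_TRL (h.ne0 x (hB hx)) (h.ne0 a (hB ha))).1 k.symm
    · rintro (rfl | rfl)
      · exact ⟨hx, rfl⟩
      · exact ⟨hi x hx, by rw [inv_inv, add_comm]⟩
  rw [e, Finset.card_pair (invne_TRL h (hB hx)).symm]

omit [DecidableEq K] in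
theorem odd_pow_TRL (g : K ≃ₐ[ℚ] K) {x : K} (hg : g x = x⁻¹) (m : ℕ) :
    (g ^ (2 * m + 1)) x = x⁻¹ := by
  induction m with
  | zero => simpa using hg
  | succ m ih =>
    rw [show 2 * (m + 1) + 1 = (2 * m + 1) + 1 + 1 by ring, pow_succ, pow_succ, AlgEquiv.mul_apply,
      AlgEquiv.mul_apply, hg, map_inv₀, hg, inv_inv, ih]

omit [DecidableEq K] in
theorem fix_TRL {q : ℕ} (hq : Odd q) {P : Subgroup (K ≃ₐ[ℚ] K)} (hP : IsPGroup q P)
    {g : K ≃ₐ[ℚ] K} (hg : g ∈ P) {x : K} (hx : x⁻¹ ≠ x) : g x ≠ x⁻¹ := by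
  intro k
  obtain ⟨m, hm⟩ := hP ⟨g, hg⟩
  obtain ⟨j, hj⟩ := hq.pow (n := m)
  have e : g ^ (q ^ m) = 1 := congrArg Subtype.val hm
  have := odd_pow_TRL g k j
  rw [← hj, e] at this
  exact hx this.symm

omit [DecidableEq K] in
theorem pow_mem_TRL {A : Finset K} {c : K ≃ₐ[ℚ] K} (hc : ∀ x ∈ A, c x ∈ A) (j : ℕ) :
    ∀ x ∈ A, (c ^ j) x ∈ A := by
  induction j with
  | zero => intro x hx; simpa using hx
  | succ j ih =>
    intro x hx
    rw [pow_succ, AlgEquiv.mul_apply]
    exact ih _ (hc x hx)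

end

theorem TRL_pf : TRL_st := by
  intro K _ _ _ n q k R A A' x0 I P c h hq h11 hW hC
  obtain ⟨hP, hx0, hA, hA', cA, cA', iA, iA', nA, nA', dA, fx, fI, tA, tA'⟩ := hW
  obtain ⟨c1, c2, c3⟩ := hC
  have hodd : Odd q := hq.odd_of_ne_two (by omega)
  have hq2 : q % 2 = 1 := Nat.odd_iff.1 hodd
  have nY : (TY_TRL n A).ncard = (q - 3) / 2 := by
    have := ncard_TY_TRL h hA iA
    omega
  have nY' : (TY_TRL n A').ncard = k := by
    have := ncard_TY_TRL h hA' iA'
    omega
  have tr : ∀ B : Finset K, (∀ a ∈ B, ∀ a' ∈ B, ∃ g ∈ I, g a = a') →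
      ∀ a ∈ TY_TRL n B, ∀ a' ∈ TY_TRL n B, ∃ g ∈ I, g • a = a' := by
    rintro B hB a ⟨x, hx, e⟩ a' ⟨x', hx', e'⟩
    obtain ⟨g, hg, k⟩ := hB x hx x' hx'
    exact ⟨g, hg, Subtype.ext (by rw [smul_val_TRL g e, k, e'])⟩
  refine ⟨I, P, c, ⟨_, mem_YS_TRL h hx0⟩, TY_TRL n A, TY_TRL n A', hP, nY, nY',
    fun k => nA ((mem_TY_TRL h hA iA hx0 rfl).1 k),
    fun k => nA' ((mem_TY_TRL h hA' iA' hx0 rfl).1 k), ?_, fun y => ?_, fun g hg => ?_,
    tr A tA, tr A' tA', fun y => ?_, fun ho a ha a' ha' => ?_⟩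
  · rw [Set.disjoint_left]
    intro y k k'
    obtain ⟨x, hx, e⟩ := ex_TRL h y
    exact Finset.disjoint_left.1 dA ((mem_TY_TRL h hA iA hx e).1 k)
      ((mem_TY_TRL h hA' iA' hx e).1 k')
  · obtain ⟨x, hx, e⟩ := ex_TRL h y
    have e1 : (∀ g ∈ P, g • y = y) ↔ ∀ g ∈ P, g x = x := by
      refine forall_congr' fun g => forall_congr' fun hg => ?_
      rw [smul_eq_TRL h g hx e]
      exact or_iff_left (fix_TRL hodd hP hg (invne_TRL h hx))
    rw [e1, fx x hx, mem_TY_TRL h hA iA hx e, mem_TY_TRL h hA' iA' hx e, ← or_assoc,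
      ← tr_eq_TRL (h.ne0 x0 hx0) (h.ne0 x hx), Subtype.ext_iff, e]
    exact or_congr_left eq_comm
  · exact (smul_eq_TRL h g hx0 rfl).2 (Or.inl (fI g hg))
  · obtain ⟨x, hx, e⟩ := ex_TRL h y
    rw [mem_TY_TRL h hA iA hx e, Ne, smul_eq_TRL h c hx e]
    constructor
    · intro k
      by_contra k'
      exact k (Or.inl (c1 x hx k'))
    · intro hxA
      obtain ⟨k1, k2⟩ := c3 x hxA 1
      rw [pow_one] at k1 k2
      rw [k1, k2]
      rintro (k | ⟨k, k'⟩)
      · have := Nat.le_of_dvd one_pos k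
        omega
      · rw [Nat.mod_eq_of_lt (by omega)] at k'
        omega
  · obtain ⟨x, hx, e⟩ := ha
    have key : ∀ i j : ℕ, i < j → j < (q - 3) / 2 → c ^ i • a ≠ c ^ j • a := by
      intro i j hij hj k
      have hx' := pow_mem_TRL c2 i x hx
      have k' : c ^ (j - i) • (c ^ i • a) = c ^ i • a := by
        rw [← mul_smul, ← pow_add, Nat.sub_add_cancel hij.le, k]
      obtain ⟨k1, k2⟩ := c3 _ hx' (j - i)
      rcases (smul_eq_TRL h _ (hA hx') (smul_val_TRL (c ^ i) e)).1 k' with k3 | k3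
      · have := Nat.le_of_dvd (by omega) (k1.1 k3)
        omega
      · exact (Nat.not_even_iff_odd.2 ho) (k2.1 k3).1
    have inj : Set.InjOn (fun j : ℕ => c ^ j • a) (Set.Iio ((q - 3) / 2)) := by
      intro i hi j hj k
      rcases lt_trichotomy i j with l | l | l
      · exact absurd k (key i j l hj)
      · exact l
      · exact absurd k.symm (key j i l hi)
    have sub : (fun j : ℕ => c ^ j • a) '' Set.Iio ((q - 3) / 2) ⊆ TY_TRL n A := by
      rintro _ ⟨j, _, rfl⟩
      exact ⟨_, pow_mem_TRL c2 j x hx, smul_val_TRL (c ^ j) e⟩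
    have eq := Set.eq_of_subset_of_ncard_le sub
      (by rw [nY, inj.ncard_image, Set.ncard_Iio_nat]) (fin_TY_TRL h hA)
    rw [← eq] at ha'
    obtain ⟨j, _, hj⟩ := ha'
    exact ⟨j, hj⟩

end Pool.Agent.MP_9c0351_nt.Gal

end

section

set_option autoImplicit false

open Polynomial Filter
open scoped NNReal Pointwise

namespace Pool.Agent.MP_9c0351_nt.Gal

theorem cnt_BLK {G Y : Type} [Group G] [Finite Y] [MulAction G Y] {q : ℕ} (hq : q.Prime)
    (P : Subgroup G) (hP : IsPGroup q P) (Z F : Set Y)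
    (hF : ∀ y, (∀ g ∈ P, g • y = y) ↔ y ∈ F) (hZ : ∀ g ∈ P, ∀ z ∈ Z, g • z ∈ Z) :
    Z.ncard ≡ (Z ∩ F).ncard [MOD q] := by
  have : Fact q.Prime := ⟨hq⟩
  let S : SubMulAction P Y := ⟨Z, fun g _ hz => hZ g g.2 _ hz⟩
  have h := hP.card_modEq_card_fixedPoints S
  have h1 : Nat.card S = Z.ncard := rfl
  have h2 : Nat.card (MulAction.fixedPoints P S) = (Z ∩ F).ncard := by
    rw [← Nat.card_coe_set_eq]
    refine Nat.card_congr
      { toFun := fun x => ⟨x.1.1, x.1.2, (hF _).1 fun g hg =>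
          congrArg Subtype.val (x.2 ⟨g, hg⟩)⟩
        invFun := fun y => ⟨⟨y.1, y.2.1⟩, fun g => Subtype.ext ((hF _).2 y.2.2 g.1 g.2)⟩
        left_inv := fun _ => rfl
        right_inv := fun _ => rfl }
  rwa [h1, h2] at h

theorem stab_BLK {G Y : Type} [Group G] [MulAction G Y] {B : Set Y}
    (hB : MulAction.IsBlock G B) {g : G} {a z : Y} (ha : a ∈ B) (hga : g • a ∈ B) (hz : z ∈ B) :
    g • z ∈ B := by
  rw [← hB.smul_eq_of_mem ha hga]
  exact Set.smul_mem_smul_set hz

theorem ari_BLK {q u s j : ℕ} (hq : q.Prime) (hu0 : 0 < u) (hu : u < q) {β : ℕ}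
    (h1 : β ≡ u [MOD q]) (h2 : s * β ≡ j * u [MOD q]) : (q : ℤ) ∣ (s : ℤ) - j := by
  have h3 : s * u ≡ j * u [MOD q] := ((h1.mul_left s).symm).trans h2
  have hc : Nat.gcd q u = 1 :=
    (Nat.Prime.coprime_iff_not_dvd hq).2 (Nat.not_dvd_of_pos_of_lt hu0 hu)
  exact (Nat.ModEq.cancel_right_of_coprime hc h3).symm.dvd

theorem BLK_pf : BLK_st := by
  intro G Y _ _ _ _ q h k s B htr hq hqh hk hh hL hB hB2 hs
  obtain ⟨I, P, c, y0, A, A', hP, hA, hA', hy, hy', hAA, hfix, hI0, hIA, hIA', hc, -⟩ := hL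
  set F : Set Y := insert y0 (A ∪ A') with hFdef
  have hF : ∀ y, (∀ g ∈ P, g • y = y) ↔ y ∈ F := fun y => (hfix y).trans (by simp [hFdef])
  have hFc : F.ncard = 1 + h + k := by
    rw [hFdef, Set.ncard_insert_of_notMem (by simp [hy, hy']), Set.ncard_union_eq hAA, hA, hA']
    ring
  have hFq : F.ncard < q := by omega
  have hY : s * B.ncard ≡ 1 + h + k [MOD q] := by
    have := cnt_BLK hq P hP Set.univ F hF (fun _ _ _ _ => Set.mem_univ _)
    rwa [Set.univ_inter, Set.ncard_univ, ← hs, hFc] at this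
  obtain ⟨b, hb⟩ : B.Nonempty := Set.nonempty_of_ncard_ne_zero (by omega)
  have htl : ∀ y ∈ F, ∃ g : G, y ∈ g • B ∧ B.ncard ≡ (g • B ∩ F).ncard [MOD q] := by
    intro y hyF
    obtain ⟨g, hg⟩ := htr.exists_smul_eq b y
    have hyB : y ∈ g • B := hg ▸ Set.smul_mem_smul_set hb
    refine ⟨g, hyB, ?_⟩
    rw [← Set.ncard_smul_set g B]
    refine cnt_BLK hq P hP _ F hF fun p hp z hz => stab_BLK (hB.translate g) hyB ?_ hz
    rw [(hF y).2 hyF p hp]
    exact hyB
  obtain ⟨g0, hy0, hc0⟩ := htl y0 (Set.mem_insert _ _)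
  have hB0 := hB.translate g0
  have hdich : ∀ T : Set Y, (∀ a ∈ T, ∀ a' ∈ T, ∃ g ∈ I, g • a = a') →
      T ⊆ g0 • B ∨ Disjoint T (g0 • B) := by
    intro T hT
    by_cases hd : Disjoint T (g0 • B)
    · exact Or.inr hd
    · obtain ⟨a, haT, haB⟩ := Set.not_disjoint_iff.1 hd
      refine Or.inl fun a' ha' => ?_
      obtain ⟨g, hg, rfl⟩ := hT a haT a' ha'
      refine stab_BLK hB0 hy0 ?_ haB
      rw [hI0 g hg]
      exact hy0
  have hAsub : A ⊆ g0 • B := by
    refine (hdich A hIA).resolve_right fun hd => ?_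
    obtain ⟨a, ha⟩ : A.Nonempty := Set.nonempty_of_ncard_ne_zero (by omega)
    obtain ⟨g1, ha1, hc1⟩ := htl a (Set.mem_insert_of_mem _ (Or.inl ha))
    have hB1 := hB.translate g1
    have heq : (g0 • B ∩ F).ncard = (g1 • B ∩ F).ncard := by
      refine Nat.ModEq.eq_of_lt_of_lt (hc0.symm.trans hc1) ?_ ?_ <;>
        exact lt_of_le_of_lt (Set.ncard_le_ncard Set.inter_subset_right) hFq
    have hdis : Disjoint (g0 • B) (g1 • B) := by
      refine (hB.smul_eq_smul_or_disjoint g0 g1).resolve_left fun he => ?_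
      exact Set.disjoint_left.1 hd ha (he ▸ ha1)
    have h2 : 2 ≤ (g1 • B ∩ F).ncard := by
      have hca : c • a ≠ a := (hc a).2 ha
      by_cases hm : c • a ∈ g1 • B
      · have hcA : c • a ∈ A := (hc _).1 fun he => hca (MulAction.injective c he)
        rw [← Set.ncard_pair hca]
        refine Set.ncard_le_ncard ?_
        rintro z (rfl | rfl)
        · exact ⟨hm, Set.mem_insert_of_mem _ (Or.inl hcA)⟩
        · exact ⟨ha1, Set.mem_insert_of_mem _ (Or.inl ha)⟩
      · have hsub : g1 • B ⊆ F := by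
          intro z hz
          refine Set.mem_insert_of_mem _ (Or.inl ((hc z).1 fun he => hm ?_))
          refine stab_BLK hB1 hz ?_ ha1
          rw [he]
          exact hz
        rw [Set.inter_eq_left.2 hsub, Set.ncard_smul_set]
        exact hB2
    rcases hdich A' hIA' with hs' | hd'
    · have hle : (g1 • B ∩ F).ncard ≤ h := by
        rw [← hA]
        refine Set.ncard_le_ncard ?_
        rintro z ⟨hz, rfl | hz' | hz'⟩
        · exact (Set.disjoint_left.1 hdis hy0 hz).elim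
        · exact hz'
        · exact (Set.disjoint_left.1 hdis (hs' hz') hz).elim
      have he0 : g0 • B ∩ F = insert y0 A' := by
        ext z
        constructor
        · rintro ⟨hz, rfl | hz' | hz'⟩
          · exact Set.mem_insert _ _
          · exact (Set.disjoint_left.1 hd hz' hz).elim
          · exact Set.mem_insert_of_mem _ hz'
        · rintro (rfl | hz)
          · exact ⟨hy0, Set.mem_insert _ _⟩
          · exact ⟨hs' hz, Set.mem_insert_of_mem _ (Or.inr hz)⟩
      rw [he0, Set.ncard_insert_of_notMem hy', hA'] at heq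
      omega
    · have he0 : g0 • B ∩ F = {y0} := by
        ext z
        constructor
        · rintro ⟨hz, rfl | hz' | hz'⟩
          · rfl
          · exact (Set.disjoint_left.1 hd hz' hz).elim
          · exact (Set.disjoint_left.1 hd' hz' hz).elim
        · rintro rfl
          exact ⟨hy0, Set.mem_insert _ _⟩
      rw [he0, Set.ncard_singleton] at heq
      omega
  have hfull : A' ⊆ g0 • B → B.ncard ≡ 1 + h + k [MOD q] := by
    intro hs'
    have hsub : F ⊆ g0 • B := by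
      rintro z (rfl | hz | hz)
      · exact hy0
      · exact hAsub hz
      · exact hs' hz
    rwa [Set.inter_eq_right.2 hsub, hFc] at hc0
  have hhalf : Disjoint A' (g0 • B) → B.ncard ≡ 1 + h [MOD q] := by
    intro hd'
    have he0 : g0 • B ∩ F = insert y0 A := by
      ext z
      constructor
      · rintro ⟨hz, rfl | hz' | hz'⟩
        · exact Set.mem_insert _ _
        · exact Set.mem_insert_of_mem _ hz'
        · exact (Set.disjoint_left.1 hd' hz' hz).elim
      · rintro (rfl | hz)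
        · exact ⟨hy0, Set.mem_insert _ _⟩
        · exact ⟨hAsub hz, Set.mem_insert_of_mem _ (Or.inl hz)⟩
    rwa [he0, Set.ncard_insert_of_notMem hy, hA, add_comm h 1] at hc0
  have htwo : B.ncard ≡ 1 + h [MOD q] → (q : ℤ) ∣ 2 * (B.ncard : ℤ) + 1 := by
    intro h1
    have h2 := h1.symm.dvd
    have h3 : 2 * (B.ncard : ℤ) + 1 = 2 * ((B.ncard : ℤ) - ((1 + h : ℕ) : ℤ)) + q := by
      rw [hqh]
      push_cast
      ring
    rw [h3]
    exact dvd_add (h2.mul_left 2) dvd_rfl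
  refine ⟨fun hk0 => ?_, fun hk1 => ?_⟩
  · have h1 : B.ncard ≡ 1 + h [MOD q] := by
      rcases hdich A' hIA' with hs' | hd'
      · simpa [hk0] using hfull hs'
      · exact hhalf hd'
    refine ⟨?_, htwo h1⟩
    have := ari_BLK (s := s) (j := 1) hq (by omega) (by omega) h1 (by simpa [hk0] using hY)
    simpa using this
  · rcases hdich A' hIA' with hs' | hd'
    · have h1 := hfull hs'
      refine Or.inl ⟨?_, ?_⟩
      · have := ari_BLK (s := s) (j := 1) hq (by omega) (by omega) h1 (by simpa using hY)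
        simpa using this
      · have h2 := h1.symm.dvd
        have h3 : (B.ncard : ℤ) + 1 = ((B.ncard : ℤ) - ((1 + h + k : ℕ) : ℤ)) + q := by
          rw [hqh, hk1]
          push_cast
          ring
        rw [h3]
        exact dvd_add h2 dvd_rfl
    · have h1 := hhalf hd'
      refine Or.inr ⟨?_, htwo h1⟩
      have h4 : 1 + h + k = 2 * (1 + h) := by omega
      have := ari_BLK (s := s) (j := 2) hq (by omega) (by omega) h1 (h4 ▸ hY)
      simpa using this

end Pool.Agent.MP_9c0351_nt.Gal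

end

section

set_option autoImplicit false

open Polynomial Filter
open scoped NNReal

namespace Pool.Agent.MP_9c0351_nt.Gal

open scoped Pointwise

theorem fix_TWO {G Y : Type} [Group G] [Finite Y] [MulAction G Y] {r : ℕ} (hr : r.Prime)
    {P : Subgroup G} (hP : IsPGroup r P) (S : Set Y) (hS : ∀ g ∈ P, ∀ y ∈ S, g • y ∈ S) :
    S.ncard ≡ ({y : Y | ∀ g ∈ P, g • y = y} ∩ S).ncard [MOD r] := by
  have := Fact.mk hr
  let T : SubMulAction P Y := ⟨S, fun g y hy => hS g g.2 y hy⟩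
  have h := hP.card_modEq_card_fixedPoints T
  have e : Nat.card (MulAction.fixedPoints P T) =
      Nat.card ({y : Y | ∀ g ∈ P, g • y = y} ∩ S : Set Y) := by
    refine Nat.card_congr ⟨fun x => ⟨x.1.1, fun g hg => congrArg Subtype.val (x.2 ⟨g, hg⟩), x.1.2⟩,
      fun x => ⟨⟨x.1, x.2.2⟩, fun g => Subtype.ext (x.2.1 g g.2)⟩, fun _ => rfl, fun _ => rfl⟩
  rw [e] at h
  exact h

theorem TWO_pf : TWO_st := by
  intro G Y _ _ _ _ r P B hr h3 hP hB hc hlt
  have hcc : Bᶜ.ncard = B.ncard := by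
    have := Set.ncard_add_ncard_compl B
    omega
  have st : ∀ g ∈ P, g • B = B := fun g hg => by
    rcases hB.smul_eq_or_disjoint g with h | h
    · exact h
    have h1 : g • B = Bᶜ := Set.eq_of_subset_of_ncard_le h.subset_compl_right
      (by rw [hcc, Set.ncard_smul_set])
    have h2 : g ^ 2 • B = B := by
      rw [pow_two, mul_smul, h1, Set.smul_set_compl, h1, compl_compl]
    obtain ⟨k, hk⟩ := hP ⟨g, hg⟩
    obtain ⟨j, hj⟩ : Odd (r ^ k) := (hr.odd_of_ne_two (by omega)).pow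
    have h4 : g ^ (2 * j + 1) = 1 := by
      rw [← hj]
      exact congrArg Subtype.val hk
    have h5 : (g ^ 2) ^ j • B = B := (MulAction.stabilizer G B).pow_mem h2 j
    rw [← h5, ← mul_smul, ← pow_mul, ← pow_succ', h4, one_smul, pow_mul, h5]
  have a1 := fix_TWO hr hP B fun g hg y hy => st g hg ▸ Set.smul_mem_smul_set hy
  have a2 := fix_TWO hr hP Bᶜ fun g hg y hy => by
    rw [← st g hg, ← Set.smul_set_compl]
    exact Set.smul_mem_smul_set hy
  have a3 := Set.ncard_inter_add_ncard_sdiff_eq_ncard {y : Y | ∀ g ∈ P, g • y = y} B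
  rw [Set.sdiff_eq] at a3
  rw [hcc] at a2
  have a4 := (a1.symm.trans a2).eq_of_lt_of_lt (by omega) (by omega)
  exact ⟨_, by rw [← a3, a4]⟩

end Pool.Agent.MP_9c0351_nt.Gal

end

section

/-! A small set meets one of its translates in exactly one given point. -/

set_option autoImplicit false

open Polynomial Filter
open scoped NNReal

namespace Pool.Agent.MP_9c0351_nt.Gal

theorem J1_pf : J1_st := by
  classical
  intro G Y _ _ _ _ A a h2 hA ha
  have := Fintype.ofFinite G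
  have := Fintype.ofFinite Y
  rw [MulAction.is_two_pretransitive_iff] at h2
  by_contra hc
  push Not at hc
  set H : Finset G := Finset.univ.filter fun g => g • a = a with hH
  have mH : ∀ g, g ∈ H ↔ g • a = a := fun g => by simp [hH]
  have ne : ∀ g ∈ H, ∀ b, b ≠ a → g • b ≠ a := fun g hg b hb e =>
    hb (MulAction.injective g (e.trans ((mH g).1 hg).symm))
  have fib : ∀ b b', b ≠ a → b' ≠ a →
      (Fintype.card Y - 1) * (H.filter fun g => g • b = b').card ≤ H.card := by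
    intro b b' hb hb'
    rw [Finset.card_eq_sum_card_fiberwise (s := H) (t := Finset.univ.erase a) (f := fun g => g • b)
      fun g hg => by simpa using ne g hg b hb]
    rw [← Finset.card_univ, ← Finset.card_erase_of_mem (Finset.mem_univ a), ← smul_eq_mul]
    refine Finset.card_nsmul_le_sum _ _ _ fun c hc' => ?_
    obtain ⟨t, ht, ht'⟩ := h2 hb'.symm (Finset.ne_of_mem_erase hc').symm
    refine Finset.card_le_card_of_injOn (fun g => t * g) (fun g hg => ?_)
      fun g _ g' _ e => mul_left_cancel e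
    rw [Finset.mem_coe, Finset.mem_filter, mH] at hg ⊢
    rw [mul_smul, mul_smul, hg.1, hg.2]
    exact ⟨ht, ht'⟩
  set B : Finset Y := A.toFinset.erase a with hB
  have cB : B.card + 1 = A.ncard := by
    rw [hB, Finset.card_erase_add_one (Set.mem_toFinset.2 ha), Set.ncard_eq_toFinset_card']
  have cov : H ⊆ (B ×ˢ B).biUnion fun p => H.filter fun g => g • p.1 = p.2 := by
    intro g hg
    obtain ⟨b, hb, hb1, hb2⟩ := hc g ((mH g).1 hg)
    refine Finset.mem_biUnion.2 ⟨(b, g • b), Finset.mem_product.2 ⟨?_, ?_⟩,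
      Finset.mem_filter.2 ⟨hg, rfl⟩⟩
    · exact Finset.mem_erase.2 ⟨hb2, Set.mem_toFinset.2 hb⟩
    · exact Finset.mem_erase.2 ⟨ne g hg b hb2, Set.mem_toFinset.2 hb1⟩
  have c1 := (Finset.card_le_card cov).trans Finset.card_biUnion_le
  have c2 : (Fintype.card Y - 1) * H.card ≤ (B.card * B.card) * H.card := by
    refine (Nat.mul_le_mul_left _ c1).trans ?_
    rw [Finset.mul_sum, ← Finset.card_product, ← smul_eq_mul]
    refine Finset.sum_le_card_nsmul _ _ _ fun p hp => ?_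
    rw [Finset.mem_product] at hp
    exact fib _ _ (Finset.ne_of_mem_erase hp.1) (Finset.ne_of_mem_erase hp.2)
  have c3 := Nat.le_of_mul_le_mul_right c2
    (Finset.card_pos.2 ⟨1, (mH 1).2 (one_smul G a)⟩)
  rw [← cB, Nat.card_eq_fintype_card, add_sq, sq] at hA
  omega

end Pool.Agent.MP_9c0351_nt.Gal

end

section

/-! The sum of the reciprocals of the primes in a reduced class modulo four diverges. -/

set_option autoImplicit false

open Polynomial Filter
open scoped NNReal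

namespace Pool.Agent.MP_9c0351_nt.Gal

open ArithmeticFunction.vonMangoldt in
theorem gen_DIV (m : ℕ) [NeZero m] (a : ZMod m) (ha : IsUnit a) :
    ¬ Summable fun q : ℕ => if q.Prime ∧ (q : ZMod m) = a then (1 : ℝ) / q else 0 := by
  intro H
  obtain ⟨C, hC⟩ := LSeries_residueClass_lower_bound ha
  have hg := H.add (summable_residueClass_non_primes_div a)
  have hev : ∀ᶠ x : ℝ in nhdsWithin 1 (Set.Ioi 1), x ∈ Set.Ioc (1 : ℝ) 2 :=
    Ioc_mem_nhdsGT one_lt_two
  have hx1 : Tendsto (fun x : ℝ => x - 1) (nhdsWithin 1 (Set.Ioi 1)) (nhds 0) := by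
    have : Tendsto (fun x : ℝ => x - 1) (nhds 1) (nhds (1 - 1)) :=
      (continuous_id.sub continuous_const).tendsto 1
    rw [sub_self] at this
    exact this.mono_left nhdsWithin_le_nhds
  have hdiv : ∀ x : ℝ, 1 < x → ∀ n : ℕ, residueClass a n / (n : ℝ) ^ x ≤ residueClass a n / n := by
    intro x hx n
    rcases n.eq_zero_or_pos with rfl | hn
    · simp
    · have hn1 : (1 : ℝ) ≤ n := by exact_mod_cast hn
      refine div_le_div_of_nonneg_left (residueClass_nonneg a _) (by linarith) ?_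
      have := Real.rpow_le_rpow_of_exponent_le hn1 hx.le
      rwa [Real.rpow_one] at this
  have hnn : ∀ x : ℝ, 1 < x → ∀ n : ℕ, 0 ≤ (x - 1) * (residueClass a n / (n : ℝ) ^ x) := by
    intro x hx n
    exact mul_nonneg (by linarith)
      (div_nonneg (residueClass_nonneg a n) (Real.rpow_nonneg (Nat.cast_nonneg n) x))
  have hlim : Tendsto (fun x : ℝ => ∑' n : ℕ, (x - 1) * (residueClass a n / (n : ℝ) ^ x))
      (nhdsWithin 1 (Set.Ioi 1)) (nhds (∑' _ : ℕ, (0 : ℝ))) := by
    refine tendsto_tsum_of_dominated_convergence hg (fun n => ?_) ?_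
    · have h0 : Tendsto (fun x : ℝ => (x - 1) * (residueClass a n / n))
          (nhdsWithin 1 (Set.Ioi 1)) (nhds 0) := by
        have := hx1.mul_const (residueClass a n / n)
        rwa [zero_mul] at this
      refine squeeze_zero' (hev.mono fun x hx => hnn x hx.1 n) (hev.mono fun x hx => ?_) h0
      exact mul_le_mul_of_nonneg_left (hdiv x hx.1 n) (by linarith [hx.1])
    · refine hev.mono fun x hx n => ?_
      rw [Real.norm_of_nonneg (hnn x hx.1 n)]
      by_cases hp : n.Prime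
      · rw [if_pos hp, zero_div, add_zero]
        by_cases hm : (n : ZMod m) = a
        · rw [if_pos ⟨hp, hm⟩]
          have hn0 : (0 : ℝ) < n := by exact_mod_cast hp.pos
          have hr : residueClass a n ≤ Real.log n := by
            have := residueClass_le a n
            rwa [ArithmeticFunction.vonMangoldt_apply_prime hp] at this
          have hpw : 0 < (n : ℝ) ^ (x - 1) := Real.rpow_pos_of_pos hn0 _
          have hsplit : (n : ℝ) ^ x = (n : ℝ) ^ (x - 1) * n := by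
            rw [← Real.rpow_add_one hn0.ne', sub_add_cancel]
          have hlog : (x - 1) * Real.log n ≤ (n : ℝ) ^ (x - 1) := by
            rw [← Real.log_rpow hn0]
            exact (Real.log_le_sub_one_of_pos hpw).trans (by linarith)
          have h1 : (x - 1) * residueClass a n ≤ (n : ℝ) ^ (x - 1) :=
            (mul_le_mul_of_nonneg_left hr (by linarith [hx.1])).trans hlog
          rw [← mul_div_assoc, hsplit, div_le_div_iff₀ (mul_pos hpw hn0) hn0, one_mul]
          exact mul_le_mul_of_nonneg_right h1 hn0.le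
        · rw [if_neg (fun h => hm h.2)]
          have hm' : n ∉ {k : ℕ | (k : ZMod m) = a} := hm
          have : residueClass a n = 0 := Set.indicator_of_notMem hm' _
          rw [this]
          simp
      · rw [if_neg (fun h => hp h.1), if_neg hp, zero_add]
        have h2 : 0 ≤ residueClass a n / (n : ℝ) ^ x :=
          div_nonneg (residueClass_nonneg a n) (Real.rpow_nonneg (Nat.cast_nonneg n) x)
        have h3 : (x - 1) * (residueClass a n / (n : ℝ) ^ x) ≤
            1 * (residueClass a n / (n : ℝ) ^ x) :=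
          mul_le_mul_of_nonneg_right (by linarith [hx.2]) h2
        rw [one_mul] at h3
        exact h3.trans (hdiv x hx.1 n)
  rw [tsum_zero] at hlim
  have hlow : Tendsto (fun x : ℝ => (m.totient : ℝ)⁻¹ - C * (x - 1))
      (nhdsWithin 1 (Set.Ioi 1)) (nhds ((m.totient : ℝ)⁻¹ - C * 0)) :=
    tendsto_const_nhds.sub (hx1.const_mul C)
  have hle := le_of_tendsto_of_tendsto hlow hlim (hev.mono fun x hx => by
    have h := hC hx
    have hx0 : 0 < x - 1 := by linarith [hx.1]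
    change (m.totient : ℝ)⁻¹ - C * (x - 1) ≤
      ∑' n : ℕ, (x - 1) * (residueClass a n / (n : ℝ) ^ x)
    rw [tsum_mul_left]
    have h2 := mul_le_mul_of_nonneg_left h hx0.le
    have e : (x - 1) * ((m.totient : ℝ)⁻¹ / (x - 1) - C) = (m.totient : ℝ)⁻¹ - C * (x - 1) := by
      field_simp
    rwa [e] at h2)
  have hq : 0 < (m.totient : ℝ)⁻¹ :=
    inv_pos.mpr (by exact_mod_cast Nat.totient_pos.mpr (NeZero.pos m))
  rw [mul_zero, sub_zero] at hle
  exact absurd hle (not_le.mpr hq)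

theorem DIV_pf : DIV_st := by
  intro a ha H
  have hu : IsUnit ((a : ℕ) : ZMod 4) := by
    rw [ZMod.isUnit_iff_coprime]
    rcases ha with rfl | rfl <;> decide
  refine gen_DIV 4 (a : ZMod 4) hu (H.congr fun q => ?_)
  have hiff : (q : ZMod 4) = (a : ZMod 4) ↔ q % 4 = a := by
    rw [ZMod.natCast_eq_natCast_iff']
    rcases ha with rfl | rfl <;> rfl
  by_cases h : q.Prime ∧ q % 4 = a
  · rw [if_pos h, if_pos ⟨h.1, hiff.mpr h.2⟩]
  · rw [if_neg h, if_neg (fun h' => h ⟨h'.1, hiff.mp h'.2⟩)]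

end Pool.Agent.MP_9c0351_nt.Gal

end

section

set_option autoImplicit false

namespace Pool.Agent.MP_9c0351_nt.Gal

theorem card_ok (n : ℕ) (hg : Good n) :
    Nat.card (Sp n).Gal = 2 ^ ((n - 2) / 2) * ((n - 2) / 2).factorial :=
  card_Main BAS_pf ALG_pf (CHR_pf DLT_pf DSC_pf NSQ_pf) VAL_pf
    (GEO_pf GE1_pf (N1_pf TAY_pf NP_pf) (NW_pf TAY_pf NP_pf) WLD_pf) (LO1_pf ORB_pf SYL_pf)
    (LO2_pf AFF_pf MUL_pf) (FXR_pf VAL_pf (N1_pf TAY_pf NP_pf) WLD_pf ORB_pf SYL_pf) TR0_pf TRL_pf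
    BLK_pf TWO_pf ARI_pf (JOR_pf J1_pf) C1_pf C2_pf C3_pf n hg

theorem den_ok : DEN_st := DEN_pf DIV_pf SIE_pf MRK_pf

end Pool.Agent.MP_9c0351_nt.Gal

end
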